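import Mathlib

/-!
# Project MP_17d720_RM, module Nfc: the middle coefficient modulo p

Auxiliary lemmas: prefix nfc_. Let `d = finrank ℚ F`, `P_σ = 1 - σ(a) X + σ(b) X² - p σ(a) X³ + p² X⁴`,
`Q_σ = 1 - σ(a) X + σ(b) X²`. All coefficients are integral over `ℤ`.

`nfc_coeff`: `P_σ = Q_σ + p R_σ` with `R_σ = - σ(a) X³ + p X⁴`. By induction on the finite set of
embeddings, `∏ P_σ - ∏ Q_σ = p W` with a polynomial `W` whose coefficients are integral over `ℤ`. The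
coefficient of `X^(2d)` in `∏ Q_σ` is `∏ σ(b) = N(b)` (each `Q_σ` has natDegree `≤ 2`;
`Polynomial.coeff_prod_of_natDegree_le`, number of embeddings `d`: `NumberField.Embeddings.card`;
`Algebra.norm_eq_prod_embeddings`, `Algebra.coe_norm_int`). So `A - N(b) = p w` with `w` integral and
`w = (A - N(b))/p` rational, hence `w ∈ ℤ` (`IsIntegrallyClosed`), if `p ≠ 0`.

`nfc_one`, `nfc_neg`: evaluate at `1`, `-1`: `∏_σ σ(1 - a + b - p a + p²) = N(...)`.
-/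

namespace Pool.Agent.H99.RM

open NumberField Polynomial

/-- The reversed conjugate polynomial. -/
noncomputable def revPoly (p : ℕ) (a b : ℂ) : ℂ[X] :=
  1 - C a * X + C b * X ^ 2 - C ((p : ℂ) * a) * X ^ 3 + C ((p : ℂ) ^ 2) * X ^ 4

theorem nfc_norm {F : Type} [Field F] [NumberField F] (x : 𝓞 F) :
    ∏ σ : F →+* ℂ, σ (x : F) = ((Algebra.norm ℤ x : ℤ) : ℂ) := by
  have h1 := Algebra.norm_eq_prod_embeddings ℚ ℂ (x : F)
  have h2 : ∏ σ : F →+* ℂ, σ (x : F) = ∏ σ : F →ₐ[ℚ] ℂ, σ (x : F) :=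
    Fintype.prod_equiv (RingHom.equivRatAlgHom F ℂ) _ _ fun σ => rfl
  rw [h2, ← h1, ← Algebra.coe_norm_int]
  simp

theorem nfc_isInt {F : Type} [Field F] [NumberField F] (a : 𝓞 F) (σ : F →+* ℂ) :
    IsIntegral ℤ (σ (a : F)) :=
  map_isIntegral_int σ a.isIntegral_coe

theorem nfc_coeff {F : Type} [Field F] [NumberField F] (p : ℕ) (hp : p ≠ 0) (a b : 𝓞 F) (A : ℤ)
    (hA : (A : ℂ) = (∏ σ : F →+* ℂ, revPoly p (σ (a : F)) (σ (b : F))).coeff
      (2 * Module.finrank ℚ F)) :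
    (p : ℤ) ∣ A - Algebra.norm ℤ b := by
  classical
  let I := integralClosure ℤ ℂ
  let α : (F →+* ℂ) → I := fun σ => ⟨σ (a : F), nfc_isInt a σ⟩
  let β : (F →+* ℂ) → I := fun σ => ⟨σ (b : F), nfc_isInt b σ⟩
  obtain ⟨pI, hpI⟩ : ∃ x : I, x = (p : I) := ⟨_, rfl⟩
  have e3 : algebraMap I ℂ pI = (p : ℂ) := by rw [hpI, map_natCast]
  let P : (F →+* ℂ) → I[X] := fun σ =>
    1 - C (α σ) * X + C (β σ) * X ^ 2 - C (pI * α σ) * X ^ 3 + C (pI ^ 2) * X ^ 4
  let Q : (F →+* ℂ) → I[X] := fun σ => 1 - C (α σ) * X + C (β σ) * X ^ 2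
  have hPm : ∀ σ, (P σ).map (algebraMap I ℂ) = revPoly p (σ (a : F)) (σ (b : F)) := by
    intro σ
    have e1 : algebraMap I ℂ (α σ) = σ (a : F) := rfl
    have e2 : algebraMap I ℂ (β σ) = σ (b : F) := rfl
    simp only [P, revPoly, Polynomial.map_add, Polynomial.map_sub, Polynomial.map_mul,
      Polynomial.map_pow, Polynomial.map_one, Polynomial.map_C, Polynomial.map_X, map_mul, map_pow,
      e1, e2, e3]
  have hdvd : C pI ∣ ∏ σ, P σ - ∏ σ, Q σ := by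
    rw [← Ideal.mem_span_singleton, ← Ideal.Quotient.eq, map_prod, map_prod]
    refine Finset.prod_congr rfl fun σ _ => ?_
    rw [Ideal.Quotient.eq, Ideal.mem_span_singleton]
    refine ⟨- C (α σ) * X ^ 3 + C pI * X ^ 4, ?_⟩
    simp only [P, Q, map_mul, map_pow]
    ring
  obtain ⟨W, hW⟩ := hdvd
  have hQdeg : ∀ σ ∈ (Finset.univ : Finset (F →+* ℂ)), (Q σ).natDegree ≤ 2 := by
    intro σ _
    simp only [Q]
    compute_degree
  have hcardF : (Finset.univ : Finset (F →+* ℂ)).card = Module.finrank ℚ F := by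
    rw [Finset.card_univ]
    exact Embeddings.card F ℂ
  have hQc := Polynomial.coeff_prod_of_natDegree_le Finset.univ Q 2 hQdeg
  rw [hcardF, mul_comm] at hQc
  have hQ2 : ∀ σ, (Q σ).coeff 2 = β σ := by
    intro σ
    simp [Q, coeff_one]
  have hco := congrArg (fun f : I[X] => algebraMap I ℂ (f.coeff (2 * Module.finrank ℚ F))) hW
  simp only [coeff_sub, map_sub, coeff_C_mul, map_mul, hQc, hQ2, map_prod, e3] at hco
  have h3 : algebraMap I ℂ ((∏ σ, P σ).coeff (2 * Module.finrank ℚ F)) = A := by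
    rw [hA, ← Polynomial.coeff_map, Polynomial.map_prod]
    simp only [hPm]
  have h4 : ∏ σ, algebraMap I ℂ (β σ) = ((Algebra.norm ℤ b : ℤ) : ℂ) := nfc_norm b
  rw [h3, h4] at hco
  have hpC : (p : ℂ) ≠ 0 := by exact_mod_cast hp
  have hpQ : (p : ℚ) ≠ 0 := by exact_mod_cast hp
  have h5 : algebraMap ℚ ℂ (((A - Algebra.norm ℤ b : ℤ) : ℚ) / p) =
      algebraMap I ℂ (W.coeff (2 * Module.finrank ℚ F)) := by
    rw [map_div₀, map_natCast, map_intCast, div_eq_iff hpC, mul_comm, ← hco]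
    push_cast
    ring
  have h6 : IsIntegral ℤ (((A - Algebra.norm ℤ b : ℤ) : ℚ) / p) := by
    rw [← isIntegral_algebraMap_iff (algebraMap ℚ ℂ).injective, h5]
    exact (W.coeff (2 * Module.finrank ℚ F)).2
  obtain ⟨n, hn⟩ := IsIntegrallyClosed.isIntegral_iff.1 h6
  refine ⟨n, ?_⟩
  have h7 : ((n : ℤ) : ℚ) = ((A - Algebra.norm ℤ b : ℤ) : ℚ) / p := hn
  rw [eq_div_iff hpQ] at h7
  have h8 : ((n * p : ℤ) : ℚ) = ((A - Algebra.norm ℤ b : ℤ) : ℚ) := by
    rw [← h7]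
    push_cast
    ring
  have h9 : (n * p : ℤ) = A - Algebra.norm ℤ b := by exact_mod_cast h8
  rw [← h9, mul_comm]

theorem nfc_one {F : Type} [Field F] [NumberField F] (p : ℕ) (a b : 𝓞 F) :
    (∏ σ : F →+* ℂ, revPoly p (σ (a : F)) (σ (b : F))).eval 1 =
      ((Algebra.norm ℤ (1 - a + b - (p : 𝓞 F) * a + (p : 𝓞 F) ^ 2) : ℤ) : ℂ) := by
  rw [← nfc_norm, eval_prod]
  refine Finset.prod_congr rfl fun σ _ => ?_
  simp [revPoly]

theorem nfc_neg {F : Type} [Field F] [NumberField F] (p : ℕ) (a b : 𝓞 F) :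
    (∏ σ : F →+* ℂ, revPoly p (σ (a : F)) (σ (b : F))).eval (-1) =
      ((Algebra.norm ℤ (1 + a + b + (p : 𝓞 F) * a + (p : 𝓞 F) ^ 2) : ℤ) : ℂ) := by
  rw [← nfc_norm, eval_prod]
  refine Finset.prod_congr rfl fun σ _ => ?_
  simp [revPoly]
  ring

end Pool.Agent.H99.RM
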