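import Mathlib

/-!
# Project MP_17d720_RM, module Nfa: norms and inert primes

Auxiliary lemmas: prefix nfa_. Proofs.

`nfa_one`: the norm of `1 + q z` is `≡ 1 mod q`: with an integral basis
(`NumberField.RingOfIntegers.basis F`, over `ℤ`) `Algebra.norm ℤ (1 + q z) =
det (1 + q M)`, `M` the integer matrix of multiplication by `z` (`Algebra.norm_eq_matrix_det`,
`Algebra.leftMulMatrix`), and reduce the determinant modulo `q` (`RingHom.map_det`).

`nfa_inert`, induction on `k`. `k = 0`: suppose `q ∣ N x` and `q ∤ x`. The ideal `(q)` is a nonzero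
prime ideal of `𝓞 F`, hence maximal (`Ideal.IsPrime.isMaximal`, `Ideal.span_singleton_prime`), so
there are `y, z` with `x y + q z = 1`; then `N x N y = N (1 - q z) ≡ 1 mod q`, a contradiction
(`q` is not a unit of `ℤ`, e.g. `q ∣ 1` in `ℤ` would make `(q : 𝓞 F)` a unit). Step `k → k+1`: by
the case `0`, `x = q y`, `N x = q^d N y` (`Algebra.norm_algebraMap`, `RingOfIntegers.rank`,
`d = finrank ℚ F`), so `q^(k d + 1) ∣ N y` (`q ≠ 0`), `q^(k+1) ∣ y`.
-/

namespace Pool.Agent.H99.RM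

open NumberField

theorem nfa_det {n : ℕ} (q : ℤ) (M : Matrix (Fin n) (Fin n) ℤ) : q ∣ (1 + q • M).det - 1 := by
  obtain ⟨N, hN⟩ : ∃ N : ℕ, N = q.natAbs := ⟨_, rfl⟩
  have hd : (N : ℤ) ∣ (1 + q • M).det - 1 := by
    rw [← ZMod.intCast_zmod_eq_zero_iff_dvd]
    rw [Int.cast_sub, Int.cast_one]
    have h1 : (((1 + q • M).det : ℤ) : ZMod N) = ((1 + q • M).map (Int.castRingHom (ZMod N))).det := by
      exact RingHom.map_det (Int.castRingHom (ZMod N)) (1 + q • M)
    have h2 : (1 + q • M).map (Int.castRingHom (ZMod N)) = 1 := by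
      ext i j
      have hq : ((q : ℤ) : ZMod N) = 0 := by
        rw [ZMod.intCast_zmod_eq_zero_iff_dvd, hN]
        exact Int.natAbs_dvd.mpr dvd_rfl
      simp only [Matrix.map_apply, Matrix.add_apply, Matrix.smul_apply, smul_eq_mul, eq_intCast,
        Int.cast_add, Int.cast_mul, hq, zero_mul, add_zero, Matrix.one_apply]
      split_ifs <;> simp
    rw [h1, h2, Matrix.det_one, sub_self]
  rw [hN] at hd
  exact Int.natAbs_dvd.mp hd

theorem nfa_one {F : Type} [Field F] [NumberField F] (q : ℤ) (z : 𝓞 F) :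
    q ∣ Algebra.norm ℤ (1 + (q : 𝓞 F) * z) - 1 := by
  classical
  let b := (Module.finBasis ℤ (𝓞 F))
  rw [Algebra.norm_eq_matrix_det b]
  have h1 : Algebra.leftMulMatrix b (1 + (q : 𝓞 F) * z) = 1 + q • Algebra.leftMulMatrix b z := by
    rw [map_add, map_one]
    congr 1
    have : (q : 𝓞 F) * z = q • z := by
      rw [zsmul_eq_mul]
    rw [this, map_zsmul]
  rw [h1]
  exact nfa_det q _

theorem nfa_zero {F : Type} [Field F] [NumberField F] (q : ℕ) (hq : Prime ((q : ℕ) : 𝓞 F))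
    (x : 𝓞 F) (h : (q : ℤ) ∣ Algebra.norm ℤ x) : ((q : ℕ) : 𝓞 F) ∣ x := by
  by_contra hx
  have hne : Ideal.span {((q : ℕ) : 𝓞 F)} ≠ ⊥ := by
    rw [Ne, Ideal.span_singleton_eq_bot]
    exact hq.ne_zero
  have hp : (Ideal.span {((q : ℕ) : 𝓞 F)}).IsPrime := (Ideal.span_singleton_prime hq.ne_zero).mpr hq
  have hm : (Ideal.span {((q : ℕ) : 𝓞 F)}).IsMaximal := hp.isMaximal hne
  obtain ⟨y, z, hz, hyz⟩ := hm.exists_inv (x := x) (by
    rw [Ideal.mem_span_singleton]
    exact hx)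
  obtain ⟨w, hw⟩ := Ideal.mem_span_singleton.mp hz
  have h1 : y * x = 1 + ((q : ℤ) : 𝓞 F) * (-w) := by
    rw [Int.cast_natCast]
    linear_combination hyz - hw
  have h2 := nfa_one (F := F) (q : ℤ) (-w)
  rw [← h1, map_mul] at h2
  have h3 : (q : ℤ) ∣ Algebra.norm ℤ y * Algebra.norm ℤ x := h.mul_left _
  have h4 : (q : ℤ) ∣ 1 := by
    have := dvd_sub h3 h2
    simpa using this
  have h5 : ((q : ℕ) : 𝓞 F) ∣ 1 := by
    obtain ⟨c, hc⟩ := h4
    refine ⟨(c : 𝓞 F), ?_⟩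
    have : ((1 : ℤ) : 𝓞 F) = (((q : ℤ) * c : ℤ) : 𝓞 F) := by rw [← hc]
    push_cast at this
    exact this
  exact hq.not_isUnit (isUnit_of_dvd_one h5)

theorem nfa_inert {F : Type} [Field F] [NumberField F] (q : ℕ) (hq : Prime ((q : ℕ) : 𝓞 F))
    (k : ℕ) (x : 𝓞 F)
    (h : (q : ℤ) ^ (k * Module.finrank ℚ F + 1) ∣ Algebra.norm ℤ x) :
    ((q : ℕ) : 𝓞 F) ^ (k + 1) ∣ x := by
  induction k generalizing x with
  | zero =>
    rw [zero_mul, zero_add, pow_one] at h
    rw [zero_add, pow_one]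
    exact nfa_zero q hq x h
  | succ k ih =>
    have h1 : ((q : ℕ) : 𝓞 F) ∣ x := nfa_zero q hq x ((dvd_pow_self _ (by omega)).trans h)
    obtain ⟨y, rfl⟩ := h1
    have h0 : (q : ℤ) ≠ 0 := by
      intro h0
      apply hq.ne_zero
      have : q = 0 := by exact_mod_cast h0
      rw [this, Nat.cast_zero]
    have h2 : Algebra.norm ℤ ((q : ℕ) : 𝓞 F) = (q : ℤ) ^ Module.finrank ℚ F := by
      have e1 : ((q : ℕ) : 𝓞 F) = algebraMap ℤ (𝓞 F) (q : ℤ) := by simp
      rw [e1, Algebra.norm_algebraMap, RingOfIntegers.rank]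
    rw [map_mul, h2] at h
    have e2 : (k + 1) * Module.finrank ℚ F + 1 =
        Module.finrank ℚ F + (k * Module.finrank ℚ F + 1) := by ring
    rw [e2, pow_add] at h
    have h3 := (mul_dvd_mul_iff_left (pow_ne_zero _ h0)).mp h
    rw [pow_succ']
    exact mul_dvd_mul_left _ (ih y h3)

end Pool.Agent.H99.RM
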