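import Pool.Agent.H99.RM.Rbd
import Pool.Agent.H99.RM.Nfa

/-!
# Project MP_17d720_RM, module Nfr: p does not divide b

Auxiliary lemmas: prefix nfr_. Proof. Suppose `b = p β`, `β ∈ 𝓞 F`. Every embedding `σ : F →+* ℂ` is
real (`NumberField.IsTotallyReal`, `NumberField.ComplexEmbedding.IsReal`), so `σ a = A`, `σ b = B` are
real and `rbd_main` applies: `-2p ≤ σ b ≤ 6p`, i.e. `-2 ≤ σ β ≤ 6`.

Adding `h32`, `h16`: `16 ∣ 2 (1 + b + p²)`, so `8 ∣ 1 + b + p²` (`𝓞 F` is a domain of characteristic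
zero), and `8 ∣ p² - 1` (`p` odd), so `8 ∣ b + 2 = p β + 2`; as `p ≡ 5 mod 8`, `5 p ≡ 1 mod 8` and
`8 ∣ 5 (p β + 2) - (5 p - 1) β - 8 = β + 2`. Write `β + 2 = 8 γ`, `γ ∈ 𝓞 F`. All `σ γ ∈ [0, 1]`. The
norm `N γ = ∏ σ γ` (`Algebra.norm_eq_prod_embeddings`, `Algebra.coe_norm_int`) is an integer in
`[0, 1]`.

Case `N γ = 0`: `γ = 0` (`Algebra.norm_eq_zero_iff`), `b = -2p`, all `σ a = 0` by `rbd_main`, so
`a = 0` and `h32` says `32 ∣ 1 - 2 p + p² = (p - 1)²` in `𝓞 F`. But `(p-1)² = 16 m` with `m` odd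
(`p ≡ 5 mod 8`), so `2 ∣ m` in `𝓞 F`, hence `2 ∣ 1`, contradicting that `2` is prime.
Case `N γ = 1`: all `σ γ ∈ (0, 1]` with product `1`, so `σ γ = 1`, `γ = 1`, `β = 6`, `b = 6p`,
`(σ a)² = 16 p` by `rbd_main` for all `σ`, `a² = 16 p`. Then `p ∣ a²`, `p ∣ a` (`p` is prime in
`𝓞 F`), `p² ∣ 16 p`, `p ∣ 16 = 2^4`, `p ∣ 2` in `𝓞 F`; together with `p ∣ p`, `p` odd, this gives
`p ∣ 1` (`p = 2 t + 1`), contradicting that `p` is prime.
-/

namespace Pool.Agent.H99.RM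

open NumberField Polynomial

/-- The real embedding below a complex embedding. -/
noncomputable def nfr_re {F : Type} [Field F] [NumberField F] [IsTotallyReal F] (σ : F →+* ℂ) :
    F →+* ℝ :=
  (IsTotallyReal.complexEmbedding_isReal σ).embedding

theorem nfr_coe {F : Type} [Field F] [NumberField F] [IsTotallyReal F] (σ : F →+* ℂ) (x : F) :
    ((nfr_re σ x : ℝ) : ℂ) = σ x :=
  ComplexEmbedding.IsReal.coe_embedding_apply _ x

theorem nfr_norm {F : Type} [Field F] [NumberField F] [IsTotallyReal F] (x : 𝓞 F) :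
    ((Algebra.norm ℤ x : ℤ) : ℝ) = ∏ σ : F →ₐ[ℚ] ℂ, nfr_re (σ : F →+* ℂ) (x : F) := by
  have h1 := Algebra.norm_eq_prod_embeddings ℚ ℂ (x : F)
  have h2 : (Algebra.norm ℚ (x : F)) = ((Algebra.norm ℤ x : ℤ) : ℚ) :=
    (Algebra.coe_norm_int x).symm
  rw [h2] at h1
  have h3 : (((Algebra.norm ℤ x : ℤ) : ℝ) : ℂ) =
      ((∏ σ : F →ₐ[ℚ] ℂ, nfr_re (σ : F →+* ℂ) (x : F) : ℝ) : ℂ) := by
    rw [Complex.ofReal_prod]
    have h4 : ∀ σ : F →ₐ[ℚ] ℂ, ((nfr_re (σ : F →+* ℂ) (x : F) : ℝ) : ℂ) = σ (x : F) :=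
      fun σ => nfr_coe (σ : F →+* ℂ) (x : F)
    simp only [h4]
    rw [← h1]
    simp
  exact_mod_cast h3

/-- An algebraic integer all of whose conjugates are in `[0, 1]` is `0` or `1`. -/
theorem nfr_unit {F : Type} [Field F] [NumberField F] [IsTotallyReal F] (x : 𝓞 F)
    (h : ∀ σ : F →+* ℂ, 0 ≤ nfr_re σ (x : F) ∧ nfr_re σ (x : F) ≤ 1) : x = 0 ∨ x = 1 := by
  classical
  have hN := nfr_norm x
  have h0 : 0 ≤ ((Algebra.norm ℤ x : ℤ) : ℝ) := by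
    rw [hN]
    exact Finset.prod_nonneg fun σ _ => (h _).1
  have h1 : ((Algebra.norm ℤ x : ℤ) : ℝ) ≤ 1 := by
    rw [hN]
    exact Finset.prod_le_one (fun σ _ => (h _).1) fun σ _ => (h _).2
  have h0' : 0 ≤ Algebra.norm ℤ x := by exact_mod_cast h0
  have h1' : Algebra.norm ℤ x ≤ 1 := by exact_mod_cast h1
  rcases (by omega : Algebra.norm ℤ x = 0 ∨ Algebra.norm ℤ x = 1) with h2 | h2
  · left
    exact Algebra.norm_eq_zero_iff.1 h2
  · right
    rw [h2] at hN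
    obtain ⟨σ₁⟩ : Nonempty (F →+* ℂ) := inferInstance
    let σ₀ : F →ₐ[ℚ] ℂ := σ₁.toRatAlgHom
    have h3 : nfr_re (σ₀ : F →+* ℂ) (x : F) = 1 := by
      refine le_antisymm (h _).2 ?_
      rw [← Finset.mul_prod_erase Finset.univ _ (Finset.mem_univ σ₀)] at hN
      have h4 : ∏ σ ∈ Finset.univ.erase σ₀, nfr_re ((σ : F →ₐ[ℚ] ℂ) : F →+* ℂ) (x : F) ≤ 1 :=
        Finset.prod_le_one (fun σ _ => (h _).1) fun σ _ => (h _).2
      have h5 := mul_le_mul_of_nonneg_left h4 (h (σ₀ : F →+* ℂ)).1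
      push_cast at hN
      linarith
    have h4 : (x : F) = 1 := by
      apply (nfr_re (σ₀ : F →+* ℂ)).injective
      rw [h3, map_one]
    exact_mod_cast h4

theorem nfr_main {F : Type} [Field F] [NumberField F] [IsTotallyReal F] (p : ℕ) (h8 : p % 8 = 5)
    (hin : Prime ((p : ℕ) : 𝓞 F)) (h2 : Prime (2 : 𝓞 F)) (a b : 𝓞 F)
    (hroot : ∀ σ : F →+* ℂ, ∀ z : ℂ,
      (frobPoly p (σ (a : F)) (σ (b : F))).IsRoot z → ‖z‖ ≤ √(p : ℝ))
    (h32 : (2 : 𝓞 F) ^ 5 ∣ 1 - a + b - (p : 𝓞 F) * a + (p : 𝓞 F) ^ 2)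
    (h16 : (2 : 𝓞 F) ^ 4 ∣ 1 + a + b + (p : 𝓞 F) * a + (p : 𝓞 F) ^ 2) :
    ¬ ((p : ℕ) : 𝓞 F) ∣ b := by
  rintro ⟨β, hβ⟩
  have hp0 : 0 < p := by omega
  have hpR : (0 : ℝ) < (p : ℝ) := by exact_mod_cast hp0
  have hbd : ∀ σ : F →+* ℂ, _ := fun σ => rbd_main p hp0 (nfr_re σ (a : F)) (nfr_re σ (b : F))
    (fun z hz => hroot σ z (by rwa [nfr_coe, nfr_coe] at hz))
  obtain ⟨q, hq⟩ : ∃ q : ℕ, p = 8 * q + 5 := ⟨p / 8, by omega⟩
  have hpF : (p : 𝓞 F) = 8 * (q : 𝓞 F) + 5 := by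
    rw [hq]
    push_cast
    ring
  obtain ⟨w₁, hw₁⟩ := h32
  obtain ⟨w₂, hw₂⟩ := h16
  have h2ne : (2 : 𝓞 F) ≠ 0 := h2.ne_zero
  have hw : 1 + b + (p : 𝓞 F) ^ 2 = 8 * (2 * w₁ + w₂) := by
    apply mul_left_cancel₀ h2ne
    linear_combination hw₁ + hw₂
  -- the element γ
  set u : 𝓞 F := 2 * w₁ + w₂ - (8 * (q : 𝓞 F) ^ 2 + 10 * (q : 𝓞 F) + 3) with hu
  have h1 : (p : 𝓞 F) * β + 2 = 8 * u := by
    rw [hu, ← hβ]
    have : (p : 𝓞 F) ^ 2 = 8 * (8 * (q : 𝓞 F) ^ 2 + 10 * (q : 𝓞 F) + 3) + 1 := by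
      rw [hpF]; ring
    linear_combination hw - this
  set γ : 𝓞 F := 5 * (u - (q : 𝓞 F) * β) - 3 * β - 1 with hγ
  have h3 : β + 2 = 8 * γ := by
    rw [hγ]
    rw [hpF] at h1
    linear_combination (5 : 𝓞 F) * h1
  have h3F : (β : F) + 2 = 8 * (γ : F) := by
    have := congrArg (algebraMap (𝓞 F) F) h3
    rwa [map_add, map_mul, map_ofNat, map_ofNat] at this
  have hβF : (b : F) = (p : F) * (β : F) := by
    have := congrArg (algebraMap (𝓞 F) F) hβ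
    rwa [map_mul, map_natCast] at this
  have hγ01 : ∀ σ : F →+* ℂ, 0 ≤ nfr_re σ (γ : F) ∧ nfr_re σ (γ : F) ≤ 1 := by
    intro σ
    have e1 := congrArg (nfr_re σ) h3F
    have e2 := congrArg (nfr_re σ) hβF
    simp only [map_add, map_mul, map_ofNat, map_natCast] at e1 e2
    obtain ⟨b1, b2, -, -⟩ := hbd σ
    rw [e2] at b1 b2
    have c1 : -2 ≤ nfr_re σ (β : F) := by
      by_contra hc
      push Not at hc
      nlinarith
    have c2 : nfr_re σ (β : F) ≤ 6 := by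
      by_contra hc
      push Not at hc
      nlinarith
    constructor <;> linarith
  obtain ⟨σ₀⟩ : Nonempty (F →+* ℂ) := inferInstance
  rcases nfr_unit γ hγ01 with h | h
  · -- γ = 0
    have hβ2 : β = -2 := by
      rw [h, mul_zero] at h3
      exact eq_neg_of_add_eq_zero_left h3
    have hb : b = -2 * (p : 𝓞 F) := by rw [hβ, hβ2]; ring
    have ha : a = 0 := by
      have h4 : nfr_re σ₀ (a : F) = 0 := by
        refine (hbd σ₀).2.2.2 ?_
        have e : (β : F) = -2 := by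
          rw [hβ2]
          show algebraMap (𝓞 F) F (-2) = -2
          rw [map_neg, map_ofNat]
        rw [hβF, e, map_mul, map_natCast, map_neg, map_ofNat]
        ring
      have h5 : (a : F) = 0 := by
        apply (nfr_re σ₀).injective
        rw [h4, map_zero]
      exact_mod_cast h5
    have h5 : (2 : 𝓞 F) ∣ (2 * (q : 𝓞 F) + 1) ^ 2 := by
      refine ⟨w₁, ?_⟩
      have h16' : (16 : 𝓞 F) ≠ 0 := by
        have : (16 : 𝓞 F) = 2 ^ 4 := by norm_num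
        rw [this]
        exact pow_ne_zero _ h2ne
      apply mul_left_cancel₀ h16'
      rw [ha, hb, hpF] at hw₁
      linear_combination hw₁
    have h6 := h2.dvd_of_dvd_pow h5
    have h7 : (2 : 𝓞 F) ∣ 1 := (dvd_add_right (Dvd.intro _ rfl)).1 h6
    exact h2.not_isUnit (isUnit_of_dvd_one h7)
  · -- γ = 1
    have hβ6 : β = 6 := by
      rw [h, mul_one] at h3
      linear_combination h3
    have ha : a ^ 2 = 16 * (p : 𝓞 F) := by
      have h4 : (nfr_re σ₀ (a : F)) ^ 2 = 16 * (p : ℝ) := by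
        refine (hbd σ₀).2.2.1 ?_
        have e : (β : F) = 6 := by
          rw [hβ6]
          exact map_ofNat (algebraMap (𝓞 F) F) 6
        rw [hβF, e, map_mul, map_natCast, map_ofNat]
        ring
      have h5 : (a : F) ^ 2 = 16 * (p : F) := by
        apply (nfr_re σ₀).injective
        rw [map_pow, h4, map_mul, map_natCast, map_ofNat]
      apply RingOfIntegers.ext
      show algebraMap (𝓞 F) F (a ^ 2) = algebraMap (𝓞 F) F (16 * (p : 𝓞 F))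
      rw [map_pow, map_mul, map_ofNat, map_natCast]
      exact h5
    have h5 : ((p : ℕ) : 𝓞 F) ∣ a := hin.dvd_of_dvd_pow (n := 2) ⟨16, by rw [ha]; ring⟩
    obtain ⟨c, hc⟩ := h5
    have h6 : (p : 𝓞 F) * c ^ 2 = 16 := by
      apply mul_left_cancel₀ hin.ne_zero
      rw [hc] at ha
      linear_combination ha
    have h7 : ((p : ℕ) : 𝓞 F) ∣ 2 := by
      refine hin.dvd_of_dvd_pow (n := 4) ⟨c ^ 2, ?_⟩
      rw [h6]
      norm_num
    obtain ⟨d, hd⟩ := h7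
    have h8' : ((p : ℕ) : 𝓞 F) ∣ 1 := by
      refine ⟨1 - d * (4 * (q : 𝓞 F) + 2), ?_⟩
      have : (p : 𝓞 F) = 2 * (4 * (q : 𝓞 F) + 2) + 1 := by rw [hpF]; ring
      linear_combination (-(4 * (q : 𝓞 F) + 2)) * hd - this
    exact hin.not_isUnit (isUnit_of_dvd_one h8')

end Pool.Agent.H99.RM
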