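import Pool.Agent.H99.RM.Curve

/-!
# Project MP_17d720_RM, module Lnk: number of points and character sums

Auxiliary lemmas: prefix lnk_. Proof. For `x` in the field `F` with `p^m` elements (odd) the number of
`y` with `y² = c` is `1 + χ(c)` (`quadraticChar_card_sqrts`), so the number of affine points is
`∑_x (1 + χ(∏ (x - e i))) = p^m + NG p m r` (`GaloisField.card`; fibre the subtype over the first
coordinate, `Nat.card_sigma`/`Fintype.card_sigma`). `algebraMap (ZMod p) F (e i) = e i` (`map_intCast`).
-/

namespace Pool.Agent.H99.RM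

theorem lnk_count {F : Type} [Field F] [Fintype F] [DecidableEq F] (hF : ringChar F ≠ 2)
    (g : F → F) : (Nat.card {P : F × F // P.2 ^ 2 = g P.1} : ℤ) =
      Fintype.card F + ∑ x : F, quadraticChar F (g x) := by
  have h1 : Nat.card {P : F × F // P.2 ^ 2 = g P.1} =
      Nat.card (Σ x : F, {y : F // y ^ 2 = g x}) := by
    apply Nat.card_congr
    exact
      { toFun := fun P => ⟨P.1.1, ⟨P.1.2, P.2⟩⟩
        invFun := fun P => ⟨(P.1, P.2.1), P.2.2⟩
        left_inv := fun P => rfl
        right_inv := fun P => rfl }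
  rw [h1, Nat.card_eq_fintype_card, Fintype.card_sigma, Nat.cast_sum]
  have h2 : ∀ x : F, ((Fintype.card {y : F // y ^ 2 = g x} : ℕ) : ℤ) =
      1 + quadraticChar F (g x) := by
    intro x
    have h3 := quadraticChar_card_sqrts hF (g x)
    rw [add_comm, ← h3, Fintype.card_subtype, Set.toFinset_ofPred]
  rw [Finset.sum_congr rfl (fun x _ => h2 x), Finset.sum_add_distrib, Finset.sum_const,
    Finset.card_univ, nsmul_eq_mul, mul_one]

theorem lnk_main {n : ℕ} (e : Fin n → ℤ) (p : ℕ) [Fact p.Prime] (hp : p ≠ 2) (m : ℕ) (hm : 0 < m) :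
    (affinePoints e p m : ℤ) = (p : ℤ) ^ m + NG p m (fun i => ((e i : ℤ) : ZMod p)) := by
  classical
  let _inst := Fintype.ofFinite (GaloisField p m)
  have hch : ringChar (GaloisField p m) = p := ringChar.eq (GaloisField p m) p
  have h1 := lnk_count (F := GaloisField p m) (by rw [hch]; exact hp)
    (fun x => ∏ i, (x - ((e i : ℤ) : GaloisField p m)))
  have h2 : Fintype.card (GaloisField p m) = p ^ m := by
    rw [← Nat.card_eq_fintype_card]
    exact GaloisField.card p m hm.ne'
  unfold affinePoints
  rw [h1, h2, Nat.cast_pow]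
  unfold NG NS
  simp only [map_intCast]

end Pool.Agent.H99.RM
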