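import Mathlib

/-!
# Project MP_17d720_RM: ordinary primes of hyperelliptic curves with real multiplication.
Definitions used by the modules.

`mon c` is the monic polynomial of degree `k` with lower coefficients `c : Fin k → K`; every monic
polynomial of degree `k` over the finite field `K` is `mon c` for exactly one `c`.
-/

namespace Pool.Agent.H99.RM

open Polynomial Finset

/-- The monic polynomial `X ^ k + ∑ c i X ^ i`. -/
noncomputable def mon {K : Type} [Field K] {k : ℕ} (c : Fin k → K) : K[X] :=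
  X ^ k + ∑ i, C (c i) * X ^ (i : ℕ)

/-- The sum of `∏ i ∈ S, χ (h (r i))` over the monic polynomials `h` of degree `k` with
`h (r i) ≠ 0` for `i ∈ B`. Here `χ` is the quadratic character of `K`. -/
noncomputable def AS {K : Type} [Field K] [Fintype K] [DecidableEq K] {ι : Type} [DecidableEq ι]
    (r : ι → K) (S B : Finset ι) (k : ℕ) : ℤ :=
  ∑ c : Fin k → K, (∏ i ∈ S, quadraticChar K ((mon c).eval (r i))) *
    ∏ i ∈ B, (quadraticChar K ((mon c).eval (r i))) ^ 2

/-- `∑_{k < m} AS r S B k`. -/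
noncomputable def LS {K : Type} [Field K] [Fintype K] [DecidableEq K] {ι : Type} [DecidableEq ι]
    (r : ι → K) (S B : Finset ι) (m : ℕ) : ℤ := ∑ k ∈ range m, AS r S B k

/-- `∑_{k < m} (-1) ^ k AS r S B k`. -/
noncomputable def LT {K : Type} [Field K] [Fintype K] [DecidableEq K] {ι : Type} [DecidableEq ι]
    (r : ι → K) (S B : Finset ι) (m : ℕ) : ℤ := ∑ k ∈ range m, (-1) ^ k * AS r S B k

/-- `∑_{x ∈ F} χ (∏ i, (x - r i))` for a finite extension `F` of `K`. -/
noncomputable def NS (K : Type) [Field K] (F : Type) [Field F] [Fintype F] [DecidableEq F]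
    [Algebra K F] {n : ℕ} (r : Fin n → K) : ℤ :=
  ∑ x : F, quadraticChar F (∏ i, (x - algebraMap K F (r i)))

open Classical in
/-- `∑_{x ∈ F} χ (∏ i, (x - r i))` for the field `F` with `p ^ m` elements. -/
noncomputable def NG (p m : ℕ) [Fact p.Prime] {n : ℕ} (r : Fin n → ZMod p) : ℤ :=
  haveI := Fintype.ofFinite (GaloisField p m)
  NS (ZMod p) (GaloisField p m) r

/-- The characteristic polynomial of Frobenius attached to `a, b`, over `ℂ`. -/
noncomputable def frobPoly (p : ℕ) (a b : ℂ) : ℂ[X] :=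
  X ^ 4 - C a * X ^ 3 + C b * X ^ 2 - C ((p : ℂ) * a) * X + C ((p : ℂ) ^ 2)

/-- The sum of the `k`-th powers of the conjugates of the roots. -/
noncomputable def powSum {F : Type} [Field F] [NumberField F] (p : ℕ) (a b : F) (k : ℕ) : ℂ :=
  ∑ σ : F →+* ℂ, ((frobPoly p (σ a) (σ b)).roots.map (fun α => α ^ k)).sum

/-- The Cartier-Manin matrix of `y ^ 2 = ∏ (x - r i)`. -/
noncomputable def cm {p : ℕ} (g : ℕ) {n : ℕ} (r : Fin n → ZMod p) :
    Matrix (Fin g) (Fin g) (ZMod p) :=
  Matrix.of fun i j =>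
    ((∏ l, (X - C (r l)) : (ZMod p)[X]) ^ ((p - 1) / 2)).coeff (p * ((i : ℕ) + 1) - ((j : ℕ) + 1))

end Pool.Agent.H99.RM
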