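import Pool.Agent.H99.RM.Axp

/-!
# Project MP_17d720_RM, module Stp: the bound for character sums (Stepanov)

Auxiliary lemmas: prefix stp_. Proof. Let `q = #F`, odd, `n` odd. First let `q ≥ q0(n)` be large (e.g.
`q0 = 4096 n^2`). Put `λ = ⌊√q / 4⌋` (`Nat.sqrt q / 4`), so `16 λ² ≤ q`, `8 λ ≥ √q` for `q ≥ 64`,
`l = 2 λ`, `J = λ + n`, `D = (q - n)/2`. The inequality of `axp_main`:
`2JD - l(D + J) = 2 n D - 2 λ (λ + n)` must exceed `(n-1) λ (2λ - 1)`; since
`2 n D = n (q - n) ≥ n q/2 + ...`, `2 λ² + 2 λ n + 2 (n-1) λ² ≤ 2 n λ² + 2 λ n ≤ n q/8 + n √q/2` this holds.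

For `a = 1, -1` let `S_a` be the set of `x` with `f(x) = 0` or `f(x)^((q-1)/2) = a`. `h ≠ 0` is divisible
by `(X - x)^l` for all `x ∈ S_a`, so `l #S_a ≤ deg h`
(`Finset.prod_dvd_of_coprime`, `pairwise_coprime_X_sub_C`) and
`deg h ≤ l n + (q-n)/2 + n (q-1)/2 + q (λ + n) ≤ 2 λ n + λ q + q (3n+1)/2`, hence
`#S_a ≤ q/2 + n + q (3n+1)/(4 λ) ≤ q/2 + n + 8 n √q` (as `λ ≥ √q/8`, `3n+1 ≤ 4n`).
So the numbers `N₊`, `N₋` of `x` with `χ(f x) = 1`, `-1`
(`quadraticChar_eq_pow_of_char_ne_two`: `χ = 1` iff the power is `1`) satisfy `N₊, N₋ ≤ q/2 + 9 n √q`, and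
`N₊ + N₋ ≥ q - n` (`card_roots'`); hence `|N₊ - N₋| ≤ 19 n √q`.
For `q < q0`: `|∑| ≤ q ≤ √q0 √q`. Take `C = 19 n + √q0`.
-/

namespace Pool.Agent.H99.RM

open Polynomial Finset

theorem stp_dvd {F : Type} [Field F] [DecidableEq F] (h : F[X]) (h0 : h ≠ 0) (l : ℕ) (S : Finset F)
    (hS : ∀ x ∈ S, (X - C x) ^ l ∣ h) : l * S.card ≤ h.natDegree := by
  have h1 : ∏ x ∈ S, (X - C x) ^ l ∣ h := by
    apply Finset.prod_dvd_of_coprime
    · intro x _ y _ hxy
      exact (pairwise_coprime_X_sub_C (s := fun x : F => x) Function.injective_id hxy).pow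
    · exact hS
  have h2 := natDegree_le_of_dvd h1 h0
  rw [natDegree_prod_of_monic _ _ (fun x _ => (monic_X_sub_C x).pow l)] at h2
  simp only [natDegree_pow, natDegree_X_sub_C, mul_one, Finset.sum_const, smul_eq_mul] at h2
  rw [mul_comm]
  exact h2

theorem stp_count {q n lam : ℕ} (hn : 1 ≤ n) (hq : 4 * n + 100 ≤ q) (h1 : 1 ≤ lam) (h2 : 16 * lam ^ 2 ≤ q)
    (D : ℕ) (hD : 2 * D = q - n) :
    2 * lam * (D + (lam + n)) + (n - 1) * (2 * lam * (2 * lam - 1) / 2) < 2 * (lam + n) * D := by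
  obtain ⟨m, rfl⟩ : ∃ m, n = m + 1 := ⟨n - 1, by omega⟩
  have e1 : 2 * lam * (2 * lam - 1) / 2 ≤ 2 * lam ^ 2 := by
    apply Nat.div_le_of_le_mul
    have : 2 * lam * (2 * lam - 1) ≤ 2 * lam * (2 * lam) := Nat.mul_le_mul_left _ (by omega)
    nlinarith
  have e2 : (m + 1 - 1) * (2 * lam * (2 * lam - 1) / 2) ≤ m * (2 * lam ^ 2) := by
    rw [Nat.add_sub_cancel]
    exact Nat.mul_le_mul_left _ e1
  have e3 : (m + 1) * (2 * lam ^ 2 + 2 * lam) < (m + 1) * (2 * D) := by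
    apply Nat.mul_lt_mul_of_pos_left _ (by omega)
    have : lam ≤ lam ^ 2 := by nlinarith
    omega
  have e4 : 2 * lam * (D + (lam + (m + 1))) + m * (2 * lam ^ 2) =
      2 * lam * D + (m + 1) * (2 * lam ^ 2 + 2 * lam) := by ring
  have e5 : 2 * (lam + (m + 1)) * D = 2 * lam * D + (m + 1) * (2 * D) := by ring
  omega

theorem stp_lam (q : ℕ) (hq : 100 ≤ q) : 1 ≤ Nat.sqrt q / 4 ∧ 16 * (Nat.sqrt q / 4) ^ 2 ≤ q ∧
    √(q : ℝ) ≤ 8 * ((Nat.sqrt q / 4 : ℕ) : ℝ) := by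
  have h1 : 10 ≤ Nat.sqrt q := by
    rw [Nat.le_sqrt]
    omega
  have h2 : Nat.sqrt q * Nat.sqrt q ≤ q := Nat.sqrt_le q
  have h3 : q < (Nat.sqrt q + 1) * (Nat.sqrt q + 1) := Nat.lt_succ_sqrt q
  set m := Nat.sqrt q with hm
  have h4 : 4 * (m / 4) ≤ m := Nat.mul_div_le m 4
  have h5 : m < 4 * (m / 4) + 4 := by omega
  refine ⟨by omega, ?_, ?_⟩
  · have : (4 * (m / 4)) * (4 * (m / 4)) ≤ m * m := Nat.mul_le_mul h4 h4
    nlinarith
  · have h6 : √(q : ℝ) ≤ (m : ℝ) + 1 := by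
      rw [Real.sqrt_le_left (by positivity)]
      have : (q : ℝ) ≤ ((m + 1) * (m + 1) : ℕ) := by exact_mod_cast h3.le
      push_cast at this
      nlinarith
    have h7 : (m : ℝ) ≤ 4 * ((m / 4 : ℕ) : ℝ) + 3 := by exact_mod_cast (by omega : m ≤ 4 * (m / 4) + 3)
    have h8 : (1 : ℝ) ≤ ((m / 4 : ℕ) : ℝ) := by exact_mod_cast (by omega : 1 ≤ m / 4)
    linarith

theorem stp_card {F : Type} [Field F] [Fintype F] [DecidableEq F] (hF : ringChar F ≠ 2) (f : F[X])
    (hn : Odd f.natDegree) (hq : 4 * f.natDegree + 100 ≤ Fintype.card F) (a : F) :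
    2 * ((univ.filter (fun x : F => f.eval x = 0 ∨
      (f.eval x) ^ ((Fintype.card F - 1) / 2) = a)).card : ℝ) - Fintype.card F ≤
      18 * f.natDegree * √(Fintype.card F : ℝ) := by
  have hodd : Odd (Fintype.card F) := Nat.odd_iff.2 (FiniteField.odd_card_of_char_ne_two hF)
  obtain ⟨l1, l2, l3⟩ := stp_lam (Fintype.card F) (by omega)
  set q := Fintype.card F with hqd
  set n := f.natDegree with hnd
  set lam := Nat.sqrt q / 4 with hlam
  have hn1 : 1 ≤ n := hn.pos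
  obtain ⟨D, hD⟩ : ∃ D, 2 * D = q - n := by
    obtain ⟨a, ha⟩ := hodd
    obtain ⟨b, hb⟩ := hn
    exact ⟨a - b, by omega⟩
  have hDd : (q - n) / 2 = D := by omega
  have hlq : 2 * lam ≤ q := by nlinarith
  obtain ⟨h, h0, hdeg, hdv⟩ := axp_main f hn hodd (by omega) a (2 * lam) (lam + n) hlq (by
    rw [← hqd, ← hnd, hDd]
    exact stp_count hn1 hq l1 l2 D hD)
  have h1 := stp_dvd h h0 (2 * lam) (univ.filter (fun x : F => f.eval x = 0 ∨
      (f.eval x) ^ ((Fintype.card F - 1) / 2) = a)) (fun x hx => hdv x (Finset.mem_filter.1 hx).2)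
  rw [← hqd] at h1 hdeg
  rw [← hnd, hDd] at hdeg
  set s := (univ.filter (fun x : F => f.eval x = 0 ∨ (f.eval x) ^ ((q - 1) / 2) = a)).card with hs
  have h2 : 4 * lam * s ≤ 4 * lam * n + q + n * q + 2 * (q * (lam + n)) := by
    have e1 : 2 * ((q - 1) / 2) ≤ q := by omega
    have e2 : n * (2 * ((q - 1) / 2)) ≤ n * q := Nat.mul_le_mul_left _ e1
    have e3 : 2 * D ≤ q := by omega
    nlinarith
  have h3 : (4 : ℝ) * lam * s ≤ 4 * lam * n + q + n * q + 2 * (q * (lam + n)) := by exact_mod_cast h2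
  have hl : (1 : ℝ) ≤ lam := by exact_mod_cast l1
  have hn' : (1 : ℝ) ≤ n := by exact_mod_cast hn1
  have hq' : (100 : ℝ) ≤ q := by exact_mod_cast (by omega : 100 ≤ q)
  have hsq : √(q : ℝ) * √(q : ℝ) = q := Real.mul_self_sqrt (by linarith)
  have hs0 : 0 ≤ √(q : ℝ) := Real.sqrt_nonneg _
  have hs1 : 1 ≤ √(q : ℝ) := by
    rw [Real.one_le_sqrt]
    linarith
  have h4 : (q : ℝ) ≤ 8 * lam * √(q : ℝ) := by
    calc (q : ℝ) = √(q : ℝ) * √(q : ℝ) := hsq.symm
      _ ≤ 8 * lam * √(q : ℝ) := mul_le_mul_of_nonneg_right l3 hs0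
  -- 2 lam (2 s - q) ≤ 4 lam n + q + 3 n q ≤ 4 lam n + 4 n q ≤ 2 lam (2 n + 16 n √q)
  have h5 : 2 * lam * (2 * (s : ℝ) - q) ≤ 4 * lam * n + 4 * n * q := by nlinarith
  have h6 : (4 : ℝ) * n * q ≤ 4 * n * (8 * lam * √(q : ℝ)) := mul_le_mul_of_nonneg_left h4 (by linarith)
  have h7 : (4 : ℝ) * lam * n ≤ 4 * lam * n * √(q : ℝ) := le_mul_of_one_le_right (by positivity) hs1
  have h8 : 2 * lam * (2 * (s : ℝ) - q) ≤ 2 * lam * (18 * n * √(q : ℝ)) := by nlinarith
  exact le_of_mul_le_mul_left h8 (by linarith)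

theorem stepanov (n : ℕ) (hn : Odd n) : ∃ C : ℝ, 0 < C ∧ ∀ (F : Type) [Field F] [Fintype F]
    [DecidableEq F], ringChar F ≠ 2 → ∀ f : F[X], f.natDegree = n →
      |((∑ x, quadraticChar F (f.eval x) : ℤ) : ℝ)| ≤ C * √(Fintype.card F : ℝ) := by
  refine ⟨18 * n + (4 * n + 100), by positivity, ?_⟩
  intro F _ _ _ hF f hf
  subst hf
  have hq0 : (0 : ℝ) ≤ √(Fintype.card F : ℝ) := Real.sqrt_nonneg _
  have hsq : √(Fintype.card F : ℝ) * √(Fintype.card F : ℝ) = Fintype.card F :=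
    Real.mul_self_sqrt (Nat.cast_nonneg _)
  by_cases hq : 4 * f.natDegree + 100 ≤ Fintype.card F
  · have hodd : Fintype.card F % 2 = 1 := FiniteField.odd_card_of_char_ne_two hF
    have he : Fintype.card F / 2 = (Fintype.card F - 1) / 2 := by omega
    have p1 := stp_card hF f hn hq 1
    have p2 := stp_card hF f hn hq (-1)
    have key : ∀ (a : F) (g : F → ℤ), (∀ x, g x ≤ 1) → (∀ x, ¬ (f.eval x = 0 ∨
        (f.eval x) ^ ((Fintype.card F - 1) / 2) = a) → g x ≤ -1) →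
        ((∑ x, g x : ℤ) : ℝ) ≤ 2 * ((univ.filter (fun x : F => f.eval x = 0 ∨
      (f.eval x) ^ ((Fintype.card F - 1) / 2) = a)).card : ℝ) - Fintype.card F := by
      intro a g hg1 hg2
      have h1 : ∑ x, g x ≤ ∑ x : F, ((if (f.eval x = 0 ∨
          (f.eval x) ^ ((Fintype.card F - 1) / 2) = a) then 2 else 0) - 1 : ℤ) := by
        apply Finset.sum_le_sum
        intro x _
        split_ifs with h
        · linarith [hg1 x]
        · linarith [hg2 x h]
      rw [Finset.sum_sub_distrib, ← Finset.sum_filter] at h1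
      simp only [Finset.sum_const, mul_one, nsmul_eq_mul, Finset.card_univ] at h1
      have h2 : ((∑ x, g x : ℤ) : ℝ) ≤ (((univ.filter (fun x : F => f.eval x = 0 ∨
        (f.eval x) ^ ((Fintype.card F - 1) / 2) = a)).card * 2 - Fintype.card F : ℤ) : ℝ) := by
        exact_mod_cast h1
      push_cast at h2 ⊢
      linarith
    have hle : ∀ y : F, quadraticChar F y ≤ 1 ∧ -1 ≤ quadraticChar F y := by
      intro y
      rcases quadraticChar_isQuadratic F y with h | h | h <;> rw [h] <;> norm_num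
    have k1 := key 1 (fun x => quadraticChar F (f.eval x)) (fun x => (hle _).1) (by
      intro x hx
      push Not at hx
      have := quadraticChar_eq_pow_of_char_ne_two hF hx.1
      rw [he, if_neg hx.2] at this
      exact this.le)
    have k2 := key (-1) (fun x => -quadraticChar F (f.eval x)) (fun x => by linarith [(hle (f.eval x)).2]) (by
      intro x hx
      push Not at hx
      have h1 := quadraticChar_eq_pow_of_char_ne_two hF hx.1
      have h2 := FiniteField.pow_dichotomy hF hx.1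
      rw [he] at h1 h2
      rcases h2 with h2 | h2
      · rw [if_pos h2] at h1
        rw [h1]
      · exact absurd h2 hx.2)
    rw [Finset.sum_neg_distrib] at k2
    push_cast at k2
    rw [abs_le]
    have hn0 : (0 : ℝ) ≤ f.natDegree := Nat.cast_nonneg _
    have hC : 18 * (f.natDegree : ℝ) * √(Fintype.card F : ℝ) ≤
        (18 * f.natDegree + (4 * f.natDegree + 100)) * √(Fintype.card F : ℝ) :=
      mul_le_mul_of_nonneg_right (by linarith) hq0
    constructor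
    · push_cast
      linarith
    · linarith
  · have h1 : |((∑ x, quadraticChar F (f.eval x) : ℤ) : ℝ)| ≤ Fintype.card F := by
      push_cast
      refine (Finset.abs_sum_le_sum_abs _ _).trans ?_
      refine (Finset.sum_le_sum (g := fun _ => (1 : ℝ)) (fun x _ => ?_)).trans ?_
      · rcases quadraticChar_isQuadratic F (f.eval x) with h | h | h <;> rw [h] <;> norm_num
      · simp
    refine h1.trans ?_
    refine hsq.symm.le.trans (mul_le_mul_of_nonneg_right ?_ hq0)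
    have h2 : √(Fintype.card F : ℝ) ≤ Fintype.card F := by
      rw [Real.sqrt_le_left (Nat.cast_nonneg _)]
      have : (1 : ℝ) ≤ Fintype.card F := by exact_mod_cast Fintype.card_pos
      nlinarith
    have h3 : (Fintype.card F : ℝ) ≤ 4 * f.natDegree + 100 := by exact_mod_cast (by omega : Fintype.card F ≤ 4 * f.natDegree + 100)
    have hn0 : (0 : ℝ) ≤ f.natDegree := Nat.cast_nonneg _
    linarith

end Pool.Agent.H99.RM
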