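import Mathlib

/-!
# Project MP_17d720_RM, module Nid: Newton's identities

Auxiliary lemmas: prefix nid_. Proofs.

`nid_prod`: let `B_k` be the coefficient of `X^k` in `Q = ∏ (1 - α_i X)`. Newton's identities:
`k B_k = - ∑_{m=1}^k (∑_i α_i^m) B_{k-m}`. (From Mathlib: `B_k = (-1)^k esymm_k(α)`
(`Finset.prod_X_add_C...`, `Multiset.prod_X_add_C_coeff`, or expand `∏ (1 - α_i X)` by
`Finset.prod_one_sub...`) and `MvPolynomial.mul_esymm_eq_sum`; or directly: in `R⟦X⟧`,
`X Q' = - ∑_i α_i X ∏_{j ≠ i} (1 - α_j X)` and `∏_{j≠i} (1 - α_j X) = Q ∑_m α_i^m X^m`.) Induction on the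
number of factors is also possible.

`nid_unique`: over a field in which `1, ..., K` are nonzero, the recursion and `A 0 = 1` determine
`A k` for `k ≤ K` (strong induction).

-/

namespace Pool.Agent.H99.RM

open Finset Polynomial

theorem nid_geo {R : Type} [CommRing R] (a : R) :
    (PowerSeries.mk fun m => a ^ (m + 1)) * (1 - PowerSeries.C a * PowerSeries.X) =
      PowerSeries.C a := by
  ext n
  rw [mul_sub, mul_one, map_sub, ← mul_assoc, mul_comm _ (PowerSeries.C a), mul_assoc,
    PowerSeries.coeff_C_mul, PowerSeries.coeff_mk]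
  cases n with
  | zero => simp
  | succ n =>
    rw [PowerSeries.coeff_succ_mul_X, PowerSeries.coeff_mk, PowerSeries.coeff_C]
    simp [pow_succ, mul_comm]

theorem nid_ps {R : Type} [CommRing R] {ι : Type} (s : Finset ι) (α : ι → R) :
    PowerSeries.derivative R (∏ i ∈ s, (1 - PowerSeries.C (α i) * PowerSeries.X)) =
      -((PowerSeries.mk fun m => ∑ i ∈ s, α i ^ (m + 1)) *
        ∏ i ∈ s, (1 - PowerSeries.C (α i) * PowerSeries.X)) := by
  classical
  induction s using Finset.induction_on with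
  | empty =>
    have h : (PowerSeries.mk fun m : ℕ => ∑ i ∈ (∅ : Finset ι), α i ^ (m + 1)) = 0 := by
      ext n
      simp
    rw [h]
    simp
  | insert a s ha ih =>
    have h : (PowerSeries.mk fun m : ℕ => ∑ i ∈ insert a s, α i ^ (m + 1)) =
        (PowerSeries.mk fun m => α a ^ (m + 1)) + PowerSeries.mk fun m => ∑ i ∈ s, α i ^ (m + 1) := by
      ext n
      rw [map_add, PowerSeries.coeff_mk, PowerSeries.coeff_mk, PowerSeries.coeff_mk,
        Finset.sum_insert ha]
    have h1 := nid_geo (α a)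
    have h2 : PowerSeries.derivative R (1 - PowerSeries.C (α a) * PowerSeries.X) =
        -PowerSeries.C (α a) := by
      ext n
      rw [PowerSeries.coeff_derivative]
      cases n with
      | zero => simp [PowerSeries.coeff_C]
      | succ n => simp [PowerSeries.coeff_C, PowerSeries.coeff_X, PowerSeries.coeff_one]
    rw [Finset.prod_insert ha, h, Derivation.leibniz, ih, h2, smul_eq_mul, smul_eq_mul]
    linear_combination (∏ i ∈ s, (1 - PowerSeries.C (α i) * PowerSeries.X)) * h1

theorem nid_prod {R : Type} [CommRing R] {t : ℕ} (α : Fin t → R) (k : ℕ) :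
    (k : R) * (∏ i, (1 - C (α i) * X) : R[X]).coeff k =
      -∑ m ∈ Icc 1 k, (∑ i, α i ^ m) * (∏ i, (1 - C (α i) * X) : R[X]).coeff (k - m) := by
  have hc : ((∏ i, (1 - C (α i) * X) : R[X]) : PowerSeries R) =
      ∏ i, (1 - PowerSeries.C (α i) * PowerSeries.X) := by
    rw [← Polynomial.coeToPowerSeries.ringHom_apply, map_prod]
    refine Finset.prod_congr rfl fun i _ => ?_
    simp
  cases k with
  | zero => simp
  | succ k =>
    have h := congrArg (PowerSeries.coeff k) (nid_ps univ α)
    rw [PowerSeries.coeff_derivative, map_neg, PowerSeries.coeff_mul, ← hc] at h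
    simp only [Polynomial.coeff_coe, PowerSeries.coeff_mk] at h
    have h2 : ∑ m ∈ Icc 1 (k + 1), (∑ i, α i ^ m) *
        (∏ i, (1 - C (α i) * X) : R[X]).coeff (k + 1 - m) =
        ∑ p ∈ antidiagonal k, (∑ i, α i ^ (p.1 + 1)) *
          (∏ i, (1 - C (α i) * X) : R[X]).coeff p.2 := by
      rw [Finset.Nat.sum_antidiagonal_eq_sum_range_succ_mk]
      rw [← Finset.Ico_succ_right_eq_Icc, Finset.sum_Ico_eq_sum_range]
      refine Finset.sum_congr (by simp) fun i _ => ?_
      rw [add_comm 1 i, Nat.add_sub_add_right]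
    rw [h2, ← h]
    push_cast
    ring

theorem nid_unique {R : Type} [Field R] (s A B : ℕ → R) (K : ℕ)
    (hK : ∀ k, 1 ≤ k → k ≤ K → (k : R) ≠ 0) (hA0 : A 0 = 1) (hB0 : B 0 = 1)
    (hA : ∀ k, 1 ≤ k → k ≤ K → (k : R) * A k = -∑ m ∈ Icc 1 k, s m * A (k - m))
    (hB : ∀ k, 1 ≤ k → k ≤ K → (k : R) * B k = -∑ m ∈ Icc 1 k, s m * B (k - m)) :
    ∀ k ≤ K, A k = B k := by
  intro k
  induction k using Nat.strong_induction_on with
  | _ k ih =>
    intro hk
    rcases Nat.eq_zero_or_pos k with rfl | h0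
    · rw [hA0, hB0]
    · apply mul_left_cancel₀ (hK k h0 hk)
      rw [hA k h0 hk, hB k h0 hk]
      congr 1
      refine Finset.sum_congr rfl fun m hm => ?_
      rw [Finset.mem_Icc] at hm
      rw [ih (k - m) (by omega) (by omega)]

end Pool.Agent.H99.RM
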