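import Pool.Agent.H99.RM.Mon

/-!
# Project MP_17d720_RM, module Cnt: counting the elements whose characteristic polynomial divides h

Auxiliary lemmas: prefix cnt_. For `x` in the field `F_m = GaloisField p m` write
`cp x = (minpoly x) ^ (m / natDegree (minpoly x))`, a monic polynomial of degree `m` over `ZMod p`.
Claim: for a monic `h` of degree `k`: `∑_{m=1}^k #{x ∈ F_m : cp x ∣ h} = k`.

Proof. For a monic irreducible `P` over `ZMod p` of degree `d` and `m ≥ 1`, the number of `x ∈ F_m`
with `minpoly x = P` is `d` if `d ∣ m` and `0` otherwise: if `x` has minimal polynomial `P` then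
`d ∣ m` (`minpoly.natDegree_dvd...`, `finrank` of the intermediate field divides `finrank`,
`GaloisField.finrank`); conversely if `d ∣ m` then `P ∣ X^(p^m) - X`
(`Irreducible.natDegree_dvd...`, `FiniteField.Irreducible...dvd`: the field `AdjoinRoot P` has
`p^d` elements, so its root satisfies `x^(p^d) = x`, hence `x^(p^m) = x`), and `X^(p^m) - X` splits into
distinct linear factors over `F_m` (`FiniteField.X_pow_card_sub_X...`, `FiniteField.roots_X_pow_card_sub_X`),
so `P` has exactly `d` roots in `F_m`. Hence
`∑_m #{x ∈ F_m : cp x ∣ h} = ∑_P ∑_{m : d ∣ m, P^(m/d) ∣ h} d = ∑_P deg P * (multiplicity of P in h)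
= deg h`, the last because `h` is the product of its `normalizedFactors`
(`natDegree` of a product of monic polynomials, group equal factors by `Multiset.toFinset`,
`Multiset.count`, `UniqueFactorizationMonoid.le_emultiplicity_iff_replicate_le_normalizedFactors`);
the exponents `i` with `P^i ∣ h` are `1, ..., mult`, and `i * deg P ≤ k`.
-/

namespace Pool.Agent.H99.RM

open Polynomial Finset

theorem cnt_fiber (p : ℕ) [Fact p.Prime] {P : (ZMod p)[X]} (hP : Irreducible P) (hm : P.Monic)
    {m : ℕ} (hm0 : m ≠ 0) :
    Nat.card {x : GaloisField p m // minpoly (ZMod p) x = P} =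
      if P.natDegree ∣ m then P.natDegree else 0 := by
  have : Fact (Irreducible P) := ⟨hP⟩
  have hfr : Module.finrank (ZMod p) (AdjoinRoot P) = P.natDegree :=
    finrank_quotient_span_eq_natDegree (f := P)
  have hfg : Module.finrank (ZMod p) (GaloisField p m) = m := GaloisField.finrank p hm0
  have e1 : {x : GaloisField p m // minpoly (ZMod p) x = P} ≃
      {x : GaloisField p m // x ∈ P.aroots (GaloisField p m)} := by
    refine Equiv.subtypeEquivRight fun x => ?_
    rw [mem_aroots]
    constructor
    · intro h
      refine ⟨hP.ne_zero, ?_⟩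
      rw [← h]; exact minpoly.aeval _ _
    · rintro ⟨-, h⟩
      exact (minpoly.eq_of_irreducible_of_monic hP h hm).symm
  rw [Nat.card_congr (e1.trans (AdjoinRoot.equiv (GaloisField p m) (ZMod p) P hP.ne_zero).symm)]
  split_ifs with hd
  · rw [FiniteField.natCard_algHom_of_finrank_dvd (by rw [hfr, hfg]; exact hd), hfr]
  · have : IsEmpty (AdjoinRoot P →ₐ[ZMod p] GaloisField p m) := by
      by_contra hne
      rw [not_isEmpty_iff] at hne
      have := FiniteField.nonempty_algHom_iff_finrank_dvd.1 hne
      rw [hfr, hfg] at this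
      exact hd this
    simp

theorem cnt_dvd_deg (p : ℕ) [Fact p.Prime] {m : ℕ} (hm0 : m ≠ 0) (x : GaloisField p m) :
    (minpoly (ZMod p) x).natDegree ∣ m := by
  have h := cnt_fiber p (minpoly.irreducible (Algebra.IsIntegral.isIntegral (R := ZMod p) x))
    (minpoly.monic (Algebra.IsIntegral.isIntegral (R := ZMod p) x)) hm0
  by_contra hd
  rw [if_neg hd] at h
  have hfin : Finite (GaloisField p m) := inferInstance
  rw [Nat.card_eq_zero] at h
  rcases h with h | h
  · exact h.elim ⟨x, rfl⟩
  · exact h.not_finite inferInstance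

open Classical in
theorem cnt_one (p : ℕ) [Fact p.Prime] {h : (ZMod p)[X]} (hm : h.Monic) {m : ℕ} (hm0 : m ≠ 0) :
    Nat.card {x : GaloisField p m //
        (minpoly (ZMod p) x) ^ (m / (minpoly (ZMod p) x).natDegree) ∣ h} =
      ∑ P ∈ (UniqueFactorizationMonoid.normalizedFactors h).toFinset,
        if P.natDegree ∣ m ∧ P ^ (m / P.natDegree) ∣ h then P.natDegree else 0 := by
  haveI : Fintype (GaloisField p m) := Fintype.ofFinite _
  rw [Nat.card_eq_fintype_card, Fintype.card_subtype]
  rw [Finset.card_eq_sum_card_fiberwise (f := fun x : GaloisField p m => minpoly (ZMod p) x)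
    (t := (UniqueFactorizationMonoid.normalizedFactors h).toFinset)]
  · refine Finset.sum_congr rfl fun P hP => ?_
    rw [Multiset.mem_toFinset] at hP
    have hPi : Irreducible P := UniqueFactorizationMonoid.irreducible_of_normalized_factor P hP
    have hPm : P.Monic := by
      have h1 := UniqueFactorizationMonoid.normalize_normalized_factor P hP
      rw [← h1]; exact monic_normalize hPi.ne_zero
    have hc := cnt_fiber p hPi hPm hm0
    rw [Nat.card_eq_fintype_card, Fintype.card_subtype] at hc
    by_cases hdv : P ^ (m / P.natDegree) ∣ h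
    · rw [show ((Finset.univ.filter fun x : GaloisField p m =>
          (minpoly (ZMod p) x) ^ (m / (minpoly (ZMod p) x).natDegree) ∣ h).filter
            fun x => minpoly (ZMod p) x = P) =
          Finset.univ.filter fun x : GaloisField p m => minpoly (ZMod p) x = P from ?_, hc]
      · simp [hdv]
      · ext x
        simp only [Finset.mem_filter, Finset.mem_univ, true_and]
        constructor
        · rintro ⟨-, h2⟩; exact h2
        · intro h2; exact ⟨by rw [h2]; exact hdv, h2⟩
    · rw [if_neg (fun hh => hdv hh.2), Finset.card_eq_zero, Finset.filter_eq_empty_iff]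
      intro x hx h2
      simp only [Finset.mem_filter, Finset.mem_univ, true_and] at hx
      rw [h2] at hx
      exact hdv hx
  · intro x hx
    simp only [Finset.coe_filter, Finset.mem_univ, true_and, Set.mem_setOf_eq] at hx
    simp only [Multiset.mem_toFinset, Finset.mem_coe]
    have hint := Algebra.IsIntegral.isIntegral (R := ZMod p) x
    have hdd := cnt_dvd_deg p hm0 x
    have hdpos : 0 < (minpoly (ZMod p) x).natDegree := minpoly.natDegree_pos hint
    have h1 : m / (minpoly (ZMod p) x).natDegree ≠ 0 := by
      rw [Nat.div_ne_zero_iff]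
      exact ⟨hdpos.ne', Nat.le_of_dvd (Nat.pos_of_ne_zero hm0) hdd⟩
    have h2 : minpoly (ZMod p) x ∣ h := (dvd_pow_self _ h1).trans hx
    exact (UniqueFactorizationMonoid.mem_normalizedFactors_iff' hm.ne_zero).2
      ⟨minpoly.irreducible hint, (minpoly.monic hint).normalize_eq_self, h2⟩

theorem cnt_main (p : ℕ) [Fact p.Prime] {h : (ZMod p)[X]} (hm : h.Monic) :
    ∑ m ∈ Icc 1 h.natDegree,
      Nat.card {x : GaloisField p m //
        (minpoly (ZMod p) x) ^ (m / (minpoly (ZMod p) x).natDegree) ∣ h} = h.natDegree := by
  classical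
  rw [Finset.sum_congr rfl fun m hm1 => cnt_one p hm (m := m) (by
    have := (Finset.mem_Icc.1 hm1).1; omega)]
  rw [Finset.sum_comm]
  have hprod : (UniqueFactorizationMonoid.normalizedFactors h).prod = h := by
    have h1 := UniqueFactorizationMonoid.prod_normalizedFactors_eq hm.ne_zero
    rw [h1, hm.normalize_eq_self]
  have hdeg : h.natDegree = ∑ P ∈ (UniqueFactorizationMonoid.normalizedFactors h).toFinset,
      (UniqueFactorizationMonoid.normalizedFactors h).count P * P.natDegree := by
    conv_lhs => rw [← hprod]
    rw [natDegree_multiset_prod _ (UniqueFactorizationMonoid.zero_notMem_normalizedFactors h),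
      Finset.sum_multiset_map_count]
    simp
  conv_rhs => rw [hdeg]
  refine Finset.sum_congr rfl fun P hP => ?_
  rw [Multiset.mem_toFinset] at hP
  have hPi : Irreducible P := UniqueFactorizationMonoid.irreducible_of_normalized_factor P hP
  have hPn : normalize P = P := UniqueFactorizationMonoid.normalize_normalized_factor P hP
  have hdpos : 0 < P.natDegree := hPi.natDegree_pos
  have hiff : ∀ i : ℕ, P ^ i ∣ h ↔
      i ≤ (UniqueFactorizationMonoid.normalizedFactors h).count P := by
    intro i
    rw [pow_dvd_iff_le_emultiplicity,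
      UniqueFactorizationMonoid.emultiplicity_eq_count_normalizedFactors hPi hm.ne_zero, hPn]
    exact Nat.cast_le
  rw [← Finset.sum_filter, Finset.sum_const, smul_eq_mul]
  congr 1
  rw [show (Icc 1 h.natDegree).filter (fun m => P.natDegree ∣ m ∧ P ^ (m / P.natDegree) ∣ h) =
    (Icc 1 ((UniqueFactorizationMonoid.normalizedFactors h).count P)).image
      (fun i => i * P.natDegree) from ?_]
  · rw [Finset.card_image_of_injective _ (fun a b hab => Nat.eq_of_mul_eq_mul_right hdpos hab)]
    simp
  · ext m
    simp only [Finset.mem_filter, Finset.mem_Icc, Finset.mem_image]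
    constructor
    · rintro ⟨⟨h1, h2⟩, ⟨i, rfl⟩, h4⟩
      rw [Nat.mul_div_cancel_left _ hdpos, hiff] at h4
      refine ⟨i, ⟨?_, h4⟩, mul_comm _ _⟩
      rcases Nat.eq_zero_or_pos i with hi | hi
      · subst hi; omega
      · exact hi
    · rintro ⟨i, ⟨h1, h2⟩, rfl⟩
      have h3 : P ^ i ∣ h := (hiff i).2 h2
      have h4 := natDegree_le_of_dvd h3 hm.ne_zero
      rw [natDegree_pow] at h4
      refine ⟨⟨Nat.mul_pos h1 hdpos, h4⟩, Dvd.intro_left _ rfl, ?_⟩
      rw [Nat.mul_div_cancel _ hdpos]; exact h3

end Pool.Agent.H99.RM
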