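import Pool.Agent.H99.RM.Chp
import Pool.Agent.H99.RM.Cnt

/-!
# Project MP_17d720_RM, module Nwt: Newton's identity for the sums over monic polynomials

Auxiliary lemmas: prefix nwt_. Proof. `K = ZMod p`, `p % 4 = 1`. For a polynomial `h` put
`G h = ∏ i, χ (h.eval (r i))`; `G (h h') = G h G h'`; `A_k = AS r univ ∅ k = ∑_{c} G (mon c)`. By
`chr_prod` (and `GaloisField.finrank`), `N_m = NG p m r = ∑_x G (cp x)`,
`cp x = (minpoly x) ^ (m / natDegree (minpoly x))`, monic of degree `m` (the degree of the minimal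
polynomial divides `m`). Then
`∑_{m=1}^k N_m A_{k-m} = ∑_m ∑_x ∑_{h' monic of degree k-m} G (cp x * h')
 = ∑_{h monic of degree k} G h * #{(m, x) : cp x ∣ h} = ∑_h G h * k = k A_k` by `cnt_main`:
for fixed `m`, `x`, the map `h' ↦ cp x * h'` is a bijection from the monic polynomials of degree
`k - m` onto the monic polynomials of degree `k` divisible by `cp x`
(`Monic.of_mul_monic_left`, `mon_eq`, `mon_monic`, `mon_natDegree`).
-/

namespace Pool.Agent.H99.RM

open Polynomial Finset

/-- Multiplication by a monic polynomial `q`. -/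
theorem nwt_mul {K : Type} [Field K] [Fintype K] {k m : ℕ} (hmk : m ≤ k) {q : K[X]}
    (hq : q.Monic) (hd : q.natDegree = m) (G : K[X] → ℤ) :
    ∑ c' : Fin (k - m) → K, G (q * mon c') =
      ∑ c : Fin k → K, open Classical in if q ∣ mon c then G (mon c) else 0 := by
  classical
  have hdeg : ∀ c' : Fin (k - m) → K, (q * mon c').Monic ∧ (q * mon c').natDegree = k := by
    intro c'
    refine ⟨hq.mul (mon_monic c'), ?_⟩
    rw [hq.natDegree_mul (mon_monic c'), hd, mon_natDegree]
    omega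
  rw [← Finset.sum_filter]
  refine Finset.sum_bij (fun c' _ => fun i : Fin k => (q * mon c').coeff i) ?_ ?_ ?_ ?_
  · intro c' _
    rw [Finset.mem_filter]
    refine ⟨Finset.mem_univ _, ?_⟩
    rw [mon_eq (hdeg c').1 (hdeg c').2]
    exact dvd_mul_right _ _
  · intro c₁ _ c₂ _ h
    have h1 : q * mon c₁ = q * mon c₂ := by
      rw [← mon_eq (hdeg c₁).1 (hdeg c₁).2, ← mon_eq (hdeg c₂).1 (hdeg c₂).2]
      exact congrArg mon h
    have h2 := mul_left_cancel₀ hq.ne_zero h1
    funext i
    rw [← mon_coeff c₁ i, h2, mon_coeff]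
  · intro c hc
    rw [Finset.mem_filter] at hc
    obtain ⟨h', hh'⟩ := hc.2
    have h1 : h'.Monic := by
      have h2 := mon_monic c
      rw [hh'] at h2
      exact hq.of_mul_monic_left h2
    have h2 : h'.natDegree = k - m := by
      have h3 := mon_natDegree c
      rw [hh', hq.natDegree_mul h1, hd] at h3
      omega
    refine ⟨fun i => h'.coeff i, Finset.mem_univ _, ?_⟩
    funext i
    rw [mon_eq h1 h2, ← hh', mon_coeff]
  · intro c' _
    rw [mon_eq (hdeg c').1 (hdeg c').2]

theorem nwt_NG (p : ℕ) [Fact p.Prime] (hp : p % 4 = 1) {n : ℕ} (r : Fin n → ZMod p) {m : ℕ}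
    (hm : m ≠ 0) [Fintype (GaloisField p m)] :
    NG p m r = ∑ x : GaloisField p m, ∏ i, quadraticChar (ZMod p)
      (((minpoly (ZMod p) x) ^ (m / (minpoly (ZMod p) x).natDegree)).eval (r i)) := by
  classical
  have hq : 4 ∣ Fintype.card (ZMod p) - 1 := by
    rw [ZMod.card]
    omega
  unfold NG NS
  have hsub : Fintype.ofFinite (GaloisField p m) = ‹Fintype (GaloisField p m)› :=
    Subsingleton.elim _ _
  rw [hsub]
  refine Finset.sum_congr rfl fun x _ => ?_
  have h1 := chr_prod (K := ZMod p) (F := GaloisField p m) hq r x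
  rw [GaloisField.finrank p hm] at h1
  rw [← h1]

theorem nwt_one (p : ℕ) [Fact p.Prime] (hp : p % 4 = 1) {n : ℕ} (r : Fin n → ZMod p) {k m : ℕ}
    (hm : m ≠ 0) (hmk : m ≤ k) :
    NG p m r * AS r univ ∅ (k - m) = ∑ c : Fin k → ZMod p,
      (∏ i, quadraticChar (ZMod p) ((mon c).eval (r i))) *
        (Nat.card {x : GaloisField p m //
          (minpoly (ZMod p) x) ^ (m / (minpoly (ZMod p) x).natDegree) ∣ mon c} : ℤ) := by
  classical
  haveI := Fintype.ofFinite (GaloisField p m)
  set G : (ZMod p)[X] → ℤ := fun h => ∏ i, quadraticChar (ZMod p) (h.eval (r i)) with hG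
  have hGm : ∀ h h' : (ZMod p)[X], G h * G h' = G (h * h') := by
    intro h h'
    rw [hG]
    simp only [Polynomial.eval_mul, map_mul, Finset.prod_mul_distrib]
  have hA : AS r univ ∅ (k - m) = ∑ c' : Fin (k - m) → ZMod p, G (mon c') := by
    unfold AS
    refine Finset.sum_congr rfl fun c' _ => ?_
    rw [Finset.prod_empty, mul_one]
  have hN : NG p m r = ∑ x : GaloisField p m,
      G ((minpoly (ZMod p) x) ^ (m / (minpoly (ZMod p) x).natDegree)) := nwt_NG p hp r hm
  have hcp : ∀ x : GaloisField p m,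
      ((minpoly (ZMod p) x) ^ (m / (minpoly (ZMod p) x).natDegree)).Monic ∧
      ((minpoly (ZMod p) x) ^ (m / (minpoly (ZMod p) x).natDegree)).natDegree = m := by
    intro x
    have hx : IsIntegral (ZMod p) x := Algebra.IsIntegral.isIntegral x
    refine ⟨(minpoly.monic hx).pow _, ?_⟩
    rw [(minpoly.monic hx).natDegree_pow]
    have h1 := minpoly.degree_dvd hx
    rw [GaloisField.finrank p hm] at h1
    exact Nat.div_mul_cancel h1
  rw [hA, hN, Finset.sum_mul_sum]
  have h1 : ∀ x : GaloisField p m, ∑ c' : Fin (k - m) → ZMod p,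
      G ((minpoly (ZMod p) x) ^ (m / (minpoly (ZMod p) x).natDegree)) * G (mon c') =
      ∑ c : Fin k → ZMod p,
        if (minpoly (ZMod p) x) ^ (m / (minpoly (ZMod p) x).natDegree) ∣ mon c
        then G (mon c) else 0 := by
    intro x
    simp only [hGm]
    rw [nwt_mul hmk (hcp x).1 (hcp x).2 G]
  rw [Finset.sum_congr rfl fun x _ => h1 x, Finset.sum_comm]
  refine Finset.sum_congr rfl fun c _ => ?_
  rw [Nat.card_eq_fintype_card, Fintype.card_subtype, Finset.card_filter, Nat.cast_sum,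
    Finset.mul_sum]
  refine Finset.sum_congr rfl fun x _ => ?_
  split_ifs
  · rw [Nat.cast_one, mul_one]
  · rw [Nat.cast_zero, mul_zero]

theorem newton (p : ℕ) [Fact p.Prime] (hp : p % 4 = 1) {n : ℕ} (r : Fin n → ZMod p) (k : ℕ) :
    (k : ℤ) * AS r univ ∅ k =
      ∑ m ∈ Icc 1 k, NG p m r * AS r univ ∅ (k - m) := by
  have h1 : ∀ m ∈ Icc 1 k, NG p m r * AS r univ ∅ (k - m) = ∑ c : Fin k → ZMod p,
      (∏ i, quadraticChar (ZMod p) ((mon c).eval (r i))) *
        (Nat.card {x : GaloisField p m //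
          (minpoly (ZMod p) x) ^ (m / (minpoly (ZMod p) x).natDegree) ∣ mon c} : ℤ) := by
    intro m hm
    rw [Finset.mem_Icc] at hm
    exact nwt_one p hp r (by omega) hm.2
  rw [Finset.sum_congr rfl h1, Finset.sum_comm]
  unfold AS
  rw [Finset.mul_sum]
  refine Finset.sum_congr rfl fun c _ => ?_
  rw [Finset.prod_empty, mul_one, ← Finset.mul_sum, mul_comm]
  congr 1
  have h2 := cnt_main p (mon_monic c)
  rw [mon_natDegree] at h2
  exact_mod_cast h2.symm

end Pool.Agent.H99.RM
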