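import Pool.Agent.H99.RM.Mon

/-!
# Project MP_17d720_RM, module Rec: the recursion of the sums over monic polynomials

Auxiliary lemmas: prefix rec_. Proofs.

`AS_at_zero`: `Fin 0 → K` has one element and `mon c = 1`.

`AS_empty`: all products are empty, `#(Fin k → K) = (#K)^k`.

`AS_insert`: for every `c`, `χ(h(r j))^2 = 1 - [h(r j) = 0]` (`quadraticChar_sq_one'`,
`quadraticChar_eq_zero_iff`), so
`AS r S (insert j B) (k+1) = AS r S B (k+1) - ∑_c [h (r j) = 0] (...)`. By `mon_sum_root` the last sum
is the sum over the monic `h'` of degree `k` of the same product for `(X - C (r j)) * h'`, whose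
value at `r i` is `(r i - r j) * h'(r i)`; `χ` is multiplicative and `χ (r i - r j) ^ 2 = 1` for
`i ∈ B` (as `i ≠ j` and `r` is injective).
-/

namespace Pool.Agent.H99.RM

open Polynomial Finset

variable {K : Type} [Field K] [Fintype K] [DecidableEq K] {ι : Type} [DecidableEq ι]

theorem AS_at_zero (r : ι → K) (S B : Finset ι) : AS r S B 0 = 1 := by
  unfold AS
  rw [Fintype.sum_unique]
  have h : ∀ x : K, (mon (default : Fin 0 → K)).eval x = 1 := by
    intro x
    unfold mon
    simp
  simp only [h, map_one, one_pow, prod_const_one, mul_one]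

theorem AS_empty (r : ι → K) (k : ℕ) : AS r ∅ ∅ k = (Fintype.card K : ℤ) ^ k := by
  unfold AS
  simp

theorem AS_insert (r : ι → K) (hr : Function.Injective r) {S B : Finset ι} {j : ι}
    (hjS : j ∉ S) (hjB : j ∉ B) (k : ℕ) :
    AS r S (insert j B) (k + 1) =
      AS r S B (k + 1) - (∏ i ∈ S, quadraticChar K (r i - r j)) * AS r S B k := by
  have hsq : ∀ x : K, (quadraticChar K x) ^ 2 = 1 - (if x = 0 then 1 else 0) := by
    intro x
    split_ifs with h
    · rw [h]
      simp
    · rw [quadraticChar_sq_one h, sub_zero]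
  have hroot := mon_sum_root (k := k) (r j) (fun h : K[X] =>
    (∏ i ∈ S, quadraticChar K (h.eval (r i))) * ∏ i ∈ B, (quadraticChar K (h.eval (r i))) ^ 2)
  have e1 : AS r S (insert j B) (k + 1) = AS r S B (k + 1) -
      ∑ c : Fin (k + 1) → K, (if (mon c).eval (r j) = 0 then
        (∏ i ∈ S, quadraticChar K ((mon c).eval (r i))) *
          ∏ i ∈ B, (quadraticChar K ((mon c).eval (r i))) ^ 2 else 0) := by
    unfold AS
    rw [← sum_sub_distrib]
    refine sum_congr rfl fun c _ => ?_
    rw [prod_insert hjB, hsq]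
    split_ifs <;> ring
  rw [e1, hroot]
  congr 1
  unfold AS
  rw [mul_sum]
  refine sum_congr rfl fun c _ => ?_
  have e2 : ∀ i, ((X - C (r j)) * mon c).eval (r i) = (r i - r j) * (mon c).eval (r i) := by
    intro i
    rw [eval_mul, eval_sub, eval_X, eval_C]
  have e3 : ∏ i ∈ B, (quadraticChar K (((X - C (r j)) * mon c).eval (r i))) ^ 2 =
      ∏ i ∈ B, (quadraticChar K ((mon c).eval (r i))) ^ 2 := by
    refine prod_congr rfl fun i hi => ?_
    have hne : r i - r j ≠ 0 := by
      rw [sub_ne_zero]
      intro h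
      apply hjB
      rw [← hr h]
      exact hi
    rw [e2, map_mul, mul_pow, quadraticChar_sq_one hne, one_mul]
  rw [e3]
  simp only [e2, map_mul]
  rw [prod_mul_distrib]
  ring

end Pool.Agent.H99.RM
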