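import Mathlib

/-!
# Project MP_17d720_RM, module Pwr: power sums bound the summands

Auxiliary lemmas: prefix pwr_. Proof. Let `β_1, ..., β_t` be the distinct values of the `α i`, with
multiplicities `c_j ≥ 1` (`∑_i α_i^m = ∑_j c_j β_j^m`, `Finset.sum_fiberwise`/
`Finset.sum_comp`). For each `j` there is, by the invertibility of the Vandermonde matrix or by
Lagrange interpolation, a polynomial `L_j = ∑_{s<t} l_s X^s` with `L_j(β_j) = 1` and `L_j(β_i) = 0` for
`i ≠ j` (`Lagrange.basis`). Then for `m ≥ 1`, `c_j β_j^m = ∑_i c_i β_i^m L_j(β_i) =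
∑_s l_s (∑_i α_i^(m+s))`, so `‖β_j‖^m ≤ ∑_s ‖l_s‖ C ρ^(m+s) = C' ρ^m` for all `m ≥ 1`. If `‖β_j‖ > ρ` then
`(‖β_j‖/ρ)^m` is unbounded, a contradiction (`tendsto_pow_atTop_atTop_of_one_lt`).
-/

namespace Pool.Agent.H99.RM

open Finset

theorem pwr_bd (x ρ C : ℝ) (_hx : 0 ≤ x) (hρ : 0 < ρ)
    (h : ∀ m : ℕ, 1 ≤ m → x ^ m ≤ C * ρ ^ m) : x ≤ ρ := by
  by_contra hlt
  push Not at hlt
  have h1 : 1 < x / ρ := (one_lt_div hρ).2 hlt
  have h2 := tendsto_pow_atTop_atTop_of_one_lt h1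
  obtain ⟨m, hm1, hm2⟩ := ((h2.eventually_gt_atTop C).and (Filter.eventually_ge_atTop 1)).exists
  have h3 := h m hm2
  rw [div_pow, lt_div_iff₀ (pow_pos hρ m)] at hm1
  linarith

theorem pwr_main {t : ℕ} (α : Fin t → ℂ) (C ρ : ℝ) (hρ : 0 < ρ)
    (h : ∀ m : ℕ, 1 ≤ m → ‖∑ i, α i ^ m‖ ≤ C * ρ ^ m) (i : Fin t) : ‖α i‖ ≤ ρ := by
  classical
  set s : Finset ℂ := univ.image α with hs
  set L : Polynomial ℂ := Lagrange.basis s id (α i) with hL
  have his : α i ∈ s := by rw [hs]; exact Finset.mem_image_of_mem _ (Finset.mem_univ i)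
  have hev : ∀ j, L.eval (α j) = if α j = α i then 1 else 0 := by
    intro j
    have hjs : α j ∈ s := by rw [hs]; exact Finset.mem_image_of_mem _ (Finset.mem_univ j)
    by_cases hj : α j = α i
    · rw [if_pos hj, hj]
      exact Lagrange.eval_basis_self (v := id) (Set.injOn_id _) his
    · rw [if_neg hj]
      exact Lagrange.eval_basis_of_ne (v := id) (Ne.symm hj) hjs
  have key : ∀ m : ℕ, ((univ.filter (fun j => α j = α i)).card : ℂ) * α i ^ m =
      ∑ k ∈ range (L.natDegree + 1), L.coeff k * ∑ j, α j ^ (m + k) := by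
    intro m
    have e1 : ∑ j, α j ^ m * L.eval (α j) =
        ((univ.filter (fun j => α j = α i)).card : ℂ) * α i ^ m := by
      rw [Finset.card_eq_sum_ones, Nat.cast_sum, Finset.sum_mul, Finset.sum_filter]
      refine Finset.sum_congr rfl fun j _ => ?_
      rw [hev j]
      by_cases hj : α j = α i
      · rw [if_pos hj, if_pos hj, hj]; simp
      · rw [if_neg hj, if_neg hj, mul_zero]
    rw [← e1]
    simp_rw [Polynomial.eval_eq_sum_range, Finset.mul_sum]
    rw [Finset.sum_comm]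
    refine Finset.sum_congr rfl fun k _ => Finset.sum_congr rfl fun j _ => ?_
    rw [pow_add]; ring
  have hcard : 1 ≤ (univ.filter (fun j => α j = α i)).card := by
    rw [Nat.one_le_iff_ne_zero, Finset.card_ne_zero]
    exact ⟨i, by simp⟩
  refine pwr_bd ‖α i‖ ρ (∑ k ∈ range (L.natDegree + 1), ‖L.coeff k‖ * (C * ρ ^ k))
    (norm_nonneg _) hρ fun m hm => ?_
  have h1 : ‖α i‖ ^ m ≤ ‖((univ.filter (fun j => α j = α i)).card : ℂ) * α i ^ m‖ := by
    rw [norm_mul, norm_pow, Complex.norm_natCast]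
    have : (1 : ℝ) ≤ ((univ.filter (fun j => α j = α i)).card : ℝ) := by exact_mod_cast hcard
    nlinarith [pow_nonneg (norm_nonneg (α i)) m]
  refine h1.trans ?_
  rw [key m, Finset.sum_mul]
  refine (norm_sum_le _ _).trans (Finset.sum_le_sum fun k _ => ?_)
  rw [norm_mul]
  have h2 := h (m + k) (by omega)
  calc ‖L.coeff k‖ * ‖∑ j, α j ^ (m + k)‖ ≤ ‖L.coeff k‖ * (C * ρ ^ (m + k)) :=
        mul_le_mul_of_nonneg_left h2 (norm_nonneg _)
    _ = ‖L.coeff k‖ * (C * ρ ^ k) * ρ ^ m := by rw [pow_add]; ring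

end Pool.Agent.H99.RM
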