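import Pool.Agent.H99.RM.Defs

/-!
# Project MP_17d720_RM, module Mon: monic polynomials and their coefficient vectors

Auxiliary lemmas: prefix mon_. Elementary facts on `mon`. `mon_sum_lower`: the evaluation of
`mon c` for `c : Fin (m + j) → K` splits into a part of the upper coefficients and a polynomial of
degree less than `m`. For `mon_mul`: if `h` is monic of degree `k` then `(X - C a) * h` is monic of
degree `k + 1` and conversely a monic polynomial of degree `k + 1` with root `a` is `(X - C a) * h`
with `h` monic of degree `k` (`Polynomial.mul_divByMonic_eq_iff_isRoot`, `Monic.of_mul_monic_left`,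
`natDegree_mul`).
-/

namespace Pool.Agent.H99.RM

open Polynomial Finset

variable {K : Type} [Field K]

theorem mon_monic {k : ℕ} (c : Fin k → K) : (mon c).Monic :=
  monic_X_pow_add (degree_sum_fin_lt c)

theorem mon_natDegree {k : ℕ} (c : Fin k → K) : (mon c).natDegree = k := by
  have h : (mon c).degree = k := by
    unfold mon
    rw [degree_add_eq_left_of_degree_lt, degree_X_pow]
    rw [degree_X_pow]
    exact degree_sum_fin_lt c
  exact natDegree_eq_of_degree_eq_some h

theorem mon_coeff {k : ℕ} (c : Fin k → K) (i : Fin k) : (mon c).coeff i = c i := by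
  unfold mon
  rw [coeff_add, coeff_X_pow, if_neg (by have := i.2; omega), zero_add, finsetSum_coeff]
  rw [Finset.sum_eq_single i]
  · rw [coeff_C_mul, coeff_X_pow, if_pos rfl, mul_one]
  · intro j _ hj
    rw [coeff_C_mul, coeff_X_pow, if_neg, mul_zero]
    intro h
    exact hj (Fin.ext h.symm)
  · intro h
    exact absurd (Finset.mem_univ i) h

theorem mon_eq {k : ℕ} {h : K[X]} (hm : h.Monic) (hd : h.natDegree = k) :
    mon (fun i : Fin k => h.coeff i) = h := by
  ext n
  rcases lt_trichotomy n k with hn | hn | hn
  · exact mon_coeff (fun i : Fin k => h.coeff i) ⟨n, hn⟩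
  · subst hn
    have h1 : (mon (fun i : Fin n => h.coeff i)).coeff n = 1 := by
      have := mon_monic (fun i : Fin n => h.coeff i)
      rw [Monic, leadingCoeff, mon_natDegree] at this
      exact this
    have h2 : h.coeff n = 1 := by
      rw [Monic, leadingCoeff, hd] at hm
      exact hm
    rw [h1, h2]
  · rw [coeff_eq_zero_of_natDegree_lt (by rw [mon_natDegree]; exact hn),
      coeff_eq_zero_of_natDegree_lt (by rw [hd]; exact hn)]

theorem mon_inj {k : ℕ} {c d : Fin k → K} (h : mon c = mon d) : c = d := by
  funext i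
  rw [← mon_coeff c i, h, mon_coeff]

/-- Sums over monic polynomials: an injective and surjective reindexing. `P k` may be used as the
set of the monic polynomials of degree `k`. -/
theorem mon_sum_eq [Fintype K] {k : ℕ} {α : Type} [Fintype α] (e : α → K[X])
    (he : Function.Injective e) (hm : ∀ a, (e a).Monic ∧ (e a).natDegree = k)
    (hs : ∀ h : K[X], h.Monic → h.natDegree = k → ∃ a, e a = h) (G : K[X] → ℤ) :
    ∑ c : Fin k → K, G (mon c) = ∑ a : α, G (e a) := by
  symm
  refine Finset.sum_bij (fun a _ => fun i : Fin k => (e a).coeff i) (fun _ _ => Finset.mem_univ _)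
    ?_ ?_ ?_
  · intro a _ b _ hab
    have h1 := mon_eq (hm a).1 (hm a).2
    have h2 := mon_eq (hm b).1 (hm b).2
    apply he
    rw [← h1, ← h2]
    exact congrArg mon hab
  · intro c _
    obtain ⟨a, ha⟩ := hs (mon c) (mon_monic c) (mon_natDegree c)
    refine ⟨a, Finset.mem_univ _, ?_⟩
    funext i
    rw [ha, mon_coeff]
  · intro a _
    rw [mon_eq (hm a).1 (hm a).2]

theorem mon_root_monic {k : ℕ} (a : K) {h : K[X]} (hm : h.Monic) (hd : h.natDegree = k) :
    ((X - C a) * h).Monic ∧ ((X - C a) * h).natDegree = k + 1 := by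
  refine ⟨(monic_X_sub_C a).mul hm, ?_⟩
  rw [Monic.natDegree_mul (monic_X_sub_C a) hm, natDegree_X_sub_C, hd, add_comm]

/-- The monic polynomials of degree `k + 1` with root `a` are the `(X - C a) * h`. -/
theorem mon_sum_root [Fintype K] [DecidableEq K] {k : ℕ} (a : K) (G : K[X] → ℤ) :
    ∑ c : Fin (k + 1) → K, (if (mon c).eval a = 0 then G (mon c) else 0) =
      ∑ c : Fin k → K, G ((X - C a) * mon c) := by
  rw [← Finset.sum_filter]
  symm
  have key : ∀ c : Fin k → K,
      mon (fun i : Fin (k + 1) => ((X - C a) * mon c).coeff i) = (X - C a) * mon c := fun c =>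
    mon_eq (mon_root_monic a (mon_monic c) (mon_natDegree c)).1
      (mon_root_monic a (mon_monic c) (mon_natDegree c)).2
  refine Finset.sum_bij (fun c _ => fun i : Fin (k + 1) => ((X - C a) * mon c).coeff i) ?_ ?_ ?_ ?_
  · intro c _
    rw [Finset.mem_filter]
    refine ⟨Finset.mem_univ _, ?_⟩
    rw [key]
    simp
  · intro c _ d _ hcd
    have h1 : (X - C a) * mon c = (X - C a) * mon d := by
      rw [← key c, ← key d]
      exact congrArg mon hcd
    exact mon_inj (mul_left_cancel₀ (X_sub_C_ne_zero a) h1)
  · intro c hc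
    rw [Finset.mem_filter] at hc
    have h1 : (X - C a) * (mon c /ₘ (X - C a)) = mon c := mul_divByMonic_eq_iff_isRoot.2 hc.2
    have h2 : (mon c /ₘ (X - C a)).Monic := by
      refine Monic.of_mul_monic_left (monic_X_sub_C a) ?_
      rw [h1]
      exact mon_monic c
    have h3 : (mon c /ₘ (X - C a)).natDegree = k := by
      rw [natDegree_divByMonic _ (monic_X_sub_C a), mon_natDegree, natDegree_X_sub_C]
      rfl
    refine ⟨fun i => (mon c /ₘ (X - C a)).coeff i, Finset.mem_univ _, ?_⟩
    apply mon_inj
    rw [key, mon_eq h2 h3, h1]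
  · intro c _
    rw [key]

end Pool.Agent.H99.RM
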