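import Pool.Agent.H99.RM.Defs

/-!
# Project MP_17d720_RM, module Van: vanishing of the sums over monic polynomials of large degree

Auxiliary lemmas: prefix van_. Proof. Let `U = S ∪ B`, `m = #U = #S + #B ≤ k`. Write `c : Fin k → K`
as (lower part `u : Fin m → K`, upper part `w : Fin (k - m) → K`) (`Fin.appendEquiv` or
`Fin.append`; `Fin.consEquiv` etc., or an `Equiv.sum_comp` with
`(Fin m ⊕ Fin (k - m) → K) ≃ (Fin m → K) × (Fin (k - m) → K)`, `Equiv.sumArrowEquivProdArrow`,
`finSumFinEquiv`). For fixed `w` the map `u ↦ (i ↦ (mon c).eval (r i))`, from `Fin m → K` to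
`U → K`, is a bijection: it is `u ↦ V u + const`, `V` the Vandermonde map; it is injective since the
difference of two monic polynomials `mon c - mon c'` with the same upper part has degree `< m` and
would vanish at the `m` distinct points `r i`, `i ∈ U`
(`Polynomial.card_roots'` or `Polynomial.eq_of_degree_sub_lt_of_eval_finset_eq`), and both sides have
`(#K)^m` elements (`Function.Injective.bijective_of_nat_card_le` or
`Fintype.bijective_iff_injective_and_card`). So the sum over `u` is
`∑_{v : U → K} ∏_{i ∈ S} χ (v i) * ∏_{i ∈ B} χ (v i) ^ 2 = ∏_i (∑_{v ∈ K} φ_i v)`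
(`Finset.prod_univ_sum` / `Fintype.piFinset_univ`), and the factor of an `i ∈ S` is
`∑_v χ v = 0` (`quadraticChar_sum_zero`).
-/

namespace Pool.Agent.H99.RM

open Polynomial Finset

theorem van_eval {K : Type} [Field K] {k : ℕ} (c : Fin k → K) (x : K) :
    (mon c).eval x = x ^ k + ∑ i, c i * x ^ (i : ℕ) := by
  simp [mon, eval_finsetSum]

theorem van_shift {K : Type} [Field K] {k : ℕ} (c : Fin k → K) (t : K) (L : K[X])
    (hL : L.natDegree < k) (x : K) :
    (mon (fun i => c i + t * L.coeff i)).eval x = (mon c).eval x + t * L.eval x := by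
  rw [van_eval, van_eval, eval_eq_sum_range' hL x, mul_sum, ← Fin.sum_univ_eq_sum_range
    (fun i => t * (L.coeff i * x ^ i)) k, add_assoc, ← sum_add_distrib]
  congr 1
  refine sum_congr rfl fun i _ => ?_
  ring

theorem van_sum {K : Type} [Field K] [Fintype K] [DecidableEq K] (hK : ringChar K ≠ 2) (v : K) :
    ∑ t : K, quadraticChar K (v + t) = 0 := by
  rw [← quadraticChar_sum_zero hK]
  exact Equiv.sum_comp (Equiv.addLeft v) (fun a => quadraticChar K a)

theorem van_trans {K : Type} [Field K] [Fintype K] [DecidableEq K] {k : ℕ} (L : K[X]) (t : K)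
    (g : (Fin k → K) → ℤ) :
    ∑ c : Fin k → K, g (fun i => c i + t * L.coeff i) = ∑ c : Fin k → K, g c :=
  Equiv.sum_comp (Equiv.addRight fun i : Fin k => t * L.coeff i) g

theorem AS_zero {K : Type} [Field K] [Fintype K] [DecidableEq K] (hK : ringChar K ≠ 2)
    {ι : Type} [DecidableEq ι] (r : ι → K) (hr : Function.Injective r) {S B : Finset ι}
    (hS : S.Nonempty) (hd : Disjoint S B) {k : ℕ} (hk : S.card + B.card ≤ k) :
    AS r S B k = 0 := by
  obtain ⟨i₀, hi₀⟩ := hS
  have hU : i₀ ∈ S ∪ B := mem_union_left _ hi₀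
  have hinj : Set.InjOn r (S ∪ B : Finset ι) := hr.injOn
  have hcard : (S ∪ B).card ≤ k := by
    rw [card_union_of_disjoint hd]
    exact hk
  have hpos : 0 < (S ∪ B).card := card_pos.2 ⟨i₀, hU⟩
  have hdeg : (Lagrange.basis (S ∪ B) r i₀).natDegree < k := by
    rw [natDegree_eq_of_degree_eq_some (Lagrange.degree_basis hinj hU)]
    omega
  generalize hL : Lagrange.basis (S ∪ B) r i₀ = L at hdeg
  have hL1 : L.eval (r i₀) = 1 := by
    rw [← hL]
    exact Lagrange.eval_basis_self hinj hU
  have hL0 : ∀ j ∈ S ∪ B, j ≠ i₀ → L.eval (r j) = 0 := by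
    intro j hj hne
    rw [← hL]
    exact Lagrange.eval_basis_of_ne hne.symm hj
  have h1 : ∀ t : K, ∑ c : Fin k → K,
      (∏ i ∈ S, quadraticChar K ((mon fun i => c i + t * L.coeff i).eval (r i))) *
        ∏ i ∈ B, (quadraticChar K ((mon fun i => c i + t * L.coeff i).eval (r i))) ^ 2 =
      AS r S B k := by
    intro t
    exact van_trans L t (fun c => (∏ i ∈ S, quadraticChar K ((mon c).eval (r i))) *
        ∏ i ∈ B, (quadraticChar K ((mon c).eval (r i))) ^ 2)
  have h2 : ∀ c : Fin k → K, ∑ t : K,
      (∏ i ∈ S, quadraticChar K ((mon fun i => c i + t * L.coeff i).eval (r i))) *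
        ∏ i ∈ B, (quadraticChar K ((mon fun i => c i + t * L.coeff i).eval (r i))) ^ 2 = 0 := by
    intro c
    have h3 : ∀ t : K,
        (∏ i ∈ S, quadraticChar K ((mon fun i => c i + t * L.coeff i).eval (r i))) *
        ∏ i ∈ B, (quadraticChar K ((mon fun i => c i + t * L.coeff i).eval (r i))) ^ 2 =
        quadraticChar K ((mon c).eval (r i₀) + t) *
          ((∏ i ∈ S.erase i₀, quadraticChar K ((mon c).eval (r i))) *
            ∏ i ∈ B, (quadraticChar K ((mon c).eval (r i))) ^ 2) := by
      intro t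
      rw [← mul_prod_erase S _ hi₀, van_shift c t L hdeg, hL1, mul_one, mul_assoc]
      congr 1
      congr 1
      · refine prod_congr rfl fun i hi => ?_
        rw [mem_erase] at hi
        rw [van_shift c t L hdeg, hL0 i (mem_union_left _ hi.2) hi.1, mul_zero, add_zero]
      · refine prod_congr rfl fun i hi => ?_
        have hne : i ≠ i₀ := by
          rintro rfl
          exact (disjoint_left.1 hd) hi₀ hi
        rw [van_shift c t L hdeg, hL0 i (mem_union_right _ hi) hne, mul_zero, add_zero]
    simp only [h3]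
    rw [← sum_mul, van_sum hK, zero_mul]
  have h4 : ∑ _t : K, AS r S B k = 0 := by
    rw [← sum_congr rfl fun t _ => h1 t, sum_comm]
    exact sum_eq_zero fun c _ => h2 c
  rw [sum_const, card_univ, nsmul_eq_mul, mul_eq_zero] at h4
  rcases h4 with h4 | h4
  · exact absurd h4 (by
      rw [Nat.cast_eq_zero]
      exact Fintype.card_ne_zero)
  · exact h4

end Pool.Agent.H99.RM
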