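import Pool.Agent.H99.RM.Defs

/-!
# Project MP_17d720_RM, module Pat: integrality from counting patterns

Auxiliary lemmas: prefix pat_. Proof. For `h = mon c` put `x_i = χ (h (r i)) ∈ {-1, 0, 1}`. Then
`∑_{T ⊆ S} (∏_{i ∈ T} x_i) (∏_{i ∈ S \ T} x_i ^ 2) = ∏_{i ∈ S} (x_i + x_i ^ 2)` (`Finset.prod_add`),
and `x + x ^ 2 ∈ {0, 2}`; so the product is divisible by `2 ^ #S`. Sum over `c` and `k`
(`Finset.sum_comm`, `Finset.dvd_sum`).
-/

namespace Pool.Agent.H99.RM

open Polynomial Finset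

variable {K : Type} [Field K] [Fintype K] [DecidableEq K] {ι : Type} [DecidableEq ι]

theorem pat_two_dvd (x : K) : (2 : ℤ) ∣ quadraticChar K x + (quadraticChar K x) ^ 2 := by
  by_cases hx : x = 0
  · subst hx
    simp
  · rcases quadraticChar_dichotomy hx with h | h
    · rw [h]; norm_num
    · rw [h]; norm_num

theorem pat_AS (r : ι → K) (S : Finset ι) (k : ℕ) :
    (2 : ℤ) ^ S.card ∣ ∑ T ∈ S.powerset, AS r T (S \ T) k := by
  unfold AS
  rw [Finset.sum_comm]
  refine Finset.dvd_sum fun c _ => ?_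
  rw [← Finset.prod_add, ← Finset.prod_const]
  exact Finset.prod_dvd_prod_of_dvd _ _ fun i _ => pat_two_dvd _

theorem LS_pat (r : ι → K) (S : Finset ι) (m : ℕ) :
    (2 : ℤ) ^ S.card ∣ ∑ T ∈ S.powerset, LS r T (S \ T) m := by
  unfold LS
  rw [Finset.sum_comm]
  exact Finset.dvd_sum fun k _ => pat_AS r S k

theorem LT_pat (r : ι → K) (S : Finset ι) (m : ℕ) :
    (2 : ℤ) ^ S.card ∣ ∑ T ∈ S.powerset, LT r T (S \ T) m := by
  unfold LT
  rw [Finset.sum_comm]
  refine Finset.dvd_sum fun k _ => ?_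
  rw [← Finset.mul_sum]
  exact (pat_AS r S k).mul_left _

end Pool.Agent.H99.RM
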