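import Pool.Agent.H99.RM.Rec2
import Pool.Agent.H99.RM.Pat

/-!
# Project MP_17d720_RM, module Div: divisibility by powers of 2

Auxiliary lemmas: prefix div_. Let `q = #K`, `4 ∣ q - 1`. `L(S) = LS r S ∅ #S`,
`L'(S) = LT r S ∅ #S`, `χ_T(j) = ∏_{i ∈ T} χ (r i - r j) ∈ {1, -1}` for `j ∉ T` (`r` injective,
`quadraticChar_dichotomy`).

`LS_split`: for `S` nonempty, by `LS_prod` for `T ≠ ∅` (with `B = S \ T`, `#T + #(S \ T) = #S`) and
`LS_none` for `T = ∅`:
`∑_{T ⊆ S} LS r T (S \ T) #S = (q-1)^(#S - 1) + ∑_{∅ ≠ T ⊆ S} L(T) ∏_{j ∈ S \ T} (1 - χ_T(j))`, the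
term `T = S` being `L(S)`. `LT_split` the same.

`div_one`: strong induction on `#S`: `2^(#S - 1) ∣ L(S)`. In
`L(S) = (sum of LS_pat) - (q-1)^(#S-1) - ∑_{∅ ≠ T ⊊ S} L(T) ∏ (1 - χ_T(j))` every term on the right is
divisible by `2^(#S-1)`: the first by `2^#S`; `(q-1)^(#S-1)` by `4^(#S-1)`; `L(T)` by `2^(#T-1)` and the
product by `2^(#S - #T)` (each factor is `0` or `2`).

`div_neg`: multiply by `q+1 = 2 * odd`: `(q+1) L'(S) = (q+1) (sum of LT_pat) - 2^#S + (1-q)^#S
- (q+1) ∑_{∅ ≠ T ⊊ S} L'(T) ∏ (1 + χ_T(j))`, all terms divisible by `2^#S` (`q+1` is even and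
`2^(#T-1)`, `2^(#S-#T)` divide the factors), hence `2^#S ∣ 2 * odd * L'(S)`,
`2^(#S-1) ∣ L'(S)` (`IsCoprime.dvd_of_dvd_mul_left`).

`div_transfer`: `K'`, `r'` a second field with the same symbols. Strong induction on `#S`:
`2^#S ∣ L(S) - L_{K'}(S)` for `S ≠ ∅`. Subtract the two splittings: the pattern sums are divisible
by `2^#S`; for `#S = 1`: `L(S) = AS r S ∅ 0 = 1` in both fields (difference `0`); for `#S ≥ 2`
`(q-1)^(#S-1)` and `(q'-1)^(#S-1)` are divisible by `4^(#S-1)`, hence by `2^#S`; the products are equal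
in the two fields and divisible by `2^(#S-#T)`, and `L(T) - L_{K'}(T)` is divisible by `2^#T`.
-/

namespace Pool.Agent.H99.RM

open Polynomial Finset

variable {K : Type} [Field K] [Fintype K] [DecidableEq K] {ι : Type} [DecidableEq ι]

omit [DecidableEq K] in
theorem div_ringChar (hq : 4 ∣ Fintype.card K - 1) : ringChar K ≠ 2 := by
  intro h2
  have hc : CharP K 2 := by rw [← h2]; exact ringChar.charP K
  have he : Even (Fintype.card K) := by
    have : (Fintype.card K : K) = 0 := FiniteField.cast_card_eq_zero K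
    have h3 : 2 ∣ Fintype.card K := (CharP.cast_eq_zero_iff K 2 _).1 this
    exact even_iff_two_dvd.2 h3
  have h1 : 1 < Fintype.card K := Fintype.one_lt_card
  obtain ⟨a, ha⟩ := he
  obtain ⟨b, hb⟩ := hq
  omega

theorem div_chi (r : ι → K) (hr : Function.Injective r) (T : Finset ι) {j : ι} (hj : j ∉ T) :
    (∏ i ∈ T, quadraticChar K (r i - r j)) = 1 ∨ (∏ i ∈ T, quadraticChar K (r i - r j)) = -1 := by
  induction T using Finset.induction_on with
  | empty => left; simp
  | insert a s ha ih =>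
    have hja : j ≠ a := fun h => hj (h ▸ Finset.mem_insert_self _ _)
    have hjs : j ∉ s := fun h => hj (Finset.mem_insert_of_mem h)
    have h0 : r a - r j ≠ 0 := by
      intro h
      exact hja (hr (sub_eq_zero.1 h)).symm
    rw [Finset.prod_insert ha]
    rcases ih hjs with h1 | h1 <;> rcases quadraticChar_dichotomy h0 with h2 | h2 <;>
      rw [h1, h2] <;> simp

theorem div_fac (r : ι → K) (hr : Function.Injective r) {S T : Finset ι} (hT : T ⊆ S) :
    (2 : ℤ) ^ (S.card - T.card) ∣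
      ∏ j ∈ S \ T, (1 - ∏ i ∈ T, quadraticChar K (r i - r j)) := by
  have h1 : (2 : ℤ) ^ (S.card - T.card) = ∏ _j ∈ S \ T, (2 : ℤ) := by
    rw [Finset.prod_const, Finset.card_sdiff_of_subset hT]
  rw [h1]
  refine Finset.prod_dvd_prod_of_dvd _ _ fun j hj => ?_
  rcases div_chi r hr T (Finset.mem_sdiff.1 hj).2 with h | h <;> rw [h] <;> norm_num

theorem div_fac' (r : ι → K) (hr : Function.Injective r) {S T : Finset ι} (hT : T ⊆ S) :
    (2 : ℤ) ^ (S.card - T.card) ∣
      ∏ j ∈ S \ T, (1 + ∏ i ∈ T, quadraticChar K (r i - r j)) := by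
  have h1 : (2 : ℤ) ^ (S.card - T.card) = ∏ _j ∈ S \ T, (2 : ℤ) := by
    rw [Finset.prod_const, Finset.card_sdiff_of_subset hT]
  rw [h1]
  refine Finset.prod_dvd_prod_of_dvd _ _ fun j hj => ?_
  rcases div_chi r hr T (Finset.mem_sdiff.1 hj).2 with h | h <;> rw [h] <;> norm_num

/-- The proper nonempty subsets. -/
theorem div_mem {S T : Finset ι} (h : T ∈ (S.powerset.erase ∅).erase S) :
    T ⊆ S ∧ T.Nonempty ∧ T.card < S.card := by
  rw [Finset.mem_erase, Finset.mem_erase, Finset.mem_powerset] at h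
  refine ⟨h.2.2, Finset.nonempty_iff_ne_empty.2 h.2.1, ?_⟩
  exact Finset.card_lt_card (Finset.ssubset_iff_subset_ne.2 ⟨h.2.2, h.1⟩)

theorem div_sum_split {S : Finset ι} (hS : S.Nonempty) (f : Finset ι → ℤ) :
    ∑ T ∈ S.powerset, f T = f ∅ + (f S + ∑ T ∈ (S.powerset.erase ∅).erase S, f T) := by
  have h1 : (∅ : Finset ι) ∈ S.powerset := Finset.empty_mem_powerset S
  have h2 : S ∈ S.powerset.erase ∅ :=
    Finset.mem_erase.2 ⟨Finset.nonempty_iff_ne_empty.1 hS, Finset.mem_powerset_self S⟩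
  rw [← Finset.add_sum_erase _ f h1, ← Finset.add_sum_erase _ f h2]

theorem div_LS_split (hK : ringChar K ≠ 2) (r : ι → K) (hr : Function.Injective r)
    {S : Finset ι} (hS : S.Nonempty) :
    ∑ T ∈ S.powerset, LS r T (S \ T) S.card =
      ((Fintype.card K : ℤ) - 1) ^ (S.card - 1) + (LS r S ∅ S.card +
        ∑ T ∈ (S.powerset.erase ∅).erase S, LS r T ∅ T.card *
          ∏ j ∈ S \ T, (1 - ∏ i ∈ T, quadraticChar K (r i - r j))) := by
  rw [div_sum_split hS]
  congr 1
  · rw [Finset.sdiff_empty]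
    exact LS_none r hr hS
  · congr 1
    · rw [Finset.sdiff_self]
    · refine Finset.sum_congr rfl fun T hT => ?_
      obtain ⟨hTS, hTn, hTc⟩ := div_mem hT
      have h1 : S.card = T.card + (S \ T).card := by
        rw [Finset.card_sdiff_of_subset hTS]
        have := Finset.card_le_card hTS
        omega
      have h2 := LS_prod hK r hr hTn (B := S \ T) Finset.disjoint_sdiff
      rw [← h1] at h2
      exact h2

theorem div_LT_split (hK : ringChar K ≠ 2) (r : ι → K) (hr : Function.Injective r)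
    {S : Finset ι} (hS : S.Nonempty) :
    ((Fintype.card K : ℤ) + 1) * ∑ T ∈ S.powerset, LT r T (S \ T) S.card =
      (2 ^ S.card - (1 - (Fintype.card K : ℤ)) ^ S.card) +
      (((Fintype.card K : ℤ) + 1) * LT r S ∅ S.card +
        ∑ T ∈ (S.powerset.erase ∅).erase S, ((Fintype.card K : ℤ) + 1) * (LT r T ∅ T.card *
          ∏ j ∈ S \ T, (1 + ∏ i ∈ T, quadraticChar K (r i - r j)))) := by
  rw [div_sum_split hS, mul_add, mul_add]
  congr 1
  · rw [Finset.sdiff_empty]
    exact LT_none r hr S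
  · congr 1
    · rw [Finset.sdiff_self]
    · rw [Finset.mul_sum]
      refine Finset.sum_congr rfl fun T hT => ?_
      obtain ⟨hTS, hTn, hTc⟩ := div_mem hT
      have h1 : S.card = T.card + (S \ T).card := by
        rw [Finset.card_sdiff_of_subset hTS]
        have := Finset.card_le_card hTS
        omega
      have h2 := LT_prod hK r hr hTn (B := S \ T) Finset.disjoint_sdiff
      rw [← h1] at h2
      rw [h2]

omit [DecidableEq K] in
theorem div_card (hq : 4 ∣ Fintype.card K - 1) : (4 : ℤ) ∣ (Fintype.card K : ℤ) - 1 := by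
  obtain ⟨b, hb⟩ := hq
  have h1 : 1 < Fintype.card K := Fintype.one_lt_card
  refine ⟨b, ?_⟩
  have : Fintype.card K = 4 * b + 1 := by omega
  rw [this]
  push_cast
  ring

theorem div_pow4 (hq : 4 ∣ Fintype.card K - 1) (m : ℕ) :
    (2 : ℤ) ^ (2 * m) ∣ ((Fintype.card K : ℤ) - 1) ^ m := by
  have h := pow_dvd_pow_of_dvd (div_card hq) m
  have h2 : (2 : ℤ) ^ (2 * m) = 4 ^ m := by
    rw [pow_mul]; norm_num
  rw [h2]
  exact h

theorem div_one (hq : 4 ∣ Fintype.card K - 1) (r : ι → K) (hr : Function.Injective r)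
    (S : Finset ι) (hS : S.Nonempty) : (2 : ℤ) ^ (S.card - 1) ∣ LS r S ∅ S.card := by
  have hK := div_ringChar hq
  induction hn : S.card using Nat.strong_induction_on generalizing S with
  | _ n ih =>
    subst hn
    have hc : 1 ≤ S.card := Finset.card_pos.2 hS
    have h1 := div_LS_split hK r hr hS
    have h2 : LS r S ∅ S.card = (∑ T ∈ S.powerset, LS r T (S \ T) S.card) -
        ((Fintype.card K : ℤ) - 1) ^ (S.card - 1) -
        ∑ T ∈ (S.powerset.erase ∅).erase S, LS r T ∅ T.card *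
          ∏ j ∈ S \ T, (1 - ∏ i ∈ T, quadraticChar K (r i - r j)) := by
      rw [h1]; ring
    rw [h2]
    refine dvd_sub (dvd_sub ?_ ?_) ?_
    · exact dvd_trans (pow_dvd_pow 2 (by omega)) (LS_pat r S S.card)
    · exact dvd_trans (pow_dvd_pow 2 (by omega)) (div_pow4 hq (S.card - 1))
    · refine Finset.dvd_sum fun T hT => ?_
      obtain ⟨hTS, hTn, hTc⟩ := div_mem hT
      have h3 := ih T.card hTc T hTn rfl
      have h4 := div_fac r hr hTS
      have hT1 : 1 ≤ T.card := Finset.card_pos.2 hTn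
      have h5 := mul_dvd_mul h3 h4
      rw [← pow_add] at h5
      have h6 : T.card - 1 + (S.card - T.card) = S.card - 1 := by omega
      rw [h6] at h5
      exact h5

theorem div_neg (hq : 4 ∣ Fintype.card K - 1) (r : ι → K) (hr : Function.Injective r)
    (S : Finset ι) (hS : S.Nonempty) : (2 : ℤ) ^ (S.card - 1) ∣ LT r S ∅ S.card := by
  have hK := div_ringChar hq
  induction hn : S.card using Nat.strong_induction_on generalizing S with
  | _ n ih =>
    subst hn
    have hc : 1 ≤ S.card := Finset.card_pos.2 hS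
    have h1 := div_LT_split hK r hr hS
    obtain ⟨b, hb⟩ := div_card hq
    have hq1 : (Fintype.card K : ℤ) + 1 = 2 * (2 * b + 1) := by linarith
    have h2d : (2 : ℤ) ∣ (Fintype.card K : ℤ) + 1 := ⟨_, hq1⟩
    have h2 : ((Fintype.card K : ℤ) + 1) * LT r S ∅ S.card =
        ((Fintype.card K : ℤ) + 1) * (∑ T ∈ S.powerset, LT r T (S \ T) S.card) -
        (2 ^ S.card - (1 - (Fintype.card K : ℤ)) ^ S.card) -
        ∑ T ∈ (S.powerset.erase ∅).erase S, ((Fintype.card K : ℤ) + 1) * (LT r T ∅ T.card *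
          ∏ j ∈ S \ T, (1 + ∏ i ∈ T, quadraticChar K (r i - r j))) := by
      rw [h1]; ring
    have h3 : (2 : ℤ) ^ S.card ∣ ((Fintype.card K : ℤ) + 1) * LT r S ∅ S.card := by
      rw [h2]
      refine dvd_sub (dvd_sub ?_ (dvd_sub (dvd_refl _) ?_)) ?_
      · exact Dvd.dvd.mul_left (LT_pat r S S.card) _
      · have h4 := div_pow4 hq S.card
        have h5 : (1 - (Fintype.card K : ℤ)) = -1 * ((Fintype.card K : ℤ) - 1) := by ring
        rw [h5, mul_pow]
        exact Dvd.dvd.mul_left (dvd_trans (pow_dvd_pow 2 (by omega)) h4) _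
      · refine Finset.dvd_sum fun T hT => ?_
        obtain ⟨hTS, hTn, hTc⟩ := div_mem hT
        have h3 := ih T.card hTc T hTn rfl
        have h4 := div_fac' r hr hTS
        have hT1 : 1 ≤ T.card := Finset.card_pos.2 hTn
        have h5 := mul_dvd_mul h2d (mul_dvd_mul h3 h4)
        rw [← pow_add, ← pow_succ'] at h5
        have h6 : T.card - 1 + (S.card - T.card) + 1 = S.card := by omega
        rw [h6] at h5
        exact h5
    rw [hq1] at h3
    have h4 : (2 : ℤ) ^ S.card = 2 * 2 ^ (S.card - 1) := by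
      rw [← pow_succ']
      congr 1
      omega
    rw [h4, mul_assoc] at h3
    have h5 : (2 : ℤ) ^ (S.card - 1) ∣ (2 * b + 1) * LT r S ∅ S.card :=
      (mul_dvd_mul_iff_left (by norm_num : (2 : ℤ) ≠ 0)).1 h3
    refine IsCoprime.dvd_of_dvd_mul_left ?_ h5
    refine IsCoprime.pow_left ?_
    exact ⟨-b, 1, by ring⟩

theorem div_LS_single (r : ι → K) {S : Finset ι} (hS : S.card = 1) : LS r S ∅ S.card = 1 := by
  rw [hS, LS, Finset.sum_range_one]
  exact AS_at_zero r S ∅

theorem div_transfer {K' : Type} [Field K'] [Fintype K'] [DecidableEq K']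
    (hq : 4 ∣ Fintype.card K - 1) (hq' : 4 ∣ Fintype.card K' - 1) (r : ι → K) (r' : ι → K')
    (hr : Function.Injective r) (hr' : Function.Injective r')
    (h : ∀ i j, i ≠ j → quadraticChar K (r i - r j) = quadraticChar K' (r' i - r' j))
    (S : Finset ι) (hS : S.Nonempty) :
    (2 : ℤ) ^ S.card ∣ LS r S ∅ S.card - LS r' S ∅ S.card := by
  have hK := div_ringChar hq
  have hK' := div_ringChar hq'
  induction hn : S.card using Nat.strong_induction_on generalizing S with
  | _ n ih =>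
    subst hn
    have hc : 1 ≤ S.card := Finset.card_pos.2 hS
    rcases Nat.eq_or_lt_of_le hc with hc1 | hc2
    · rw [div_LS_single r hc1.symm, div_LS_single r' hc1.symm, sub_self]
      exact dvd_zero _
    have h1 := div_LS_split hK r hr hS
    have h1' := div_LS_split hK' r' hr' hS
    have h2 : LS r S ∅ S.card - LS r' S ∅ S.card =
        (∑ T ∈ S.powerset, LS r T (S \ T) S.card) - (∑ T ∈ S.powerset, LS r' T (S \ T) S.card)
        - (((Fintype.card K : ℤ) - 1) ^ (S.card - 1) - ((Fintype.card K' : ℤ) - 1) ^ (S.card - 1))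
        - ∑ T ∈ (S.powerset.erase ∅).erase S, (LS r T ∅ T.card - LS r' T ∅ T.card) *
          ∏ j ∈ S \ T, (1 - ∏ i ∈ T, quadraticChar K (r i - r j)) := by
      rw [h1, h1']
      have h3 : ∑ T ∈ (S.powerset.erase ∅).erase S, (LS r T ∅ T.card - LS r' T ∅ T.card) *
          ∏ j ∈ S \ T, (1 - ∏ i ∈ T, quadraticChar K (r i - r j)) =
          ∑ T ∈ (S.powerset.erase ∅).erase S, LS r T ∅ T.card *
          ∏ j ∈ S \ T, (1 - ∏ i ∈ T, quadraticChar K (r i - r j)) -
          ∑ T ∈ (S.powerset.erase ∅).erase S, LS r' T ∅ T.card *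
          ∏ j ∈ S \ T, (1 - ∏ i ∈ T, quadraticChar K' (r' i - r' j)) := by
        rw [← Finset.sum_sub_distrib]
        refine Finset.sum_congr rfl fun T hT => ?_
        have h4 : ∏ j ∈ S \ T, (1 - ∏ i ∈ T, quadraticChar K (r i - r j)) =
            ∏ j ∈ S \ T, (1 - ∏ i ∈ T, quadraticChar K' (r' i - r' j)) := by
          refine Finset.prod_congr rfl fun j hj => ?_
          congr 1
          refine Finset.prod_congr rfl fun i hi => ?_
          refine h i j ?_
          intro hij
          exact (Finset.mem_sdiff.1 hj).2 (hij ▸ hi)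
        rw [h4]
        ring
      rw [h3]
      ring
    rw [h2]
    refine dvd_sub (dvd_sub (dvd_sub ?_ ?_) (dvd_sub ?_ ?_)) ?_
    · exact LS_pat r S S.card
    · exact LS_pat r' S S.card
    · exact dvd_trans (pow_dvd_pow 2 (by omega)) (div_pow4 hq (S.card - 1))
    · exact dvd_trans (pow_dvd_pow 2 (by omega)) (div_pow4 hq' (S.card - 1))
    · refine Finset.dvd_sum fun T hT => ?_
      obtain ⟨hTS, hTn, hTc⟩ := div_mem hT
      have h3 := ih T.card hTc T hTn rfl
      have h4 := div_fac r hr hTS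
      have h5 := mul_dvd_mul h3 h4
      rw [← pow_add] at h5
      have h6 : T.card + (S.card - T.card) = S.card := by omega
      rw [h6] at h5
      exact h5

end Pool.Agent.H99.RM
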