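import Pool.Agent.H99.RM.Rec
import Pool.Agent.H99.RM.Van

/-!
# Project MP_17d720_RM, module Rec2: partial sums

Auxiliary lemmas: prefix rec2_. `AS_zero` (module Van), `AS_insert`, `AS_empty`, `AS_at_zero`
(module Rec) may be used. Proofs.

Write `N = #S + #B`, `χ_S = ∏_{i ∈ S} χ (r i - r j)`.
`LS_insert`: `LS r S (insert j B) (N+1) = 1 + ∑_{1 ≤ k ≤ N} (AS_k - χ_S AS_{k-1})
= LS r S B (N+1) - χ_S LS r S B N` (`Finset.sum_range_succ'`) and
`LS r S B (N+1) = LS r S B N` because `AS r S B N = 0` (`AS_zero`, `S` nonempty).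
`LT_insert`: `(-1)^k (AS_k - χ_S AS_{k-1}) = (-1)^k AS_k + χ_S (-1)^(k-1) AS_{k-1}`.
`LS_prod`, `LT_prod`: induction on `B` (`Finset.induction_on`).

`LS_none`, `LT_none`: for `S = ∅`. Let `q = #K`. First `AS r ∅ B k = (q-1)^(#B) q^(k - #B)` for
`k ≥ #B` is not needed: prove directly by induction on `B` (generalizing `t`) that
`(q - 1) * LS r ∅ B (#B + t) = (q-1)^(#B) * q^t - [B = ∅]` (for `B = ∅`: geometric sum; step:
`LS r ∅ (insert j B) (m+1) = LS r ∅ B (m+1) - LS r ∅ B m`, by `AS_insert` with the empty product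
`1` and `AS_at_zero`; with `m = #B + t`), and
`(q + 1) * LT r ∅ B (#B + t) = 2^(#B) - (-q)^t * (1-q)^(#B)` (step:
`LT r ∅ (insert j B) (m+1) = LT r ∅ B (m+1) + LT r ∅ B m`).
-/

namespace Pool.Agent.H99.RM

open Polynomial Finset

variable {K : Type} [Field K] [Fintype K] [DecidableEq K] {ι : Type} [DecidableEq ι]

theorem rec2_LS_ins (r : ι → K) (hr : Function.Injective r) {S B : Finset ι} {j : ι}
    (hjS : j ∉ S) (hjB : j ∉ B) (m : ℕ) :
    LS r S (insert j B) (m + 1) =
      LS r S B (m + 1) - (∏ i ∈ S, quadraticChar K (r i - r j)) * LS r S B m := by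
  unfold LS
  rw [Finset.sum_range_succ', Finset.sum_range_succ' (fun k => AS r S B k)]
  simp only [AS_at_zero, AS_insert r hr hjS hjB]
  rw [Finset.sum_sub_distrib, Finset.mul_sum]
  ring

theorem rec2_LT_ins (r : ι → K) (hr : Function.Injective r) {S B : Finset ι} {j : ι}
    (hjS : j ∉ S) (hjB : j ∉ B) (m : ℕ) :
    LT r S (insert j B) (m + 1) =
      LT r S B (m + 1) + (∏ i ∈ S, quadraticChar K (r i - r j)) * LT r S B m := by
  unfold LT
  rw [Finset.sum_range_succ', Finset.sum_range_succ' (fun k => (-1) ^ k * AS r S B k)]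
  simp only [AS_at_zero, AS_insert r hr hjS hjB]
  rw [Finset.mul_sum]
  have : ∀ k : ℕ, (-1 : ℤ) ^ (k + 1) * (AS r S B (k + 1) -
      (∏ i ∈ S, quadraticChar K (r i - r j)) * AS r S B k) =
      (-1) ^ (k + 1) * AS r S B (k + 1) +
        (∏ i ∈ S, quadraticChar K (r i - r j)) * ((-1) ^ k * AS r S B k) := by
    intro k; rw [pow_succ]; ring
  simp only [this]
  rw [Finset.sum_add_distrib]
  ring

theorem LS_prod (hK : ringChar K ≠ 2) (r : ι → K) (hr : Function.Injective r) {S B : Finset ι}
    (hS : S.Nonempty) (hd : Disjoint S B) :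
    LS r S B (S.card + B.card) =
      LS r S ∅ S.card * ∏ j ∈ B, (1 - ∏ i ∈ S, quadraticChar K (r i - r j)) := by
  induction B using Finset.induction_on with
  | empty => simp
  | insert j B hjB ih =>
    rw [Finset.disjoint_insert_right] at hd
    have hjS := hd.1
    have h0 : LS r S B (S.card + B.card + 1) = LS r S B (S.card + B.card) := by
      unfold LS
      rw [Finset.sum_range_succ, AS_zero hK r hr hS hd.2 le_rfl, add_zero]
    rw [Finset.card_insert_of_notMem hjB, ← add_assoc, rec2_LS_ins r hr hjS hjB, h0, ih hd.2,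
      Finset.prod_insert hjB]
    ring

theorem LT_prod (hK : ringChar K ≠ 2) (r : ι → K) (hr : Function.Injective r) {S B : Finset ι}
    (hS : S.Nonempty) (hd : Disjoint S B) :
    LT r S B (S.card + B.card) =
      LT r S ∅ S.card * ∏ j ∈ B, (1 + ∏ i ∈ S, quadraticChar K (r i - r j)) := by
  induction B using Finset.induction_on with
  | empty => simp
  | insert j B hjB ih =>
    rw [Finset.disjoint_insert_right] at hd
    have hjS := hd.1
    have h0 : LT r S B (S.card + B.card + 1) = LT r S B (S.card + B.card) := by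
      unfold LT
      rw [Finset.sum_range_succ, AS_zero hK r hr hS hd.2 le_rfl, mul_zero, add_zero]
    rw [Finset.card_insert_of_notMem hjB, ← add_assoc, rec2_LT_ins r hr hjS hjB, h0, ih hd.2,
      Finset.prod_insert hjB]
    ring

theorem rec2_LS_none (r : ι → K) (hr : Function.Injective r) (B : Finset ι) :
    ∀ t : ℕ, ((Fintype.card K : ℤ) - 1) * LS r ∅ B (B.card + t) =
      ((Fintype.card K : ℤ) - 1) ^ B.card * (Fintype.card K : ℤ) ^ t -
        (if B = ∅ then 1 else 0) := by
  induction B using Finset.induction_on with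
  | empty =>
    intro t
    unfold LS
    simp only [AS_empty, Finset.card_empty, zero_add, pow_zero, one_mul, if_true]
    rw [mul_comm, geom_sum_mul]
  | insert j B hjB ih =>
    intro t
    have e : (insert j B).card + t = (B.card + t) + 1 := by
      rw [Finset.card_insert_of_notMem hjB]; ring
    rw [e, rec2_LS_ins r hr (Finset.notMem_empty j) hjB, Finset.prod_empty, one_mul, mul_sub, ih t]
    have h1 := ih (t + 1)
    rw [← add_assoc] at h1
    rw [h1, if_neg (Finset.insert_ne_empty j B), Finset.card_insert_of_notMem hjB]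
    ring

theorem LS_none (r : ι → K) (hr : Function.Injective r) {B : Finset ι} (hB : B.Nonempty) :
    LS r ∅ B B.card = ((Fintype.card K : ℤ) - 1) ^ (B.card - 1) := by
  have h := rec2_LS_none r hr B 0
  rw [if_neg hB.ne_empty, add_zero, pow_zero, mul_one, sub_zero] at h
  have hq : ((Fintype.card K : ℤ) - 1) ≠ 0 := by
    have : 1 < Fintype.card K := Fintype.one_lt_card
    omega
  obtain ⟨b, hb⟩ : ∃ b, B.card = b + 1 := ⟨B.card - 1, by have := hB.card_pos; omega⟩
  apply mul_left_cancel₀ hq
  rw [h, hb, Nat.add_sub_cancel, pow_succ]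
  ring

theorem rec2_LT_none (r : ι → K) (hr : Function.Injective r) (B : Finset ι) :
    ∀ t : ℕ, ((Fintype.card K : ℤ) + 1) * LT r ∅ B (B.card + t) =
      2 ^ B.card - (-(Fintype.card K : ℤ)) ^ t * (1 - (Fintype.card K : ℤ)) ^ B.card := by
  induction B using Finset.induction_on with
  | empty =>
    intro t
    unfold LT
    simp only [AS_empty, Finset.card_empty, zero_add, pow_zero, mul_one]
    have h2 : ∀ k : ℕ, (-1 : ℤ) ^ k * (Fintype.card K : ℤ) ^ k = (-(Fintype.card K : ℤ)) ^ k := by
      intro k; rw [← mul_pow]; congr 1; ring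
    simp only [h2]
    have h3 := geom_sum_mul (-(Fintype.card K : ℤ)) t
    linear_combination (-1 : ℤ) * h3
  | insert j B hjB ih =>
    intro t
    have e : (insert j B).card + t = (B.card + t) + 1 := by
      rw [Finset.card_insert_of_notMem hjB]; ring
    rw [e, rec2_LT_ins r hr (Finset.notMem_empty j) hjB, Finset.prod_empty, one_mul, mul_add, ih t]
    have h1 := ih (t + 1)
    rw [← add_assoc] at h1
    rw [h1, Finset.card_insert_of_notMem hjB]
    ring

theorem LT_none (r : ι → K) (hr : Function.Injective r) (B : Finset ι) :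
    ((Fintype.card K : ℤ) + 1) * LT r ∅ B B.card =
      2 ^ B.card - (1 - (Fintype.card K : ℤ)) ^ B.card := by
  have h := rec2_LT_none r hr B 0
  rw [add_zero, pow_zero, one_mul] at h
  exact h

end Pool.Agent.H99.RM
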