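import Pool.Agent.H99.RM.Nid

/-!
# Project MP_17d720_RM, module Nim: Newton's identities for a matrix modulo p

Auxiliary lemmas: prefix nim_. `nid_prod`, `nid_unique` (module Nid) may be used.

`nid_matrix`: `H` a `g × g` matrix over `ZMod p`, `g < p`. Over the algebraic closure `H` has
eigenvalues `λ_1, ..., λ_g` (roots of the charpoly, with multiplicity): `tr (H^m) = ∑ λ_i^m`,
`det H = ∏ λ_i` (Mathlib: `Matrix.trace_eq_sum_roots_charpoly`, `Matrix.det_eq_prod_roots_charpoly`; for
powers: `Matrix.charpoly_pow...`, or triangularise; the trace of `H^m` is the sum of the `m`-th powers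
of the roots: e.g. `Matrix.isNilpotent...`, or via
`Polynomial.aeval` and `Module.End`; one may also prove the identity
`k B_k = - ∑ tr(H^m) B_{k-m}` for the coefficients of `det(1 - X H)` directly, or over `MvPolynomial`).
So the `A k` satisfy the recursion of the coefficients of `∏ (1 - λ_i X)` for `k ≤ g`, and these are
`1, ..., (-1)^g ∏ λ_i` (coefficient of `X^g`).
-/

namespace Pool.Agent.H99.RM

open Finset Polynomial

theorem nim_list {K : Type} (s : Multiset K) (g : ℕ) (h : Multiset.card s = g) :
    ∃ α : Fin g → K, (univ : Finset (Fin g)).val.map α = s := by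
  induction s using Quotient.inductionOn with
  | h l =>
    have hl : l.length = g := h
    subst hl
    refine ⟨fun i => l.get i, ?_⟩
    rw [Fin.univ_val_map, List.ofFn_get]
    rfl

theorem nim_det {K : Type} [Field K] [IsAlgClosed K] {n : ℕ} (H : Matrix (Fin n) (Fin n) K)
    (p : K[X]) : (aeval H p).det = (H.charpoly.roots.map fun x => p.eval x).prod := by
  have hsp : H.charpoly.Splits := IsAlgClosed.splits _
  have hcard : Multiset.card H.charpoly.roots = n := by
    rw [← hsp.natDegree_eq_card_roots, Matrix.charpoly_natDegree_eq_dim, Fintype.card_fin]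
  have hlin : ∀ z : K, (aeval H (X - C z)).det =
      (H.charpoly.roots.map fun x => (X - C z : K[X]).eval x).prod := by
    intro z
    have h1 := hsp.eval_eq_prod_roots_of_monic H.charpoly_monic z
    rw [Matrix.eval_charpoly] at h1
    have h2 : aeval H (X - C z) = -(Matrix.scalar (Fin n) z - H) := by
      rw [map_sub, aeval_X, aeval_C, neg_sub]
      rfl
    have h3 : (H.charpoly.roots.map fun x => (X - C z : K[X]).eval x) =
        H.charpoly.roots.map (fun x => (-1) * (z - x)) := by
      apply Multiset.map_congr rfl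
      intro x _
      simp
    rw [h2, Matrix.det_neg, h1, h3, Multiset.prod_map_mul, Fintype.card_fin]
    simp [hcard]
  have hp : p.Splits := IsAlgClosed.splits _
  have hmul : ∀ m : Multiset K, (aeval H (m.map fun z => X - C z).prod).det =
      (H.charpoly.roots.map fun x => (m.map fun z => (X - C z : K[X])).prod.eval x).prod := by
    intro m
    induction m using Multiset.induction_on with
    | empty => simp
    | cons z m ih =>
      rw [Multiset.map_cons, Multiset.prod_cons, map_mul, Matrix.det_mul, ih, hlin z]
      simp only [eval_mul, Multiset.prod_map_mul]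
  conv_lhs => rw [hp.eq_prod_roots]
  rw [map_mul, Matrix.det_mul, hmul, aeval_C]
  have h4 : ((algebraMap K (Matrix (Fin n) (Fin n) K)) p.leadingCoeff).det = p.leadingCoeff ^ n := by
    have : (algebraMap K (Matrix (Fin n) (Fin n) K)) p.leadingCoeff =
        p.leadingCoeff • (1 : Matrix (Fin n) (Fin n) K) := Algebra.algebraMap_eq_smul_one _
    rw [this, Matrix.det_smul, Matrix.det_one, mul_one, Fintype.card_fin]
  have h5 : (H.charpoly.roots.map fun x => p.eval x) = H.charpoly.roots.map (fun x =>
      p.leadingCoeff * ((p.roots.map fun z => (X - C z : K[X])).prod.eval x)) := by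
    apply Multiset.map_congr rfl
    intro x _
    conv_lhs => rw [hp.eq_prod_roots]
    rw [eval_mul, eval_C]
  rw [h4, h5, Multiset.prod_map_mul]
  simp [hcard]

theorem nim_trace {K : Type} [Field K] [IsAlgClosed K] {n : ℕ} (H : Matrix (Fin n) (Fin n) K)
    (m : ℕ) : (H ^ m).trace = (H.charpoly.roots.map fun x => x ^ m).sum := by
  have h1 : (H ^ m).charpoly = ((H.charpoly.roots.map fun x => x ^ m).map fun y => X - C y).prod := by
    apply Polynomial.funext
    intro z
    rw [Matrix.eval_charpoly]
    have h2 := nim_det H (C z - X ^ m)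
    have h3 : aeval H (C z - X ^ m) = Matrix.scalar (Fin n) z - H ^ m := by
      rw [map_sub, aeval_C, map_pow, aeval_X]
      rfl
    rw [h3] at h2
    rw [h2, eval_multiset_prod, Multiset.map_map, Multiset.map_map]
    congr 1
    apply Multiset.map_congr rfl
    intro x _
    simp
  rw [Matrix.trace_eq_sum_roots_charpoly, h1, roots_multiset_prod_X_sub_C]

theorem nid_matrix (p : ℕ) [Fact p.Prime] {g : ℕ} (hg : g < p) (H : Matrix (Fin g) (Fin g) (ZMod p))
    (A : ℕ → ZMod p) (hA0 : A 0 = 1)
    (hA : ∀ k, 1 ≤ k → k ≤ g → (k : ZMod p) * A k = -∑ m ∈ Icc 1 k, (H ^ m).trace * A (k - m)) :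
    A g = (-1) ^ g * H.det := by
  classical
  let K := AlgebraicClosure (ZMod p)
  let φ : ZMod p →+* K := algebraMap (ZMod p) K
  have hφ : Function.Injective φ := φ.injective
  let H' : Matrix (Fin g) (Fin g) K := φ.mapMatrix H
  have hsp : H'.charpoly.Splits := IsAlgClosed.splits _
  have hcard : Multiset.card H'.charpoly.roots = g := by
    rw [← hsp.natDegree_eq_card_roots, Matrix.charpoly_natDegree_eq_dim, Fintype.card_fin]
  obtain ⟨α, hα⟩ := nim_list H'.charpoly.roots g hcard
  have hch : CharP K p := inferInstance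
  have htr : ∀ m, φ ((H ^ m).trace) = ∑ i, α i ^ m := by
    intro m
    have h1 : φ ((H ^ m).trace) = (H' ^ m).trace := by
      show φ ((H ^ m).trace) = (φ.mapMatrix H ^ m).trace
      rw [← map_pow]
      simp [Matrix.trace]
    rw [h1, nim_trace, ← hα, Multiset.map_map]
    rfl
  have hdet : φ H.det = ∏ i, α i := by
    have h1 : φ H.det = H'.det := RingHom.map_det φ H
    rw [h1, Matrix.det_eq_prod_roots_charpoly, ← hα]
    rfl
  have hB0 : (∏ i, (1 - C (α i) * X) : K[X]).coeff 0 = 1 := by
    rw [coeff_zero_prod]
    simp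
  have hu := nid_unique (fun m => ∑ i, α i ^ m) (fun k => φ (A k))
    (fun k => (∏ i, (1 - C (α i) * X) : K[X]).coeff k) g (by
      intro k h1 h2 h0
      rw [CharP.cast_eq_zero_iff K p] at h0
      have := Nat.le_of_dvd (by omega) h0
      omega) (by rw [hA0, map_one]) hB0 (by
      intro k h1 h2
      have h3 := congrArg φ (hA k h1 h2)
      rw [map_mul, map_natCast, map_neg, map_sum] at h3
      rw [h3]
      congr 1
      apply Finset.sum_congr rfl
      intro m _
      rw [map_mul, htr]) (fun k _ _ => nid_prod α k)
  have hg' := hu g le_rfl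
  apply hφ
  rw [map_mul, hdet, map_pow, map_neg, map_one]
  refine hg'.trans ?_
  have h5 := coeff_prod_of_natDegree_le (s := univ) (fun i : Fin g => (1 - C (α i) * X : K[X])) 1 (by
    intro i _
    refine (natDegree_sub_le _ _).trans ?_
    rw [natDegree_one]
    exact max_le (Nat.zero_le _) ((natDegree_C_mul_le _ _).trans natDegree_X_le))
  rw [Finset.card_univ, Fintype.card_fin, mul_one] at h5
  show (∏ i, (1 - C (α i) * X) : K[X]).coeff g = _
  rw [h5]
  have h6 : ∀ i : Fin g, (1 - C (α i) * X : K[X]).coeff 1 = (-1) * α i := by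
    intro i
    rw [coeff_sub, coeff_C_mul, coeff_X_one, coeff_one]
    simp
    ring
  simp only [h6]
  rw [Finset.prod_mul_distrib]
  simp

end Pool.Agent.H99.RM
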