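import Pool.Agent.H99.RM.Mon

/-!
# Project MP_17d720_RM, module Chr: quadratic characters and norms

Auxiliary lemmas: prefix chr_. Proofs.

`chr_norm`: let `q = #K`, `#F = q^m`, `m = finrank K F`. `Norm y = y ^ ((q^m - 1)/(q - 1))`
(Mathlib: `FiniteField.algebraMap_norm_eq_pow` or the product of the Frobenius conjugates
`FiniteField.algebraMap_norm_eq_prod_pow`), so `(Norm y)^((q-1)/2) = y^((q^m-1)/2)`, i.e. the images
in `F` of `χ_K (Norm y)` and `χ_F y` agree (`quadraticChar_eq_pow_of_char_ne_two'`), both are in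
`{-1, 0, 1}` and `2 ≠ 0` in `F`.

-/

namespace Pool.Agent.H99.RM

open Polynomial Finset

variable {K : Type} [Field K] [Fintype K] [DecidableEq K] {F : Type} [Field F] [Fintype F]
  [DecidableEq F] [Algebra K F]

/-- The exponents: `(∑ i < m, q ^ i) * (q / 2) = q ^ m / 2` for odd `q`. -/
theorem chr_exp {q : ℕ} (hq : q % 2 = 1) (m : ℕ) :
    (∑ i ∈ Finset.range m, q ^ i) * (q / 2) = q ^ m / 2 := by
  obtain ⟨r, hr⟩ : ∃ r, q = 2 * r + 1 := ⟨q / 2, by omega⟩
  subst hr
  have h1 := geom_sum_mul_add (2 * r) m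
  have h2 : (2 * r + 1) / 2 = r := by omega
  rw [h2, ← h1]
  have h3 : (∑ i ∈ Finset.range m, (2 * r + 1) ^ i) * (2 * r) =
      2 * ((∑ i ∈ Finset.range m, (2 * r + 1) ^ i) * r) := by ring
  rw [h3]
  omega

omit [Fintype F] [DecidableEq F] in
/-- Two quadratic values with the same image in a field of characteristic not two agree. -/
theorem chr_cast {a b : ℤ} (ha : a = 0 ∨ a = 1 ∨ a = -1) (hb : b = 0 ∨ b = 1 ∨ b = -1)
    (h2 : (2 : F) ≠ 0) (h : (a : F) = (b : F)) : a = b := by
  have h1 : (1 : F) ≠ 0 := one_ne_zero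
  have h3 : (1 : F) ≠ -1 := by
    intro h
    apply h2
    have : (1 : F) + 1 = 0 := by
      nth_rewrite 1 [h]
      ring
    rw [← this]
    norm_num
  rcases ha with rfl | rfl | rfl <;> rcases hb with rfl | rfl | rfl
  · rfl
  · exact absurd h.symm (by push_cast; exact h1)
  · exact absurd h.symm (by push_cast; exact neg_ne_zero.mpr h1)
  · exact absurd h (by push_cast; exact h1)
  · rfl
  · exact absurd h (by push_cast; exact h3)
  · exact absurd h (by push_cast; exact neg_ne_zero.mpr h1)
  · exact absurd h.symm (by push_cast; exact h3)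
  · rfl

theorem chr_norm (hK : ringChar K ≠ 2) (y : F) :
    quadraticChar F y = quadraticChar K (Algebra.norm K y) := by
  have hF : ringChar F ≠ 2 := by
    rw [← Algebra.ringChar_eq K F]
    exact hK
  have h2 : (2 : F) ≠ 0 := Ring.two_ne_zero hF
  have hq : Fintype.card K % 2 = 1 := FiniteField.odd_card_of_char_ne_two hK
  have hm : Fintype.card F = Fintype.card K ^ Module.finrank K F := Module.card_eq_pow_finrank
  apply chr_cast (F := F) (quadraticChar_isQuadratic F y)
    (quadraticChar_isQuadratic K (Algebra.norm K y)) h2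
  rw [quadraticChar_eq_pow_of_char_ne_two' hF]
  have h3 : ((quadraticChar K (Algebra.norm K y) : ℤ) : F) =
      algebraMap K F ((quadraticChar K (Algebra.norm K y) : ℤ) : K) := by
    rw [map_intCast]
  rw [h3, quadraticChar_eq_pow_of_char_ne_two' hK, map_pow,
    FiniteField.algebraMap_norm_eq_pow_sum, ← pow_mul, Nat.card_eq_fintype_card, chr_exp hq, hm]


end Pool.Agent.H99.RM
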