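import Pool.Agent.H99.RM.Defs

/-!
# Project MP_17d720_RM, module Trc: character sums modulo p and the Cartier-Manin matrix

Auxiliary lemmas: prefix trc_. `p` odd, `f = ∏ (X - C (r l))` of degree `2g+1` over `ZMod p`,
`G = f^((p-1)/2)`, `H = cm g r`, `H i j = G.coeff (p (i+1) - (j+1))`. (0-based `i, j < g`; below
`i, j, l` run through `1..g`.)

(1) For `m ≥ 1` and `F_m = f^((p^m - 1)/2)`: the coefficient of `X^(i p^m - j)` in `F_m` is
`(H^m)_{ij}` for `1 ≤ i, j ≤ g`. Induction on `m`; `m = 1` is the definition.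
`(p^(m+1) - 1)/2 = (p-1)/2 + p (p^m - 1)/2`, so `F_{m+1} = G * F_m^p` and `F_m^p = F_m(X^p)` over `ZMod p`
(`Polynomial.expand_char`, `ZMod.expand_card`, `frobenius` is the identity on `ZMod p`).
The coefficient of `X^(i p^(m+1) - j)` in `G * expand p F_m` is
`∑_a F_m.coeff a * G.coeff (i p^(m+1) - j - p a)`; a nonzero term needs
`0 ≤ i p^(m+1) - j - p a ≤ (2g+1)(p-1)/2`. Put `l = i p^m - a`: then `0 ≤ l p - j` forces `l ≥ 1` and
`l p ≤ (2g+1)(p-1)/2 + g < (g+1) p` forces `l ≤ g`. So the sum is `∑_{l=1}^g (H^m)_{il} H_{lj}`. (Note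
`a = i p^m - l ≥ 0` as `l ≤ g ≤ ...`; if `i p^m < l` then the coefficient index is not a natural number:
since `i ≥ 1`, this can only happen for `p^m < g`. To avoid it assume `g < p`, which is a hypothesis.)

(2) For the field `F` with `q = p^m` elements and `y ∈ F`: `χ(y) = y^((q-1)/2)` in `F`
(`quadraticChar_eq_pow_of_char_ne_two'`). So the image of `NG p m r` in `F` is
`∑_x (F_m)(x)`, `F_m` mapped to `F[X]`, of degree `(2g+1)(q-1)/2`, and `∑_{x ∈ F} x^a` is `-1` if `a > 0`
and `(q-1) ∣ a` and `0` otherwise (`FiniteField.sum_pow_lt_card_sub_one`,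
`FiniteField.sum_pow_units`, `sum_pow...`). The multiples `j(q-1)`, `j ≥ 1`, of `q-1` up to
`(2g+1)(q-1)/2` are those with `j ≤ g`; `j (q-1) = j q - j`. So the image is
`-∑_{j=1}^g F_m.coeff (j q - j) = -tr(H^m)` by (1). Both sides are in `ZMod p`, and `ZMod p → F` is
injective.
-/

namespace Pool.Agent.H99.RM

open Finset Polynomial

/-- the polynomial `∏ (X - C (r l))` -/
private noncomputable def trc_f {p n : ℕ} (r : Fin n → ZMod p) : (ZMod p)[X] :=
  ∏ l, (X - C (r l))

private theorem trc_natDegree {p n : ℕ} [Fact p.Prime] (r : Fin n → ZMod p) :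
    (trc_f r).natDegree = n := by
  unfold trc_f
  rw [natDegree_prod_of_monic _ _ (fun i _ => monic_X_sub_C _)]
  simp

private theorem trc_odd (p : ℕ) [Fact p.Prime] (hp : p ≠ 2) : ∃ s, p = 2 * s + 1 := by
  have h := (Fact.out : p.Prime).odd_of_ne_two hp
  exact h

private theorem trc_odd_pow (p : ℕ) [Fact p.Prime] (hp : p ≠ 2) (m : ℕ) :
    ∃ s, p ^ m = 2 * s + 1 := by
  have h := (Fact.out : p.Prime).odd_of_ne_two hp
  exact h.pow

private theorem trc_exp (p : ℕ) [Fact p.Prime] (hp : p ≠ 2) (m : ℕ) :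
    (p ^ (m + 1) - 1) / 2 = (p - 1) / 2 + p * ((p ^ m - 1) / 2) := by
  obtain ⟨s, hs⟩ := trc_odd p hp
  obtain ⟨t, ht⟩ := trc_odd_pow p hp m
  rw [pow_succ, ht]
  have h1 : (2 * t + 1 - 1) / 2 = t := by omega
  have h2 : (p - 1) / 2 = s := by omega
  rw [h1, h2]
  have h3 : (2 * t + 1) * p = 2 * (s + p * t) + 1 := by
    have : (2 * t + 1) * p = 2 * (p * t) + p := by ring
    omega
  rw [h3]
  omega

private theorem trc_coeff (p : ℕ) [Fact p.Prime] (hp : p ≠ 2) {g : ℕ} (hg : g < p)
    (r : Fin (2 * g + 1) → ZMod p) (m : ℕ) (hm : 1 ≤ m) (i j : Fin g) :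
    ((trc_f r) ^ ((p ^ m - 1) / 2)).coeff (p ^ m * ((i : ℕ) + 1) - ((j : ℕ) + 1)) =
      ((cm g r) ^ m) i j := by
  induction m, hm using Nat.le_induction generalizing i j with
  | base => simp only [pow_one]; rfl
  | succ m hm ih =>
    have hp0 : 0 < p := (Fact.out : p.Prime).pos
    have hH : (cm g r ^ (m + 1)) i j = ∑ l, (cm g r ^ m) i l * (cm g r) l j := by
      rw [pow_succ (cm g r) m]
      exact Matrix.mul_apply
    rw [hH, trc_exp p hp m, pow_add, mul_comm p, pow_mul, ← ZMod.expand_card, coeff_mul]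
    obtain ⟨s, hs⟩ := trc_odd p hp
    have hs2 : (p - 1) / 2 = s := by omega
    have hpm : p ≤ p ^ m := by
      calc p = p ^ 1 := (pow_one p).symm
        _ ≤ p ^ m := Nat.pow_le_pow_right hp0 hm
    symm
    have hle : ∀ l : Fin g, (l : ℕ) + 1 ≤ p ^ m * ((i : ℕ) + 1) := by
      intro l
      have h1 := l.2
      have h2 : p ^ m * 1 ≤ p ^ m * ((i : ℕ) + 1) := Nat.mul_le_mul_left _ (by omega)
      omega
    have hle2 : ∀ l : Fin g, (j : ℕ) + 1 ≤ p * ((l : ℕ) + 1) := by
      intro l
      have h1 := j.2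
      have h2 : p * 1 ≤ p * ((l : ℕ) + 1) := Nat.mul_le_mul_left _ (by omega)
      omega
    have key : p ^ (m + 1) * ((i : ℕ) + 1) = p * (p ^ m * ((i : ℕ) + 1)) := by ring
    apply Finset.sum_of_injOn
      (fun l : Fin g => (p * ((l : ℕ) + 1) - ((j : ℕ) + 1),
        p * (p ^ m * ((i : ℕ) + 1) - ((l : ℕ) + 1))))
    · intro l _ l' _ h
      simp only [Prod.mk.injEq] at h
      have h1 := hle2 l
      have h2 := hle2 l'
      have h3 : p * ((l : ℕ) + 1) = p * ((l' : ℕ) + 1) := by omega
      have h4 := Nat.eq_of_mul_eq_mul_left hp0 h3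
      apply Fin.ext
      omega
    · intro l _
      simp only [mem_coe, Finset.HasAntidiagonal.mem_antidiagonal]
      rw [key]
      have h1 := hle l
      have h2 := hle2 l
      rw [Nat.mul_sub]
      have h3 : p * ((l : ℕ) + 1) ≤ p * (p ^ m * ((i : ℕ) + 1)) := Nat.mul_le_mul_left _ h1
      omega
    · rintro ⟨a, b⟩ hab hnot
      simp only [Finset.HasAntidiagonal.mem_antidiagonal] at hab
      rw [key] at hab
      by_contra hne
      have hne1 := left_ne_zero_of_mul hne
      have hne2 := right_ne_zero_of_mul hne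
      simp only [coeff_expand hp0] at hne2
      have hdvd : p ∣ b := by
        by_contra h
        rw [if_neg h] at hne2
        exact hne2 rfl
      obtain ⟨c, rfl⟩ := hdvd
      have hdeg : a ≤ (2 * g + 1) * s := by
        have h := le_natDegree_of_ne_zero hne1
        rw [hs2] at h
        have h2 := natDegree_pow_le (p := trc_f r) (n := s)
        rw [trc_natDegree] at h2
        calc a ≤ _ := h
          _ ≤ _ := h2
          _ = _ := by ring
      apply hnot
      simp only [coe_univ, Set.image_univ, Set.mem_range, Prod.mk.injEq]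
      have hj := j.2
      have hN : (j : ℕ) + 1 ≤ p * (p ^ m * ((i : ℕ) + 1)) := by
        have h1 := hle j
        calc (j : ℕ) + 1 ≤ 1 * (p ^ m * ((i : ℕ) + 1)) := by omega
          _ ≤ _ := Nat.mul_le_mul_right _ hp0
      have h5 : a + ((j : ℕ) + 1) + p * c = p * (p ^ m * ((i : ℕ) + 1)) := by omega
      have h6 : p * c < p * (p ^ m * ((i : ℕ) + 1)) := by omega
      have h7 : c < p ^ m * ((i : ℕ) + 1) := lt_of_mul_lt_mul_left h6 (Nat.zero_le _)
      obtain ⟨L, hL⟩ : ∃ L, p ^ m * ((i : ℕ) + 1) = c + (L + 1) :=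
        ⟨p ^ m * ((i : ℕ) + 1) - c - 1, by omega⟩
      have h8 : a + ((j : ℕ) + 1) = p * (L + 1) := by
        rw [hL, Nat.mul_add] at h5
        omega
      have h9 : L < g := by
        by_contra hcon
        push Not at hcon
        have h10 : p * (g + 1) ≤ p * (L + 1) := Nat.mul_le_mul_left _ (by omega)
        have h11 : (2 * g + 1) * s + g < p * (g + 1) := by
          have : p * (g + 1) = (2 * g + 1) * s + g + s + 1 := by rw [hs]; ring
          omega
        omega
      refine ⟨⟨L, h9⟩, ?_, ?_⟩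
      · simp only
        omega
      · simp only
        rw [hL]
        congr 1
        omega
    · intro l _
      rw [← ih i l]
      simp only
      rw [coeff_expand hp0, if_pos (dvd_mul_right _ _), Nat.mul_div_cancel_left _ hp0, mul_comm]
      rfl

private theorem trc_sum_pow {F : Type} [Field F] [Fintype F] (a : ℕ) :
    ∑ x : F, x ^ a = if 0 < a ∧ (Fintype.card F - 1) ∣ a then -1 else 0 := by
  classical
  by_cases ha : a = 0
  · subst ha
    simp
  have h1 : ∑ x : F, x ^ a = ∑ x : Fˣ, (x ^ a : F) := by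
    have h2 : ∑ x : F, x ^ a = ∑ x ∈ (univ.filter (fun x : F => x ≠ 0)), x ^ a := by
      rw [sum_filter]
      apply sum_congr rfl
      intro x _
      split_ifs with h
      · rfl
      · push Not at h
        rw [h, zero_pow ha]
    rw [h2]
    symm
    apply Finset.sum_bij (fun (x : Fˣ) _ => (x : F))
    · intro x _
      simp
    · intro x _ y _ h
      exact Units.ext h
    · intro x hx
      simp only [mem_filter, mem_univ, true_and] at hx
      exact ⟨Units.mk0 x hx, mem_univ _, rfl⟩
    · intro x _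
      rfl
  rw [h1, FiniteField.sum_pow_units]
  by_cases h : Fintype.card F - 1 ∣ a
  · rw [if_pos h, if_pos ⟨Nat.pos_of_ne_zero ha, h⟩]
  · rw [if_neg h, if_neg (fun h' => h h'.2)]

private theorem trc_NS (p : ℕ) [Fact p.Prime] (hp : p ≠ 2) {g : ℕ} (hg : g < p)
    (r : Fin (2 * g + 1) → ZMod p) (m : ℕ) (hm : 1 ≤ m)
    (F : Type) [Field F] [Fintype F] [DecidableEq F] [Algebra (ZMod p) F]
    (hF : Fintype.card F = p ^ m) :
    ((NS (ZMod p) F r : ℤ) : F) = algebraMap (ZMod p) F (-((cm g r) ^ m).trace) := by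
  have hchar : ringChar F ≠ 2 := by
    have h1 : CharP F p := charP_of_injective_algebraMap (algebraMap (ZMod p) F).injective p
    rw [ringChar.eq_iff.mpr h1]
    exact hp
  obtain ⟨s, hs⟩ := trc_odd_pow p hp m
  have hq2 : Fintype.card F / 2 = (p ^ m - 1) / 2 := by rw [hF]; omega
  set P : (ZMod p)[X] := (trc_f r) ^ ((p ^ m - 1) / 2) with hP
  have hdeg : (P.map (algebraMap (ZMod p) F)).natDegree < (2 * g + 1) * s + 1 := by
    have h1 : (P.map (algebraMap (ZMod p) F)).natDegree ≤ P.natDegree := natDegree_map_le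
    have h2 : P.natDegree ≤ ((p ^ m - 1) / 2) * (trc_f r).natDegree := natDegree_pow_le
    rw [trc_natDegree] at h2
    have h3 : (p ^ m - 1) / 2 = s := by omega
    rw [h3, mul_comm] at h2
    omega
  have h1 : ((NS (ZMod p) F r : ℤ) : F) =
      ∑ x : F, (P.map (algebraMap (ZMod p) F)).eval x := by
    unfold NS
    rw [Int.cast_sum]
    apply sum_congr rfl
    intro x _
    rw [quadraticChar_eq_pow_of_char_ne_two' hchar, hq2, hP, Polynomial.map_pow, eval_pow]
    congr 1
    unfold trc_f
    rw [Polynomial.map_prod, eval_prod]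
    apply prod_congr rfl
    intro l _
    simp
  have h2 : ∑ x : F, (P.map (algebraMap (ZMod p) F)).eval x =
      ∑ a ∈ range ((2 * g + 1) * s + 1), (algebraMap (ZMod p) F (P.coeff a)) *
        (if 0 < a ∧ (Fintype.card F - 1) ∣ a then -1 else 0) := by
    calc ∑ x : F, (P.map (algebraMap (ZMod p) F)).eval x
        = ∑ x : F, ∑ a ∈ range ((2 * g + 1) * s + 1),
            (algebraMap (ZMod p) F (P.coeff a)) * x ^ a := by
          apply sum_congr rfl
          intro x _
          rw [Polynomial.eval_eq_sum_range' hdeg]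
          apply sum_congr rfl
          intro a _
          rw [coeff_map]
      _ = _ := by
          rw [sum_comm]
          apply sum_congr rfl
          intro a _
          rw [← mul_sum, trc_sum_pow]
  rw [h1, h2, Matrix.trace, map_neg, map_sum, ← sum_neg_distrib]
  symm
  have hs0 : 0 < s := by
    by_contra hcon
    have : s = 0 := by omega
    rw [this] at hs
    have h3 : 1 < p ^ m := Nat.one_lt_pow (by omega) (Fact.out : p.Prime).one_lt
    omega
  have hcoef : ∀ j : Fin g, 2 * s * ((j : ℕ) + 1) = p ^ m * ((j : ℕ) + 1) - ((j : ℕ) + 1) := by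
    intro j
    rw [hs]
    have : (2 * s + 1) * ((j : ℕ) + 1) = 2 * s * ((j : ℕ) + 1) + ((j : ℕ) + 1) := by ring
    omega
  have hcard : Fintype.card F - 1 = 2 * s := by rw [hF]; omega
  apply Finset.sum_of_injOn (fun j : Fin g => 2 * s * ((j : ℕ) + 1))
  · intro j _ j' _ h
    simp only at h
    have h4 := Nat.eq_of_mul_eq_mul_left (by omega : 0 < 2 * s) h
    apply Fin.ext
    omega
  · intro j _
    simp only [coe_range, Set.mem_Iio]
    have hj := j.2
    have h5 : 2 * s * ((j : ℕ) + 1) ≤ 2 * s * g := Nat.mul_le_mul_left _ (by omega)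
    have h6 : 2 * s * g = 2 * g * s := by ring
    have h7 : (2 * g + 1) * s = 2 * g * s + s := by ring
    omega
  · intro a ha hnot
    rw [if_neg, mul_zero]
    rintro ⟨ha0, b, hb⟩
    apply hnot
    rw [hcard] at hb
    simp only [mem_range] at ha
    have hb0 : 0 < b := by
      by_contra hcon
      have : b = 0 := by omega
      rw [this] at hb
      omega
    have hbg : b < g + 1 := by
      by_contra hcon
      push Not at hcon
      have h5 : 2 * s * (g + 1) ≤ 2 * s * b := Nat.mul_le_mul_left _ hcon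
      have h6 : 2 * s * (g + 1) = 2 * g * s + 2 * s := by ring
      have h7 : (2 * g + 1) * s = 2 * g * s + s := by ring
      omega
    simp only [coe_univ, Set.image_univ, Set.mem_range]
    refine ⟨⟨b - 1, by omega⟩, ?_⟩
    simp only
    rw [hb]
    congr 1
    omega
  · intro j _
    rw [if_pos]
    · rw [Matrix.diag_apply, ← trc_coeff p hp hg r m hm j j, hcoef j]
      ring
    · refine ⟨by positivity, ?_⟩
      rw [hcard]
      exact dvd_mul_right _ _

theorem trc_main (p : ℕ) [Fact p.Prime] (hp : p ≠ 2) {g : ℕ} (hg : g < p)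
    (r : Fin (2 * g + 1) → ZMod p) (m : ℕ) (hm : 1 ≤ m) :
    ((NG p m r : ℤ) : ZMod p) = -((cm g r) ^ m).trace := by
  classical
  apply (algebraMap (ZMod p) (GaloisField p m)).injective
  rw [map_intCast]
  unfold NG
  let _ : Fintype (GaloisField p m) := Fintype.ofFinite (GaloisField p m)
  have hF : Fintype.card (GaloisField p m) = p ^ m := by
    rw [← Nat.card_eq_fintype_card]
    exact GaloisField.card p m (by omega)
  convert trc_NS p hp hg r m hm (GaloisField p m) hF

end Pool.Agent.H99.RM
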