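import Pool.Agent.H99.RM.Defs
import Pool.Agent.H99.RM.Nfc

/-!
# Project MP_17d720_RM, module Alp: all conjugate roots as one family

Auxiliary lemmas: prefix alp_. Proof. For each embedding `σ`, `frobPoly p (σ a) (σ b)` is monic of
degree 4 over `ℂ`, so it is the product of `X - α` over its roots (a multiset with 4 elements), and
the product of `1 - α X` over the roots is its reverse, `revPoly p (σ a) (σ b)`
(e.g. write the roots as `α₁..α₄`, expand both products and compare coefficients by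
`Polynomial.coeff`; or `Polynomial.reverse_prod...`). Concatenate the four roots over all `σ`
(choose for every `σ` a function `Fin 4 → ℂ` listing the roots and index by
`(F →+* ℂ) × Fin 4 ≃ Fin t`, `t = 4 finrank`, `NumberField.Embeddings.card`).
-/

namespace Pool.Agent.H99.RM

open NumberField Polynomial

theorem alp_monic (p : ℕ) (a b : ℂ) :
    (frobPoly p a b).Monic ∧ (frobPoly p a b).natDegree = 4 := by
  have h : frobPoly p a b = X ^ 4 + (- C a * X ^ 3 + C b * X ^ 2 - C ((p : ℂ) * a) * X +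
      C ((p : ℂ) ^ 2)) := by
    unfold frobPoly; ring
  have hd : (- C a * X ^ 3 + C b * X ^ 2 - C ((p : ℂ) * a) * X + C ((p : ℂ) ^ 2) : ℂ[X]).degree
      < (4 : ℕ) := by
    have : (- C a * X ^ 3 + C b * X ^ 2 - C ((p : ℂ) * a) * X + C ((p : ℂ) ^ 2) : ℂ[X]).degree
      ≤ (3 : ℕ) := by
      rw [← C_neg]
      compute_degree
      exact le_refl _
    exact lt_of_le_of_lt this (by norm_num)
  constructor
  · rw [h]; exact monic_X_pow_add hd
  · rw [h, natDegree_eq_of_degree_eq_some]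
    rw [degree_add_eq_left_of_degree_lt (by rw [degree_X_pow]; exact hd), degree_X_pow]

theorem alp_fin4 (p : ℕ) (a b : ℂ) : ∃ f : Fin 4 → ℂ,
    (frobPoly p a b).roots = Finset.univ.val.map f ∧
    frobPoly p a b = ∏ i, (X - C (f i)) := by
  obtain ⟨hm, hd⟩ := alp_monic p a b
  have hs : (frobPoly p a b).Splits := IsAlgClosed.splits _
  have hc : (frobPoly p a b).roots.card = 4 := by
    rw [← hs.natDegree_eq_card_roots, hd]
  obtain ⟨l, hl⟩ := Quot.exists_rep (frobPoly p a b).roots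
  have hl' : (l : Multiset ℂ) = (frobPoly p a b).roots := hl
  have hlen : l.length = 4 := by
    rw [← hc, ← hl', Multiset.coe_card]
  obtain ⟨x, y, z, w, rfl⟩ : ∃ x y z w, l = [x, y, z, w] := by
    match l, hlen with
    | [x, y, z, w], _ => exact ⟨x, y, z, w, rfl⟩
  have hf : (frobPoly p a b).roots = Finset.univ.val.map ![x, y, z, w] := by
    rw [← hl', Fin.univ_val_map]
    simp [List.ofFn_succ]
  refine ⟨![x, y, z, w], hf, ?_⟩
  have h1 := hs.eq_prod_roots_of_monic hm
  rw [hf] at h1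
  rw [h1, Multiset.map_map]
  rfl

theorem alp_rev (p : ℕ) (a b : ℂ) (f : Fin 4 → ℂ) (hf : frobPoly p a b = ∏ i, (X - C (f i))) :
    ∏ i, (1 - C (f i) * X) = revPoly p a b := by
  apply Polynomial.funext
  intro z
  by_cases hz : z = 0
  · subst hz
    simp [revPoly, eval_prod]
  · have h1 := congrArg (fun q : ℂ[X] => z ^ 4 * q.eval z⁻¹) hf
    simp only [frobPoly, eval_prod, Fin.prod_univ_four, eval_sub, eval_add, eval_mul, eval_pow,
      eval_X, eval_C] at h1
    simp only [revPoly, eval_prod, Fin.prod_univ_four, eval_sub, eval_add, eval_mul, eval_pow,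
      eval_X, eval_C, eval_one]
    have h2 : z ^ 4 * ((z⁻¹ - f 0) * (z⁻¹ - f 1) * (z⁻¹ - f 2) * (z⁻¹ - f 3)) =
        (1 - f 0 * z) * (1 - f 1 * z) * (1 - f 2 * z) * (1 - f 3 * z) := by
      field_simp
    have h3 : z ^ 4 * (z⁻¹ ^ 4 - a * z⁻¹ ^ 3 + b * z⁻¹ ^ 2 - (p : ℂ) * a * z⁻¹ + (p : ℂ) ^ 2) =
        1 - a * z + b * z ^ 2 - (p : ℂ) * a * z ^ 3 + (p : ℂ) ^ 2 * z ^ 4 := by
      field_simp
    rw [← h2, ← h3, h1]

theorem alp_main {F : Type} [Field F] [NumberField F] (p : ℕ) (a b : F) :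
    ∃ α : Fin (4 * Module.finrank ℚ F) → ℂ,
      (∀ m : ℕ, powSum p a b m = ∑ i, α i ^ m) ∧
      (∏ i, (1 - C (α i) * X) = ∏ σ : F →+* ℂ, revPoly p (σ a) (σ b)) ∧
      ∀ σ : F →+* ℂ, ∀ z : ℂ, (frobPoly p (σ a) (σ b)).IsRoot z → ∃ i, α i = z := by
  choose f hf hf' using fun σ : F →+* ℂ => alp_fin4 p (σ a) (σ b)
  have hcard : Fintype.card ((F →+* ℂ) × Fin 4) = Fintype.card (Fin (4 * Module.finrank ℚ F)) := by
    rw [Fintype.card_prod, Fintype.card_fin, Fintype.card_fin, NumberField.Embeddings.card,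
      mul_comm]
  let e : ((F →+* ℂ) × Fin 4) ≃ Fin (4 * Module.finrank ℚ F) := Fintype.equivOfCardEq hcard
  refine ⟨fun i => f (e.symm i).1 (e.symm i).2, ?_, ?_, ?_⟩
  · intro m
    rw [Equiv.sum_comp e.symm (fun x => f x.1 x.2 ^ m), Fintype.sum_prod_type]
    unfold powSum
    apply Finset.sum_congr rfl
    intro σ _
    rw [hf σ, Multiset.map_map]
    rfl
  · rw [Equiv.prod_comp e.symm (fun x => (1 - C (f x.1 x.2) * X : ℂ[X])), Fintype.prod_prod_type]
    apply Finset.prod_congr rfl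
    intro σ _
    exact alp_rev p _ _ (f σ) (hf' σ)
  · intro σ z hz
    rw [hf' σ, IsRoot.def, eval_prod, Finset.prod_eq_zero_iff] at hz
    obtain ⟨j, _, hj⟩ := hz
    refine ⟨e (σ, j), ?_⟩
    simp only [Equiv.symm_apply_apply]
    simp only [eval_sub, eval_X, eval_C] at hj
    exact (sub_eq_zero.1 hj).symm

end Pool.Agent.H99.RM
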