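import Mathlib

/-!
# Project MP_17d720_RM, module Hdb: Hasse derivatives, Frobenius powers and roots

Auxiliary lemmas: prefix hdb_. `n = f.natDegree`.

`hd_frob`: `q = #F` (`q` is a power of the characteristic). `hasseDeriv k (u * X^(q j)) =
∑_i hasseDeriv (k-i) u * hasseDeriv i (X^(q j))`, and for `0 < i < q` the binomial coefficient
`(q j choose i)` vanishes in `F`: e.g. `taylor a (X^(q j)) = (X + C a)^(q j) = (X^q + C (a^q))^j` has
zero coefficients at `0 < i < q`; or `Nat.Prime.dvd_choose...`/Lucas. Here only `hasseDeriv i (X^(qj))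
= choose (q j) i * X^(q j - i)` (`hasseDeriv_monomial`) is needed: from
`(X + 1)^(q j) = (X^q + 1)^j` (`add_pow_card...`, `FiniteField.card'`, `add_pow_char_pow`) compare
coefficients.

`hd_root`: `(X - C a)^l ∣ h` iff all `hasseDeriv k h`, `k < l`, vanish at `a`: `taylor a h` has
coefficients `(hasseDeriv k h).eval a` (`taylor_coeff`), `X^l ∣ taylor a h` iff the first `l`
coefficients vanish (`X_pow_dvd_iff`), and apply the ring isomorphism `taylor (-a)`
(`taylorAlgEquiv`, `taylor_X_pow...`).
-/

namespace Pool.Agent.H99.RM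

open Polynomial Finset

theorem hdb_choose {F : Type} [Field F] [Fintype F] (i j : ℕ) (h0 : i ≠ 0)
    (hi : i < Fintype.card F) : (((Fintype.card F * j).choose i : ℕ) : F) = 0 := by
  have h1 : ((X + 1 : F[X]) ^ (Fintype.card F * j)) =
      expand F (Fintype.card F) ((X + 1) ^ j) := by
    rw [FiniteField.expand_card, ← pow_mul, mul_comm j]
  rw [← coeff_X_add_one_pow, h1, coeff_expand Fintype.card_pos, if_neg]
  intro h
  exact absurd (Nat.le_of_dvd (Nat.pos_of_ne_zero h0) h) (not_le.2 hi)

theorem hd_frob {F : Type} [Field F] [Fintype F] (u : F[X]) (k j : ℕ) (hk : k < Fintype.card F) :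
    hasseDeriv k (u * X ^ (Fintype.card F * j)) = hasseDeriv k u * X ^ (Fintype.card F * j) := by
  rw [hasseDeriv_mul, Finset.sum_eq_single (k, 0)]
  · simp
  · rintro ⟨a, b⟩ hab hne
    rw [HasAntidiagonal.mem_antidiagonal] at hab
    simp only at hab ⊢
    have hb : b ≠ 0 := by
      rintro rfl
      exact hne (by rw [← hab]; rfl)
    rw [← monomial_one_right_eq_X_pow, hasseDeriv_monomial, hdb_choose b j hb (by omega)]
    simp
  · intro h
    exact absurd (HasAntidiagonal.mem_antidiagonal.2 (add_zero k)) h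

theorem hd_root {F : Type} [Field F] (h : F[X]) (a : F) (l : ℕ)
    (H : ∀ k < l, (hasseDeriv k h).eval a = 0) : (X - C a) ^ l ∣ h := by
  rw [X_sub_C_pow_dvd_iff, X_pow_dvd_iff]
  intro d hd
  rw [← taylor_apply, taylor_coeff]
  exact H d hd

end Pool.Agent.H99.RM
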