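import Pool.Agent.H99.RM.Hda
import Pool.Agent.H99.RM.Hdb

/-!
# Project MP_17d720_RM, module Axp: Stepanov's auxiliary polynomial

Auxiliary lemmas: prefix axp_. Let `q = #F` be odd, `n = natDegree f` odd, `n < q`,
`g = f^((q-1)/2)`, `D = (q - n)/2`, `a ∈ F`.

Unknowns: `r_j, s_j ∈ degreeLT F D` for `j < J`, a space of dimension `2 J D`. Conditions: for each
`k < l` the polynomial `Q_k = ∑_j (D_{l,k}(r_j) + a D_{l+(q-1)/2,k}(s_j)) X^j` is zero, where
`D_{M,k}` is the linear map of `hd_lin`. `Q_k` depends linearly on the unknowns and lies in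
`degreeLT F (D + k(n-1) + J)` (`D_{M,k}` maps `degreeLT F D` into `degreeLT F (D + k (n-1))`: for
`D ≥ 1` from the bound on natDegree; a zero polynomial is mapped to zero). Total number of linear
conditions `≤ ∑_{k<l} (D + k(n-1) + J) = l (D + J) + (n-1) (l(l-1)/2) < 2 J D`: so there is a nonzero
solution (`LinearMap.exists_ne_zero_of_finrank_lt...`, e.g. `LinearMap.ker_ne_bot_of_finrank_lt`;
`finrank (degreeLT F m) = m`, `Module.finrank_pi...`; coordinates `Fin J × Fin D → F` can be used
in place of `degreeLT`).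

Put `h = f^l * ∑_{j<J} (r_j + s_j g) X^(q j)`.

`h ≠ 0`: it suffices that the sum is nonzero. Its nonzero terms have distinct degrees: `r_j X^(qj)`
has degree in `[qj, qj + D)` and `s_j g X^(qj)` has degree
`deg s_j + n (q-1)/2 + q j = q (j + (n-1)/2) + D + deg s_j`, in `[q j' + D, q j' + 2 D)` with
`j' = j + (n-1)/2`, `2 D = q - n < q`. So the residues and quotients mod `q` distinguish all terms, and a
sum of nonzero polynomials with distinct degrees is nonzero (`degree_sum_eq_of_disjoint`, or take the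
term of largest degree).

`(X - C x)^l ∣ h` for `x` with `f(x) = 0` (`X - C x ∣ f`) or `g(x) = a`: by `hd_root`, for `k < l ≤ q`
evaluate `hasseDeriv k h` at `x`: `h = ∑_j (f^l r_j) X^(qj) + ∑_j (f^(l + (q-1)/2) s_j) X^(qj)`, so by
`hd_frob`, `hd_lin`: `hasseDeriv k h = ∑_j f^(l-k) D_{l,k}(r_j) X^(qj)
+ ∑_j f^(l-k) g D_{l+(q-1)/2,k}(s_j) X^(qj)` (`l + (q-1)/2 - k = (l-k) + (q-1)/2`). At `x`: `x^(qj) = x^j`
(`FiniteField.pow_card`), `g(x) = a`: the value is `f(x)^(l-k) Q_k(x) = 0`.

Degree: `l n + D + n (q-1)/2 + q J` is an upper bound.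
-/

namespace Pool.Agent.H99.RM

open Polynomial Finset

theorem axp_coeff {F : Type} [Field F] (q D J : ℕ) (hD : D ≤ q) (r : Fin J → F[X])
    (hr : ∀ j, r j ∈ degreeLT F D) (m : ℕ) :
    (∑ j : Fin J, r j * X ^ (q * (j : ℕ))).coeff m =
      if h : m / q < J then (r ⟨m / q, h⟩).coeff (m % q) else 0 := by
  have hr0 : ∀ j i, D ≤ i → (r j).coeff i = 0 := by
    intro j i hi
    apply coeff_eq_zero_of_degree_lt
    exact lt_of_lt_of_le (mem_degreeLT.mp (hr j)) (by exact_mod_cast hi)
  rcases Nat.eq_zero_or_pos q with hq | hq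
  · subst hq
    have hD0 : D = 0 := by omega
    subst hD0
    rw [finsetSum_coeff]
    have h1 : ∀ j : Fin J, (r j * X ^ (0 * (j : ℕ))).coeff m = 0 := by
      intro j
      rw [zero_mul, pow_zero, mul_one]
      exact hr0 j m (Nat.zero_le _)
    rw [Finset.sum_eq_zero (fun j _ => h1 j)]
    split_ifs with h
    · exact (hr0 _ _ (Nat.zero_le _)).symm
    · rfl
  rw [finsetSum_coeff]
  have hterm : ∀ j : Fin J, (j : ℕ) ≠ m / q → (r j * X ^ (q * (j : ℕ))).coeff m = 0 := by
    intro j hj
    rw [coeff_mul_X_pow']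
    split_ifs with h
    · apply hr0
      by_contra hcon
      push Not at hcon
      apply hj
      have h1 : m - q * j < q := lt_of_lt_of_le hcon hD
      symm
      apply Nat.div_eq_of_lt_le
      · rw [mul_comm]; exact h
      · rw [Nat.succ_mul, mul_comm]; omega
    · rfl
  split_ifs with h
  · rw [Finset.sum_eq_single (⟨m / q, h⟩ : Fin J)]
    · have h2 : q * (m / q) ≤ m := Nat.mul_div_le m q
      have h3 : m - q * (m / q) = m % q := by
        have := Nat.div_add_mod m q
        omega
      rw [coeff_mul_X_pow', if_pos h2, h3]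
    · intro j _ hj
      apply hterm
      intro hh
      exact hj (Fin.ext hh)
    · intro h
      exact absurd (Finset.mem_univ _) h
  · apply Finset.sum_eq_zero
    intro j _
    apply hterm
    intro hh
    exact h (hh ▸ j.2)

theorem axp_sum_zero {F : Type} [Field F] (q D J : ℕ) (hq : 0 < q) (hD : D ≤ q) (r : Fin J → F[X])
    (hr : ∀ j, r j ∈ degreeLT F D) (h0 : ∑ j : Fin J, r j * X ^ (q * (j : ℕ)) = 0) :
    ∀ j, r j = 0 := by
  intro j
  ext i
  rw [coeff_zero]
  by_cases hi : i < q
  · have h1 := axp_coeff q D J hD r hr (q * j + i)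
    have h2 : (q * (j : ℕ) + i) / q = j := by
      rw [Nat.mul_add_div hq, Nat.div_eq_of_lt hi, add_zero]
    have h3 : (q * (j : ℕ) + i) % q = i := by
      rw [Nat.mul_add_mod, Nat.mod_eq_of_lt hi]
    rw [h0, coeff_zero] at h1
    have h4 : (q * (j : ℕ) + i) / q < J := by rw [h2]; exact j.2
    rw [dif_pos h4] at h1
    have h5 : (⟨(q * (j : ℕ) + i) / q, h4⟩ : Fin J) = j := Fin.ext h2
    rw [h5, h3] at h1
    exact h1.symm
  · apply coeff_eq_zero_of_degree_lt
    refine lt_of_lt_of_le (mem_degreeLT.mp (hr j)) ?_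
    exact_mod_cast (by omega : D ≤ i)

theorem axp_mod {F : Type} [Field F] (q D J : ℕ) (hD : D ≤ q) (r : Fin J → F[X])
    (hr : ∀ j, r j ∈ degreeLT F D) (h0 : ∑ j : Fin J, r j * X ^ (q * (j : ℕ)) ≠ 0) :
    (∑ j : Fin J, r j * X ^ (q * (j : ℕ))).natDegree % q < D := by
  by_contra hcon
  push Not at hcon
  have h1 : (∑ j : Fin J, r j * X ^ (q * (j : ℕ))).leadingCoeff ≠ 0 :=
    leadingCoeff_ne_zero.mpr h0
  apply h1
  rw [leadingCoeff, axp_coeff q D J hD r hr]
  split_ifs with h
  · apply coeff_eq_zero_of_degree_lt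
    refine lt_of_lt_of_le (mem_degreeLT.mp (hr _)) ?_
    exact_mod_cast hcon
  · rfl

theorem axp_mem {F : Type} [Field F] (D : ℕ) (p : F[X]) (h : p.natDegree < D) :
    p ∈ degreeLT F D := by
  rw [mem_degreeLT]
  exact lt_of_le_of_lt degree_le_natDegree (by exact_mod_cast h)

theorem axp_lt {F : Type} [Field F] (D : ℕ) (hD : 0 < D) (p : F[X]) (h : p ∈ degreeLT F D) :
    p.natDegree < D := by
  rw [mem_degreeLT] at h
  by_cases hp : p = 0
  · rw [hp, natDegree_zero]; exact hD
  · rw [degree_eq_natDegree hp] at h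
    exact_mod_cast h

/-- Existence of a nonzero solution of the linear conditions. -/
theorem axp_solve {F : Type} [Field F] (D J l : ℕ) (hD : 0 < D) (hJ : 0 < J) (t : ℕ)
    (A B : ℕ → (F[X] →ₗ[F] F[X]))
    (hA : ∀ k < l, ∀ u, (A k u).natDegree ≤ k * t + u.natDegree)
    (hB : ∀ k < l, ∀ u, (B k u).natDegree ≤ k * t + u.natDegree)
    (hcount : l * (D + J) + t * (l * (l - 1) / 2) < 2 * J * D) :
    ∃ r s : Fin J → F[X], (∀ j, r j ∈ degreeLT F D) ∧ (∀ j, s j ∈ degreeLT F D) ∧
      ((∃ j, r j ≠ 0) ∨ (∃ j, s j ≠ 0)) ∧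
      ∀ k < l, ∑ j : Fin J, (A k (r j) + B k (s j)) * X ^ (j : ℕ) = 0 := by
  classical
  let V := (Fin J → degreeLT F D) × (Fin J → degreeLT F D)
  let W := (k : Fin l) → (Fin (D + k * t + J) → F)
  let Q : ℕ → V → F[X] := fun k v =>
    ∑ j : Fin J, (A k (v.1 j : F[X]) + B k (v.2 j : F[X])) * X ^ (j : ℕ)
  let Φ : V →ₗ[F] W :=
    { toFun := fun v k i => (Q k v).coeff i
      map_add' := by
        intro v w
        funext k i
        show (Q k (v + w)).coeff i = (Q k v).coeff i + (Q k w).coeff i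
        rw [← coeff_add]
        congr 1
        show ∑ j : Fin J, _ = ∑ j : Fin J, _ + ∑ j : Fin J, _
        rw [← Finset.sum_add_distrib]
        apply Finset.sum_congr rfl
        intro j _
        have h1 : (((v + w).1 j : degreeLT F D) : F[X]) = (v.1 j : F[X]) + (w.1 j : F[X]) := rfl
        have h2 : (((v + w).2 j : degreeLT F D) : F[X]) = (v.2 j : F[X]) + (w.2 j : F[X]) := rfl
        rw [h1, h2, map_add, map_add]
        ring
      map_smul' := by
        intro c v
        funext k i
        have key : Q k (c • v) = c • Q k v := ?_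
        · show (Q k (c • v)).coeff i = c * (Q k v).coeff i
          rw [key, coeff_smul, smul_eq_mul]
        show ∑ j : Fin J, _ = c • ∑ j : Fin J, _
        rw [Finset.smul_sum]
        apply Finset.sum_congr rfl
        intro j _
        have h1 : (((c • v).1 j : degreeLT F D) : F[X]) = c • (v.1 j : F[X]) := rfl
        have h2 : (((c • v).2 j : degreeLT F D) : F[X]) = c • (v.2 j : F[X]) := rfl
        rw [h1, h2, map_smul, map_smul, ← smul_add, smul_mul_assoc] }
  have hfin : FiniteDimensional F (degreeLT F D) :=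
    (degreeLTEquiv F D).symm.finiteDimensional
  have hrank : Module.finrank F (degreeLT F D) = D := by
    rw [(degreeLTEquiv F D).finrank_eq, Module.finrank_fin_fun]
  have hV : Module.finrank F V = 2 * J * D := by
    show Module.finrank F ((Fin J → degreeLT F D) × (Fin J → degreeLT F D)) = _
    rw [Module.finrank_prod, Module.finrank_pi_fintype, hrank]
    simp only [Finset.sum_const, Finset.card_univ, Fintype.card_fin, smul_eq_mul]
    ring
  have hW : Module.finrank F W = l * (D + J) + t * (l * (l - 1) / 2) := by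
    show Module.finrank F ((k : Fin l) → (Fin (D + k * t + J) → F)) = _
    rw [Module.finrank_pi_fintype]
    simp only [Module.finrank_fin_fun]
    rw [Fin.sum_univ_eq_sum_range (fun k => D + k * t + J) l]
    rw [← Finset.sum_range_id l, Finset.mul_sum]
    have : ∀ k, D + k * t + J = (D + J) + t * k := fun k => by ring
    rw [Finset.sum_congr rfl (fun k _ => this k), Finset.sum_add_distrib, Finset.sum_const,
      Finset.card_range, smul_eq_mul]
  have hker : LinearMap.ker Φ ≠ ⊥ := by
    apply LinearMap.ker_ne_bot_of_finrank_lt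
    rw [hV, hW]
    exact hcount
  obtain ⟨v, hv, hv0⟩ := Submodule.exists_mem_ne_zero_of_ne_bot hker
  refine ⟨fun j => (v.1 j : F[X]), fun j => (v.2 j : F[X]), fun j => (v.1 j).2, fun j => (v.2 j).2,
    ?_, ?_⟩
  · by_contra hcon
    push Not at hcon
    apply hv0
    refine Prod.ext ?_ ?_
    · funext j; exact Subtype.ext (hcon.1 j)
    · funext j; exact Subtype.ext (hcon.2 j)
  · intro k hk
    have h1 : Φ v = 0 := hv
    have hdeg : (Q k v).natDegree < D + k * t + J := by
      refine lt_of_le_of_lt (natDegree_sum_le_of_forall_le (n := D - 1 + k * t + (J - 1)) _ _ ?_)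
        (by omega)
      intro j _
      refine (natDegree_mul_le).trans ?_
      have e1 := axp_lt D hD _ (v.1 j).2
      have e2 := axp_lt D hD _ (v.2 j).2
      have e3 := hA k hk (v.1 j : F[X])
      have e4 := hB k hk (v.2 j : F[X])
      have e5 := natDegree_add_le (A k (v.1 j : F[X])) (B k (v.2 j : F[X]))
      have e6 : (X ^ (j : ℕ) : F[X]).natDegree = j := natDegree_X_pow _
      have e7 := j.2
      have e8 : max (A k (v.1 j : F[X])).natDegree (B k (v.2 j : F[X])).natDegree
          ≤ k * t + (D - 1) := by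
        apply max_le <;> omega
      omega
    show Q k v = 0
    ext i
    rw [coeff_zero]
    by_cases hi : i < D + k * t + J
    · have h2 := congrFun (congrFun h1 ⟨k, hk⟩) ⟨i, hi⟩
      exact h2
    · apply coeff_eq_zero_of_natDegree_lt
      omega

theorem axp_ne {F : Type} [Field F] (q n D J : ℕ) (hn : Odd n) (hq : Odd q) (hnq : n + 2 ≤ q)
    (hD : D = (q - n) / 2) (g : F[X]) (hg : g.natDegree = n * ((q - 1) / 2)) (hg0 : g ≠ 0)
    (r s : Fin J → F[X])
    (hr : ∀ j, r j ∈ degreeLT F D) (hs : ∀ j, s j ∈ degreeLT F D)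
    (hrs : (∃ j, r j ≠ 0) ∨ (∃ j, s j ≠ 0)) :
    ∑ j : Fin J, (r j + s j * g) * X ^ (q * (j : ℕ)) ≠ 0 := by
  intro h0
  obtain ⟨a, ha⟩ := hn
  obtain ⟨b, hb⟩ := hq
  have hDq : D ≤ q := by omega
  have hD1 : 0 < D := by omega
  have hsplit : ∑ j : Fin J, (r j + s j * g) * X ^ (q * (j : ℕ)) =
      ∑ j : Fin J, r j * X ^ (q * (j : ℕ)) + (∑ j : Fin J, s j * X ^ (q * (j : ℕ))) * g := by
    rw [Finset.sum_mul, ← Finset.sum_add_distrib]
    apply Finset.sum_congr rfl
    intro j _
    ring
  rw [hsplit] at h0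
  set R := ∑ j : Fin J, r j * X ^ (q * (j : ℕ)) with hR
  set S := ∑ j : Fin J, s j * X ^ (q * (j : ℕ)) with hS
  by_cases hS0 : S = 0
  · have hR0 : R = 0 := by rw [hS0, zero_mul, add_zero] at h0; exact h0
    have h1 := axp_sum_zero q D J (by omega) hDq r hr hR0
    have h2 := axp_sum_zero q D J (by omega) hDq s hs hS0
    rcases hrs with ⟨j, hj⟩ | ⟨j, hj⟩
    · exact hj (h1 j)
    · exact hj (h2 j)
  · have hR1 : R = -(S * g) := eq_neg_of_add_eq_zero_left h0
    have hR0 : R ≠ 0 := by
      rw [hR1]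
      exact neg_ne_zero.mpr (mul_ne_zero hS0 hg0)
    have h1 := axp_mod q D J hDq r hr hR0
    have h2 := axp_mod q D J hDq s hs hS0
    rw [← hR] at h1
    rw [← hS] at h2
    rw [hR1, natDegree_neg, natDegree_mul hS0 hg0, hg] at h1
    have h3 : n * ((q - 1) / 2) = q * a + D := by
      have e1 : (q - 1) / 2 = b := by omega
      have e2 : b - a = D := by omega
      rw [e1, ha, hb, ← e2]
      have e3 : a ≤ b := by omega
      zify [e3]
      ring
    have h4 : S.natDegree = q * (S.natDegree / q) + S.natDegree % q := (Nat.div_add_mod _ _).symm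
    have h5 : S.natDegree + n * ((q - 1) / 2) =
        q * (S.natDegree / q + a) + (S.natDegree % q + D) := by
      rw [h3, mul_add]; omega
    rw [h5, Nat.mul_add_mod, Nat.mod_eq_of_lt (by omega)] at h1
    omega

theorem axp_main {F : Type} [Field F] [Fintype F] (f : F[X]) (hn : Odd f.natDegree)
    (hq : Odd (Fintype.card F)) (hnq : f.natDegree + 2 ≤ Fintype.card F) (a : F) (l J : ℕ)
    (hl : l ≤ Fintype.card F)
    (hcount : l * ((Fintype.card F - f.natDegree) / 2 + J) +
      (f.natDegree - 1) * (l * (l - 1) / 2) < 2 * J * ((Fintype.card F - f.natDegree) / 2)) :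
    ∃ h : F[X], h ≠ 0 ∧
      h.natDegree ≤ l * f.natDegree + (Fintype.card F - f.natDegree) / 2 +
        f.natDegree * ((Fintype.card F - 1) / 2) + Fintype.card F * J ∧
      ∀ x : F, (f.eval x = 0 ∨ (f.eval x) ^ ((Fintype.card F - 1) / 2) = a) →
        (X - C x) ^ l ∣ h := by
  classical
  set q := Fintype.card F with hqdef
  set n := f.natDegree with hndef
  set D := (q - n) / 2 with hDdef
  set e := (q - 1) / 2 with hedef
  have hn1 : 1 ≤ n := by
    obtain ⟨c, hc⟩ := hn
    omega
  have hf0 : f ≠ 0 := by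
    intro h
    rw [h, natDegree_zero] at hndef
    omega
  have hD1 : 0 < D := by
    obtain ⟨c, hc⟩ := hn
    obtain ⟨d, hd⟩ := hq
    omega
  have hJ1 : 0 < J := by
    rcases Nat.eq_zero_or_pos J with h | h
    · rw [h] at hcount; simp at hcount
    · exact h
  -- the linear maps
  have HA : ∀ k, ∃ A : F[X] →ₗ[F] F[X], k < l →
      (∀ u, hasseDeriv k (f ^ l * u) = f ^ (l - k) * A u) ∧
      ∀ u, (A u).natDegree ≤ k * (n - 1) + u.natDegree := by
    intro k
    by_cases hk : k < l
    · obtain ⟨A, hA⟩ := hd_lin f hn1 l k hk.le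
      exact ⟨A, fun _ => hA⟩
    · exact ⟨0, fun h => absurd h hk⟩
  have HB : ∀ k, ∃ A : F[X] →ₗ[F] F[X], k < l →
      (∀ u, hasseDeriv k (f ^ (l + e) * u) = f ^ (l + e - k) * A u) ∧
      ∀ u, (A u).natDegree ≤ k * (n - 1) + u.natDegree := by
    intro k
    by_cases hk : k < l
    · obtain ⟨A, hA⟩ := hd_lin f hn1 (l + e) k (by omega)
      exact ⟨A, fun _ => hA⟩
    · exact ⟨0, fun h => absurd h hk⟩
  choose A hA using HA
  choose B hB using HB
  obtain ⟨r, s, hr, hs, hrs, hsol⟩ := axp_solve D J l hD1 hJ1 (n - 1) A (fun k => a • B k)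
    (fun k hk u => (hA k hk).2 u)
    (fun k hk u => by
      show (a • B k u).natDegree ≤ _
      exact (natDegree_smul_le _ _).trans ((hB k hk).2 u)) hcount
  have hgdeg : (f ^ e).natDegree = n * e := by rw [natDegree_pow, mul_comm]
  have hne := axp_ne q n D J hn hq hnq hDdef (f ^ e) hgdeg (pow_ne_zero _ hf0) r s hr hs hrs
  refine ⟨f ^ l * ∑ j : Fin J, (r j + s j * f ^ e) * X ^ (q * (j : ℕ)),
    mul_ne_zero (pow_ne_zero _ hf0) hne, ?_, ?_⟩
  · refine (natDegree_mul_le).trans ?_
    have h1 : (f ^ l).natDegree = l * n := by rw [natDegree_pow]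
    have h2 : (∑ j : Fin J, (r j + s j * f ^ e) * X ^ (q * (j : ℕ))).natDegree ≤
        D + n * e + q * J := by
      apply natDegree_sum_le_of_forall_le
      intro j _
      refine (natDegree_mul_le).trans ?_
      have e1 := axp_lt D hD1 _ (hr j)
      have e2 := axp_lt D hD1 _ (hs j)
      have e3 : (s j * f ^ e).natDegree ≤ D + n * e := by
        refine (natDegree_mul_le).trans ?_
        rw [hgdeg]
        omega
      have e5 := natDegree_add_le (r j) (s j * f ^ e)
      have e6 : (X ^ (q * (j : ℕ)) : F[X]).natDegree = q * j := natDegree_X_pow _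
      have e7 : q * (j : ℕ) ≤ q * J := Nat.mul_le_mul_left _ j.2.le
      have e8 : max (r j).natDegree (s j * f ^ e).natDegree ≤ D + n * e := by
        apply max_le <;> omega
      omega
    omega
  · intro x hx
    apply hd_root
    intro k hk
    have hkq : k < Fintype.card F := by omega
    have hsplit : f ^ l * ∑ j : Fin J, (r j + s j * f ^ e) * X ^ (q * (j : ℕ)) =
        ∑ j : Fin J, ((f ^ l * r j) * X ^ (q * (j : ℕ)) +
          (f ^ (l + e) * s j) * X ^ (q * (j : ℕ))) := by
      rw [Finset.mul_sum]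
      apply Finset.sum_congr rfl
      intro j _
      rw [pow_add]; ring
    rw [hsplit, map_sum, eval_finsetSum]
    have hx' : ∀ j : ℕ, x ^ (q * j) = x ^ j := by
      intro j
      rw [pow_mul, hqdef, FiniteField.pow_card]
    have hterm : ∀ j : Fin J, (hasseDeriv k ((f ^ l * r j) * X ^ (q * (j : ℕ)) +
          (f ^ (l + e) * s j) * X ^ (q * (j : ℕ)))).eval x =
        (f.eval x) ^ (l - k) * (((A k (r j) + (a • B k) (s j)) * X ^ (j : ℕ)).eval x) := by
      intro j
      rw [map_add, hd_frob _ k j hkq, hd_frob _ k j hkq, (hA k hk).1, (hB k hk).1]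
      simp only [eval_add, eval_mul, eval_pow, eval_X, LinearMap.smul_apply, eval_smul,
        smul_eq_mul, ← hqdef, hx']
      rcases hx with hx | hx
      · have e1 : l - k ≠ 0 := by omega
        have e2 : l + e - k ≠ 0 := by omega
        rw [hx, zero_pow e1, zero_pow e2]
        ring
      · have e1 : l + e - k = (l - k) + e := by omega
        rw [e1, pow_add, hx]
        ring
    rw [Finset.sum_congr rfl (fun j _ => hterm j), ← Finset.mul_sum, ← eval_finsetSum, hsol k hk,
      eval_zero, mul_zero]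

end Pool.Agent.H99.RM
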