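import Pool.Agent.H99.RM.Chr

/-!
# Project MP_17d720_RM, module Chp: quadratic characters and minimal polynomials

Auxiliary lemmas: prefix chp_. `chr_norm` (module Chr) may be used.

`chr_prod`: with `y = ∏ i, (x - r i)`: `χ_F y = ∏ χ_K (Norm (x - r i))`. For `x ∈ F` with minimal
polynomial `P` over `K` of degree `d` (`d ∣ m`), `Norm (r - x) = P(r)^(m/d)`: the characteristic
polynomial of multiplication by `x` is `P^(m/d)` (`Algebra.charpoly...`,
`charpoly_leftMulMatrix`, `LinearMap.charpoly`), or: `Norm (r - x) = Norm_{K(x)/K}(r - x)^(m/d)`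
(`Algebra.norm_eq_norm_adjoin`) and `Norm_{K(x)/K}(r - x) = P(r)`, or via the product over the
conjugates `x^(q^i)`. `χ_K(-1) = 1` because `4 ∣ q - 1`.
-/

namespace Pool.Agent.H99.RM

open Polynomial Finset

variable {K : Type} [Field K] [Fintype K] [DecidableEq K] {F : Type} [Field F] [Fintype F]
  [DecidableEq F] [Algebra K F]

omit [DecidableEq K] [DecidableEq F] [Fintype K] in
theorem chp_norm (x : F) (r : K) :
    Algebra.norm K (x - algebraMap K F r) = (-1) ^ Module.finrank K F *
      ((minpoly K x) ^ (Module.finrank K F / (minpoly K x).natDegree)).eval r := by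
  have hint : IsIntegral K x := Algebra.IsIntegral.isIntegral x
  set z := x - algebraMap K F r with hz
  have hintz : IsIntegral K z := Algebra.IsIntegral.isIntegral z
  have hmp : minpoly K z = (minpoly K x).comp (X + C r) := minpoly.sub_algebraMap x r
  have hdz : (minpoly K z).natDegree = (minpoly K x).natDegree := by
    rw [hmp, natDegree_comp, natDegree_X_add_C, mul_one]
  have hpos : 0 < (minpoly K x).natDegree := minpoly.natDegree_pos hint
  have hfr : Module.finrank K (IntermediateField.adjoin K {z}) = (minpoly K x).natDegree := by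
    rw [IntermediateField.adjoin.finrank hintz, hdz]
  have hmul : (minpoly K x).natDegree * Module.finrank (IntermediateField.adjoin K {z}) F =
      Module.finrank K F := by
    rw [← hfr]; exact Module.finrank_mul_finrank _ _ _
  have hdiv : Module.finrank K F / (minpoly K x).natDegree =
      Module.finrank (IntermediateField.adjoin K {z}) F := by
    rw [← hmul, Nat.mul_div_cancel_left _ hpos]
  have hgen : Algebra.norm K (IntermediateField.AdjoinSimple.gen K z) =
      (-1) ^ (minpoly K x).natDegree * (minpoly K x).eval r := by
    have h1 := Algebra.PowerBasis.norm_gen_eq_coeff_zero_minpoly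
      (IntermediateField.adjoin.powerBasis hintz)
    rw [IntermediateField.adjoin.powerBasis_gen, IntermediateField.adjoin.powerBasis_dim,
      IntermediateField.minpoly_gen, hdz, hmp, coeff_zero_eq_eval_zero, eval_comp] at h1
    simpa using h1
  rw [Algebra.norm_eq_norm_adjoin, hgen, hdiv, eval_pow, mul_pow, ← pow_mul, hmul]

theorem chr_prod (hq : 4 ∣ Fintype.card K - 1) {n : ℕ} (r : Fin n → K) (x : F) :
    quadraticChar F (∏ i, (x - algebraMap K F (r i))) =
      ∏ i, quadraticChar K
        (((minpoly K x) ^ (Module.finrank K F / (minpoly K x).natDegree)).eval (r i)) := by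
  have hcard : 1 < Fintype.card K := Fintype.one_lt_card
  have hK : ringChar K ≠ 2 := by
    intro h
    have h1 := FiniteField.even_card_of_char_two h
    omega
  have hm1 : quadraticChar K (-1) = 1 := by
    rw [quadraticChar_one_iff_isSquare (by simp)]
    rw [FiniteField.isSquare_neg_one_iff]
    omega
  rw [map_prod]
  refine Finset.prod_congr rfl fun i _ => ?_
  rw [chr_norm hK, chp_norm, map_mul, map_pow, hm1, one_pow, one_mul]

end Pool.Agent.H99.RM
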