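import Pool.Agent.H99.RM.Defs

/-!
# MP_17d720_ag: the hyperelliptic curve `y² = ∏ (x - e i)` and its reductions

`e : Fin (2 g + 1) → ℤ`, the curve has genus `g`; its Weierstrass points are the points
`(e i, 0)` and the point at infinity.
-/

namespace Pool.Agent.H99.RM

open Polynomial NumberField

/-- The curve `y² = ∏ (x - e i)` has good reduction at the odd prime `p`: the `e i` are pairwise
incongruent modulo `p`. -/
def GoodAt {n : ℕ} (e : Fin n → ℤ) (p : ℕ) : Prop :=
  p ≠ 2 ∧ ∀ i j, i ≠ j → ¬ (p : ℤ) ∣ e i - e j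

/-- The number of affine points of `y² = ∏ (x - e i)` over the field with `p ^ m` elements. -/
noncomputable def affinePoints {n : ℕ} (e : Fin n → ℤ) (p : ℕ) [Fact p.Prime] (m : ℕ) : ℕ :=
  Nat.card {P : GaloisField p m × GaloisField p m //
    P.2 ^ 2 = ∏ i, (P.1 - ((e i : ℤ) : GaloisField p m))}

/-- The eigenvalues of Frobenius on the Jacobian of the reduction of `y² = ∏ (x - e i)` at `p` are
the roots of the conjugates of `X⁴ - a X³ + b X² - p a X + p²`, `a, b ∈ 𝓞 F`: for all `m ≥ 1` the
number of points over the field with `p ^ m` elements is `p ^ m + 1` minus the sum of the `m`-th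
powers of these roots. -/
def FrobeniusData {F : Type} [Field F] [NumberField F] {n : ℕ} (e : Fin n → ℤ) (p : ℕ)
    [Fact p.Prime] (a b : 𝓞 F) : Prop :=
  ∀ m : ℕ, 0 < m →
    (affinePoints e p m : ℂ) + 1 = (p : ℂ) ^ m + 1 - powSum p (a : F) (b : F) m

/-- `p` is a prime of good ordinary reduction: the Cartier-Manin matrix is invertible. -/
def OrdinaryAt (g : ℕ) (e : Fin (2 * g + 1) → ℤ) (p : ℕ) : Prop :=
  GoodAt e p ∧ (cm (p := p) g (fun i => ((e i : ℤ) : ZMod p))).det ≠ 0

end Pool.Agent.H99.RM
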