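import Pool.Agent.H17.PNT

/-!
# Project MP_17d720_RM, module Den: positive lower density from a residue class

Auxiliary lemmas: prefix den_. Proof. Let `π(x)` be the number of primes `≤ x` and `π_c(x)` the number
of primes `≤ x` congruent to `c` mod `M`. By `Pool.Agent.H17` (`piAP_tendsto`, see the namespace in
`Pool/Agent/H17/PNT.lean`), `π_c(x) log x / x → 1/φ(M)` and (the case `q = 1`) `π(x) log x / x → 1`, so
`π_c(x)/π(x) → 1/φ(M) > 0`. The set `S` contains all primes `p ≡ c mod M` with `p > B`, so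
`#(S ∩ [1,x]) ≥ π_c(x) - B`, and the quotient by `π(x) → ∞` has `liminf ≥ 1/φ(M)`.
(`Filter.le_liminf_of_le`, boundedness by `1` is needed for the `liminf` in `ℝ`:
`isBoundedDefault`, `isCoboundedUnder`...)
-/

namespace Pool.Agent.H99.RM

open Filter Finset Topology

theorem den_main (S : Set ℕ) (M B c : ℕ) (hM : 0 < M) (hc : c.Coprime M)
    (hS : ∀ p : ℕ, p.Prime → B < p → p ≡ c [MOD M] → p ∈ S) :
    0 < liminf (fun x : ℕ =>
      (Nat.card {p : ℕ // p ≤ x ∧ p.Prime ∧ p ∈ S} : ℝ) / (Nat.card {p : ℕ // p ≤ x ∧ p.Prime} : ℝ))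
      atTop := by
  classical
  have hMz : NeZero M := ⟨hM.ne'⟩
  have hu : IsUnit ((c : ℕ) : ZMod M) := (ZMod.isUnit_iff_coprime c M).2 hc
  have h1 := (Pool.Agent.H17.piAP_tendsto hu).comp tendsto_natCast_atTop_atTop
  have h2 := Pool.Agent.H17.pi_tendsto.comp tendsto_natCast_atTop_atTop
  have hcard : ∀ x : ℕ, (Nat.card {p : ℕ // p ≤ x ∧ p.Prime} : ℝ) = (Nat.primeCounting x : ℝ) := by
    intro x
    rw [← Nat.primesLE_card_eq_primeCounting, Nat.subtype_card (Nat.primesLE x)]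
    intro p
    rw [Nat.mem_primesLE]
  have hcardS : ∀ x : ℕ, (Nat.card {p : ℕ // p ≤ x ∧ p.Prime ∧ p ∈ S} : ℝ) =
      (((Icc 1 x).filter (fun p => p.Prime ∧ p ∈ S)).card : ℝ) := by
    intro x
    rw [Nat.subtype_card ((Icc 1 x).filter (fun p => p.Prime ∧ p ∈ S))]
    intro p
    rw [mem_filter, mem_Icc]
    constructor
    · rintro ⟨⟨-, h⟩, h'⟩; exact ⟨h, h'⟩
    · rintro ⟨h, h'⟩; exact ⟨⟨h'.1.pos, h⟩, h'⟩
  have hlow : ∀ x : ℕ, (Pool.Agent.H17.piAP ((c : ℕ) : ZMod M) (x : ℝ) : ℝ) - B ≤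
      (((Icc 1 x).filter (fun p => p.Prime ∧ p ∈ S)).card : ℝ) := by
    intro x
    have hsub : (Icc 1 x).filter (fun p : ℕ => p.Prime ∧ (p : ZMod M) = ((c : ℕ) : ZMod M)) ⊆
        (Icc 1 x).filter (fun p => p.Prime ∧ p ∈ S) ∪ Icc 1 B := by
      intro p hp
      rw [mem_filter, mem_Icc] at hp
      rw [mem_union, mem_filter, mem_Icc, mem_Icc]
      by_cases hpB : p ≤ B
      · exact Or.inr ⟨hp.1.1, hpB⟩
      · refine Or.inl ⟨hp.1, hp.2.1, hS p hp.2.1 (by omega) ?_⟩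
        exact (ZMod.natCast_eq_natCast_iff _ _ _).1 hp.2.2
    have h3 := (card_le_card hsub).trans (card_union_le _ _)
    rw [Nat.card_Icc] at h3
    have h4 : Pool.Agent.H17.piAP ((c : ℕ) : ZMod M) (x : ℝ) =
        ((Icc 1 x).filter (fun p : ℕ => p.Prime ∧ (p : ZMod M) = ((c : ℕ) : ZMod M))).card := by
      unfold Pool.Agent.H17.piAP
      rw [Nat.floor_natCast]
    rw [h4]
    have h5 : (((Icc 1 x).filter (fun p : ℕ => p.Prime ∧ (p : ZMod M) = ((c : ℕ) : ZMod M))).card : ℝ) ≤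
        (((Icc 1 x).filter (fun p => p.Prime ∧ p ∈ S)).card : ℝ) + B := by
      exact_mod_cast h3
    linarith
  have hφ : (0 : ℝ) < (M.totient : ℝ)⁻¹ := by
    have := Nat.totient_pos.2 hM
    positivity
  -- the quotient tends to `1 / φ`
  have h3 : Tendsto (fun x : ℕ => (B : ℝ) * Real.log x / x) atTop (𝓝 0) := by
    have h4 : Tendsto (fun x : ℝ => Real.log x / x) atTop (𝓝 0) := by
      have := Real.isLittleO_log_id_atTop.tendsto_div_nhds_zero
      exact this
    have h5 := (h4.comp (tendsto_natCast_atTop_atTop (R := ℝ))).const_mul (B : ℝ)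
    rw [mul_zero] at h5
    refine h5.congr (fun x => ?_)
    simp only [Function.comp]
    ring
  have h4 := (h1.sub h3).div h2 one_ne_zero
  simp only [sub_zero, div_one] at h4
  have h5 : ∀ᶠ x : ℕ in atTop, (M.totient : ℝ)⁻¹ / 2 ≤
      (Nat.card {p : ℕ // p ≤ x ∧ p.Prime ∧ p ∈ S} : ℝ) / (Nat.card {p : ℕ // p ≤ x ∧ p.Prime} : ℝ) := by
    filter_upwards [h4.eventually (lt_mem_nhds (by linarith : (M.totient : ℝ)⁻¹ / 2 < (M.totient : ℝ)⁻¹)),
      eventually_ge_atTop 2] with x hx hx2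
    rw [hcard, hcardS]
    have hx0 : (0 : ℝ) < x := by positivity
    have hlx : 0 < Real.log x := Real.log_pos (by exact_mod_cast hx2)
    have hpi : (0 : ℝ) < (Nat.primeCounting x : ℝ) := by
      have : 0 < Nat.primeCounting x := by
        have h6 := Nat.monotone_primeCounting hx2
        have h7 : Nat.primeCounting 2 = 1 := by decide
        omega
      exact_mod_cast this
    refine hx.le.trans ?_
    simp only [Function.comp, Pi.div_apply, Nat.floor_natCast]
    rw [div_le_div_iff₀ (by positivity) hpi]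
    have h8 := hlow x
    have h9 : ((Pool.Agent.H17.piAP ((c : ℕ) : ZMod M) (x : ℝ) : ℝ) * Real.log x / x - B * Real.log x / x) =
        ((Pool.Agent.H17.piAP ((c : ℕ) : ZMod M) (x : ℝ) : ℝ) - B) * (Real.log x / x) := by ring
    rw [h9]
    calc ((Pool.Agent.H17.piAP ((c : ℕ) : ZMod M) (x : ℝ) : ℝ) - B) * (Real.log x / x) * (Nat.primeCounting x : ℝ)
        ≤ (((Icc 1 x).filter (fun p => p.Prime ∧ p ∈ S)).card : ℝ) * (Real.log x / x) * (Nat.primeCounting x : ℝ) := by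
          gcongr
      _ = _ := by ring
  have hb : IsBoundedUnder (· ≤ ·) atTop (fun x : ℕ =>
      (Nat.card {p : ℕ // p ≤ x ∧ p.Prime ∧ p ∈ S} : ℝ) / (Nat.card {p : ℕ // p ≤ x ∧ p.Prime} : ℝ)) := by
    refine isBoundedUnder_of ⟨1, fun x => ?_⟩
    rw [hcard, hcardS]
    apply div_le_one_of_le₀ _ (Nat.cast_nonneg _)
    rw [← Nat.primesLE_card_eq_primeCounting]
    have : (Icc 1 x).filter (fun p => p.Prime ∧ p ∈ S) ⊆ Nat.primesLE x := by
      intro p hp
      rw [mem_filter, mem_Icc] at hp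
      rw [Nat.mem_primesLE]
      exact ⟨hp.1.2, hp.2.1⟩
    exact_mod_cast card_le_card this
  have h6 := le_liminf_of_le hb.isCoboundedUnder_ge h5
  linarith

end Pool.Agent.H99.RM
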