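import Mathlib

/-!
# Project MP_17d720_RM, module Sym: quadratic symbols are periodic

Auxiliary lemmas: prefix sym_. Proof. For an odd prime `p`, `quadraticChar (ZMod p) z =
legendreSym p z = jacobiSym z p` (`legendreSym`, `jacobiSym.legendreSym.to_jacobiSym`), and
`jacobiSym z b = jacobiSym z (b % (4 * z.natAbs))` for odd `b` (`jacobiSym.mod_right`). If
`p ≡ q mod M` and `4 * z.natAbs ∣ M` both sides agree.

`sym_div`: if `p ≡ q mod M`, `z ∣ M`-type condition: `p ∤ z` transfers is not needed here.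
-/

namespace Pool.Agent.H99.RM

theorem sym_main (p q : ℕ) [Fact p.Prime] [Fact q.Prime] (hp : p ≠ 2) (hq : q ≠ 2) (z : ℤ)
    (M : ℕ) (hM : 4 * z.natAbs ∣ M) (h : p ≡ q [MOD M]) :
    quadraticChar (ZMod p) (z : ZMod p) = quadraticChar (ZMod q) (z : ZMod q) := by
  have hpo : Odd p := (Fact.out : p.Prime).odd_of_ne_two hp
  have hqo : Odd q := (Fact.out : q.Prime).odd_of_ne_two hq
  have h1 : legendreSym p z = legendreSym q z := by
    rw [jacobiSym.legendreSym.to_jacobiSym, jacobiSym.legendreSym.to_jacobiSym,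
      jacobiSym.mod_right z hpo, jacobiSym.mod_right z hqo]
    have h2 : p ≡ q [MOD 4 * z.natAbs] := h.of_dvd hM
    rw [h2]
  exact h1

end Pool.Agent.H99.RM
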