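import Pool.Agent.H99.RM.Ptw
import Pool.Agent.H99.RM.Lnk
import Pool.Agent.H99.RM.Sym
import Pool.Agent.H99.RM.Den

/-!
# Project MP_17d720_RM, module Fin: positive density

Auxiliary lemmas: prefix fin_. Proof. Let `n = 2g+1`, `Π = ∏_{i} ∏_{j} (if i = j then 1 else
(e i - e j).natAbs)`, `M = 8 M₀ Π`, `B = Π`. `Π ≠ 0` by `GoodAt e p₀`. `p₀` is coprime to `M`
(odd, coprime to `M₀`, does not divide any `e i - e j`). Apply `den_main` with
`c = p₀`: let `p > B` be a prime, `p ≡ p₀ mod M`. Then `p % 8 = 5`, `p` is prime in `𝓞 F` (`hin`),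
`p ∤ e i - e j` (`0 < |e i - e j| ≤ Π < p`), so `GoodAt e p`; choose `a b` by `hRM`. Put
`r i = e i` in `ZMod p`, `r₀ i = e i` in `ZMod p₀` (injective by `GoodAt`). `lnk_main` turns
`FrobeniusData` into the hypothesis `hab` of `val_main`/`ptw_main`. By `sym_main` the symbols of
`e i - e j` at `p` and `p₀` agree, so `div_transfer` (`K = ZMod p₀`, `K' = ZMod p`, `S = univ`) gives
`2^(2g+1) ∣ LS r₀ - LS r`, and `LS r₀ univ ∅ (2g+1) = N(P₀(1))` by `val_main`, which is divisible by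
`N(32) = 2^(5d)`, `5 d ≥ 4 d + 1 = 2g+1`. So `2^(2g+1) ∣ LS r` and `ptw_main` gives the claim.
-/

namespace Pool.Agent.H99.RM

open NumberField Polynomial Finset Filter

/-- The product of the absolute values of the differences. -/
def fin_pi {n : ℕ} (e : Fin n → ℤ) : ℕ := ∏ i, ∏ j, (if i = j then 1 else (e i - e j).natAbs)

theorem fin_pi_dvd {n : ℕ} (e : Fin n → ℤ) (i j : Fin n) (h : i ≠ j) :
    (e i - e j).natAbs ∣ fin_pi e := by
  have h1 : (e i - e j).natAbs ∣ ∏ j', (if i = j' then 1 else (e i - e j').natAbs) := by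
    have := Finset.dvd_prod_of_mem (fun j' => if i = j' then 1 else (e i - e j').natAbs)
      (Finset.mem_univ j)
    simpa [h] using this
  exact h1.trans (Finset.dvd_prod_of_mem
    (fun i' => ∏ j', (if i' = j' then 1 else (e i' - e j').natAbs)) (Finset.mem_univ i))

theorem fin_pi_coprime {n : ℕ} (e : Fin n → ℤ) (p : ℕ) [hp : Fact p.Prime] (h : GoodAt e p) :
    p.Coprime (fin_pi e) := by
  unfold fin_pi
  apply Nat.Coprime.prod_right
  intro i _
  apply Nat.Coprime.prod_right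
  intro j _
  split_ifs with hij
  · exact Nat.coprime_one_right p
  · rw [Nat.Prime.coprime_iff_not_dvd hp.out]
    intro hd
    exact h.2 i j hij (Int.natCast_dvd.2 hd)

theorem fin_pi_ne {n : ℕ} (e : Fin n → ℤ) (p : ℕ) [hp : Fact p.Prime] (h : GoodAt e p) :
    fin_pi e ≠ 0 := by
  intro h0
  have := fin_pi_coprime e p h
  rw [h0, Nat.coprime_zero_right] at this
  exact hp.out.one_lt.ne' this

theorem fin_inj {n : ℕ} (e : Fin n → ℤ) (p : ℕ) (h : GoodAt e p) :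
    Function.Injective (fun i => ((e i : ℤ) : ZMod p)) := by
  intro i j hij
  by_contra hne
  exact h.2 j i (Ne.symm hne) ((ZMod.intCast_eq_intCast_iff_dvd_sub _ _ _).1 hij)

theorem fin_hab {F : Type} [Field F] [NumberField F] {n : ℕ} (e : Fin n → ℤ) (p : ℕ)
    [Fact p.Prime] (hp : p ≠ 2) (a b : 𝓞 F) (h : FrobeniusData e p a b) :
    ∀ m : ℕ, 0 < m → ((NG p m (fun i => ((e i : ℤ) : ZMod p)) : ℤ) : ℂ)
      = -powSum p (a : F) (b : F) m := by
  intro m hm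
  have h1 := h m hm
  have h2 := lnk_main e p hp m hm
  have h3 : ((affinePoints e p m : ℤ) : ℂ) = (((p : ℤ) ^ m
      + NG p m (fun i => ((e i : ℤ) : ZMod p)) : ℤ) : ℂ) := by rw [h2]
  push_cast at h3
  rw [h3] at h1
  linear_combination h1

theorem fin_main (F : Type) [Field F] [NumberField F] [IsTotallyReal F] (h2 : Prime (2 : 𝓞 F))
    (g : ℕ) (hg : g = 2 * Module.finrank ℚ F) (e : Fin (2 * g + 1) → ℤ)
    (hRM : ∀ (p : ℕ) [Fact p.Prime], GoodAt e p → ∃ a b : 𝓞 F, FrobeniusData e p a b)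
    (M₀ p₀ : ℕ) [Fact p₀.Prime] (hM₀ : p₀.Coprime M₀) (h8 : p₀ % 8 = 5) (hgood : GoodAt e p₀)
    (hin : ∀ q : ℕ, q.Prime → q ≡ p₀ [MOD M₀] → Prime ((q : ℕ) : 𝓞 F))
    (a₀ b₀ : 𝓞 F) (hab : FrobeniusData e p₀ a₀ b₀)
    (h32 : (32 : 𝓞 F) ∣ 1 - a₀ + b₀ - (p₀ : 𝓞 F) * a₀ + (p₀ : 𝓞 F) ^ 2) :
    0 < liminf (fun x : ℕ =>
      (Nat.card {p : ℕ // p ≤ x ∧ p.Prime ∧ OrdinaryAt g e p} : ℝ) /
        (Nat.card {p : ℕ // p ≤ x ∧ p.Prime} : ℝ)) atTop := by
  have hp₀ : p₀.Prime := Fact.out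
  have hodd : p₀.Coprime 8 := by
    rw [Nat.Prime.coprime_iff_not_dvd hp₀]
    intro hd
    have : p₀ ∣ 2 := hp₀.dvd_of_dvd_pow (show p₀ ∣ 2 ^ 3 by simpa using hd)
    have := (Nat.prime_dvd_prime_iff_eq hp₀ Nat.prime_two).1 this
    omega
  have hcop : p₀.Coprime (8 * M₀ * fin_pi e) :=
    Nat.Coprime.mul_right (Nat.Coprime.mul_right hodd hM₀) (fin_pi_coprime e p₀ hgood)
  have hMpos : 0 < 8 * M₀ * fin_pi e := by
    rcases Nat.eq_zero_or_pos (8 * M₀ * fin_pi e) with h0 | h0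
    · rw [h0, Nat.coprime_zero_right] at hcop
      exact absurd hcop hp₀.one_lt.ne'
    · exact h0
  refine den_main {p | OrdinaryAt g e p} (8 * M₀ * fin_pi e) (fin_pi e) p₀ hMpos hcop ?_
  intro p hp hB hmod
  haveI : Fact p.Prime := ⟨hp⟩
  have hp8 : p % 8 = 5 := by
    have : p ≡ p₀ [MOD 8] := hmod.of_dvd ⟨M₀ * fin_pi e, by ring⟩
    have h' : p % 8 = p₀ % 8 := this
    rw [h', h8]
  have hpin : Prime ((p : ℕ) : 𝓞 F) := hin p hp (hmod.of_dvd ⟨8 * fin_pi e, by ring⟩)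
  have hp2 : p ≠ 2 := by omega
  have hp₀2 : p₀ ≠ 2 := by omega
  have hgoodp : GoodAt e p := by
    refine ⟨hp2, ?_⟩
    intro i j hij hd
    have h1 : p ∣ (e i - e j).natAbs := Int.natCast_dvd.1 hd
    have h3 := Nat.le_of_dvd (Nat.pos_of_ne_zero (fin_pi_ne e p₀ hgood))
      (h1.trans (fin_pi_dvd e i j hij))
    omega
  obtain ⟨a, b, hFD⟩ := hRM p hgoodp
  have hr := fin_inj e p hgoodp
  have hr₀ := fin_inj e p₀ hgood
  have hne : (Finset.univ : Finset (Fin (2 * g + 1))).Nonempty := Finset.univ_nonempty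
  have hq : 4 ∣ Fintype.card (ZMod p) - 1 := by
    rw [ZMod.card]
    omega
  have hq₀ : 4 ∣ Fintype.card (ZMod p₀) - 1 := by
    rw [ZMod.card]
    omega
  have hsym : ∀ i j, i ≠ j →
      quadraticChar (ZMod p₀) (((e i : ℤ) : ZMod p₀) - ((e j : ℤ) : ZMod p₀))
      = quadraticChar (ZMod p) (((e i : ℤ) : ZMod p) - ((e j : ℤ) : ZMod p)) := by
    intro i j hij
    have h4 : 4 * (e i - e j).natAbs ∣ 8 * M₀ * fin_pi e := by
      obtain ⟨t, ht⟩ := fin_pi_dvd e i j hij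
      exact ⟨2 * M₀ * t, by rw [ht]; ring⟩
    have := sym_main p₀ p hp₀2 hp2 (e i - e j) (8 * M₀ * fin_pi e) h4 hmod.symm
    push_cast at this
    exact this
  have htr := div_transfer (K := ZMod p₀) (K' := ZMod p) hq₀ hq
    (fun i => ((e i : ℤ) : ZMod p₀)) (fun i => ((e i : ℤ) : ZMod p)) hr₀ hr hsym
    Finset.univ hne
  rw [Finset.card_univ, Fintype.card_fin] at htr
  have hval := (val_main p₀ (by omega) g hg (fun i => ((e i : ℤ) : ZMod p₀)) hr₀ a₀ b₀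
    (fin_hab e p₀ hp₀2 a₀ b₀ hab)).1
  have hd1 : 1 ≤ Module.finrank ℚ F := Module.finrank_pos
  have hL₀ : (2 : ℤ) ^ (2 * g + 1) ∣ LS (fun i => ((e i : ℤ) : ZMod p₀)) Finset.univ ∅
      (2 * g + 1) := by
    rw [hval]
    obtain ⟨t, ht⟩ := h32
    rw [ht, map_mul]
    apply Dvd.dvd.mul_right
    have h5 : Algebra.norm ℤ (32 : 𝓞 F) = 32 ^ Module.finrank ℚ F := by
      have h6 := Algebra.norm_algebraMap (R := ℤ) (S := 𝓞 F) (32 : ℤ)
      rw [RingOfIntegers.rank] at h6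
      rw [← h6]
      congr 1
      simp
    rw [h5]
    have h7 : (32 : ℤ) ^ Module.finrank ℚ F = 2 ^ (5 * Module.finrank ℚ F) := by
      rw [pow_mul]
      norm_num
    rw [h7]
    apply pow_dvd_pow
    omega
  have hL : (2 : ℤ) ^ (2 * g + 1) ∣ LS (fun i => ((e i : ℤ) : ZMod p)) Finset.univ ∅
      (2 * g + 1) := by
    have := dvd_sub hL₀ htr
    rwa [sub_sub_cancel] at this
  exact ⟨hgoodp, ptw_main h2 p hp8 hpin g hg (fun i => ((e i : ℤ) : ZMod p)) hr a b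
    (fin_hab e p hp2 a b hFD) hL⟩

end Pool.Agent.H99.RM
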