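import Mathlib

/-!
# Project MP_17d720_RM, module Hda: Hasse derivatives of powers

Auxiliary lemmas: prefix hda_. `n = f.natDegree`.

`hd_pow`: for `k ≤ M` there is `w` with `hasseDeriv k (f ^ M) = f ^ (M - k) * w` and
`natDegree w ≤ k (n - 1)`. Induction on `M`, for all `k ≤ M`. `M = 0`: `k = 0`, `w = 1`. Step: for
`k = 0` take `w = 1`. For `1 ≤ k ≤ M + 1`, by `hasseDeriv_mul`,
`hasseDeriv k (f * f^M) = ∑_{i+j=k} hasseDeriv i f * hasseDeriv j (f^M)`. The term `i = 0`, `j = k`:
if `k ≤ M` it is `f * f^(M-k) * w_k = f^(M+1-k) w_k`; if `k = M + 1` use instead: `f` times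
`hasseDeriv (M+1) (f^M)`, which is not covered by the induction, so state the induction as: for all
`M`, `k` there is `w` with `hasseDeriv k (f ^ M) * f ^ (k - M) = f ^ (M - k) * w`, or simply note that
for `k = M + 1`, `M + 1 - k = 0` and the term `f * hasseDeriv (M+1) (f^M)` itself may be put in `w`:
its degree is at most `n + (nM - (M + 1)) = (M+1)(n-1)` (`natDegree_hasseDeriv_le`). The terms
`i ≥ 1`, `j = k - i ≤ M`: `hasseDeriv i f * f^(M-j) w_j = f^(M+1-k) * (hasseDeriv i f * f^(i-1) w_j)` with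
degree `≤ (n - i) + (i-1) n + (k-i)(n-1) = k(n-1)`.
(If `k = M+1 = 0`... does not occur.)

`hd_lin`: `D u = ∑_{j ≤ k} f^(k-j) w_j hasseDeriv (k-j) u`, where `w_j` is the polynomial of `hd_pow`
for `(M, j)`: `hasseDeriv k (f^M u) = ∑_j hasseDeriv j (f^M) hasseDeriv (k-j) u
= ∑_j f^(M-j) w_j hasseDeriv (k-j) u`. Degree: `(k-j) n + j (n-1) + (deg u - (k-j)) ≤ k(n-1) + deg u`
when `k - j ≤ deg u`, and `hasseDeriv (k-j) u = 0` otherwise.
-/

namespace Pool.Agent.H99.RM

open Polynomial Finset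

theorem hda_term {F : Type} [Field F] (f : F[X]) (hf : 1 ≤ f.natDegree) (M k : ℕ) (hk : k ≤ M + 1)
    (ih : ∀ j, j ≤ M → ∃ w : F[X], hasseDeriv j (f ^ M) = f ^ (M - j) * w ∧
      w.natDegree ≤ j * (f.natDegree - 1)) (i j : ℕ) (hij : i + j = k) :
    ∃ v : F[X], hasseDeriv i f * hasseDeriv j (f ^ M) = f ^ (M + 1 - k) * v ∧
      v.natDegree ≤ k * (f.natDegree - 1) := by
  obtain ⟨n, hn⟩ : ∃ n, f.natDegree = n + 1 := ⟨f.natDegree - 1, by omega⟩
  rw [hn, Nat.add_sub_cancel]
  simp only [hn, Nat.add_sub_cancel] at ih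
  by_cases hj : j ≤ M
  · obtain ⟨w, hw, hd⟩ := ih j hj
    rcases Nat.eq_zero_or_pos i with hi | hi
    · subst hi
      have hjk : j = k := by omega
      subst hjk
      refine ⟨w, ?_, hd⟩
      rw [hasseDeriv_zero', hw, ← mul_assoc, ← pow_succ']
      congr 2
      omega
    · by_cases hin : f.natDegree < i
      · refine ⟨0, ?_, by simp⟩
        rw [hasseDeriv_eq_zero_of_lt_natDegree f i hin, zero_mul, mul_zero]
      · refine ⟨hasseDeriv i f * (f ^ (i - 1) * w), ?_, ?_⟩
        · have e : M - j = (M + 1 - k) + (i - 1) := by omega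
          rw [hw, e, pow_add]
          ring
        · have h1 := natDegree_hasseDeriv_le f i
          have h2 : (f ^ (i - 1)).natDegree = (i - 1) * (n + 1) := by rw [natDegree_pow, hn]
          have h3 := natDegree_mul_le (p := hasseDeriv i f) (q := f ^ (i - 1) * w)
          have h4 := natDegree_mul_le (p := f ^ (i - 1)) (q := w)
          rw [h2] at h4
          rw [hn] at h1 hin
          obtain ⟨i', rfl⟩ : ∃ i', i = i' + 1 := ⟨i - 1, by omega⟩
          rw [Nat.add_sub_cancel] at h3 h4 ⊢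
          subst hij
          have e1 : (i' + 1 + j) * n = i' * n + n + j * n := by ring
          have e2 : i' * (n + 1) = i' * n + i' := by ring
          rw [e1]
          rw [e2] at h4
          omega
  · have hj' : j = M + 1 := by omega
    have hi' : i = 0 := by omega
    have hk' : k = M + 1 := by omega
    subst hj' hi' hk'
    by_cases hdeg : (f ^ M).natDegree < M + 1
    · refine ⟨0, ?_, by simp⟩
      rw [hasseDeriv_eq_zero_of_lt_natDegree _ _ hdeg, mul_zero, mul_zero]
    · refine ⟨hasseDeriv 0 f * hasseDeriv (M + 1) (f ^ M), ?_, ?_⟩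
      · rw [Nat.sub_self, pow_zero, one_mul]
      · have h1 := natDegree_hasseDeriv_le (f ^ M) (M + 1)
        have h3 := natDegree_mul_le (p := hasseDeriv 0 f) (q := hasseDeriv (M + 1) (f ^ M))
        rw [hasseDeriv_zero'] at h3 ⊢
        rw [natDegree_pow, hn] at h1 hdeg
        rw [hn] at h3
        have e1 : (M + 1) * n = M * n + n := by ring
        have e2 : M * (n + 1) = M * n + M := by ring
        rw [e1]
        rw [e2] at h1 hdeg
        omega

theorem hd_pow {F : Type} [Field F] (f : F[X]) (hf : 1 ≤ f.natDegree) (M k : ℕ) (hk : k ≤ M) :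
    ∃ w : F[X], hasseDeriv k (f ^ M) = f ^ (M - k) * w ∧ w.natDegree ≤ k * (f.natDegree - 1) := by
  induction M generalizing k with
  | zero =>
    have hk0 : k = 0 := by omega
    subst hk0
    exact ⟨1, by simp, by simp⟩
  | succ M ih =>
    have ih' : ∀ j, j ≤ M → ∃ w : F[X], hasseDeriv j (f ^ M) = f ^ (M - j) * w ∧
      w.natDegree ≤ j * (f.natDegree - 1) := fun j hj => ih j hj
    have ht : ∀ p : ℕ × ℕ, ∃ v : F[X], p ∈ antidiagonal k →
        hasseDeriv p.1 f * hasseDeriv p.2 (f ^ M) = f ^ (M + 1 - k) * v ∧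
        v.natDegree ≤ k * (f.natDegree - 1) := by
      intro p
      by_cases hp : p ∈ antidiagonal k
      · obtain ⟨v, hv⟩ := hda_term f hf M k hk ih' p.1 p.2 (mem_antidiagonal.1 hp)
        exact ⟨v, fun _ => hv⟩
      · exact ⟨0, fun h => absurd h hp⟩
    choose v hv using ht
    refine ⟨∑ p ∈ antidiagonal k, v p, ?_, ?_⟩
    · rw [pow_succ', hasseDeriv_mul, mul_sum]
      exact sum_congr rfl fun p hp => (hv p hp).1
    · exact natDegree_sum_le_of_forall_le _ _ fun p hp => (hv p hp).2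

theorem hd_lin {F : Type} [Field F] (f : F[X]) (hf : 1 ≤ f.natDegree) (M k : ℕ) (hk : k ≤ M) :
    ∃ D : F[X] →ₗ[F] F[X], (∀ u, hasseDeriv k (f ^ M * u) = f ^ (M - k) * D u) ∧
      ∀ u, (D u).natDegree ≤ k * (f.natDegree - 1) + u.natDegree := by
  have ht : ∀ a : ℕ, ∃ w : F[X], a ≤ k → hasseDeriv a (f ^ M) = f ^ (M - a) * w ∧
      w.natDegree ≤ a * (f.natDegree - 1) := by
    intro a
    by_cases ha : a ≤ k
    · obtain ⟨w, hw⟩ := hd_pow f hf M a (ha.trans hk)
      exact ⟨w, fun _ => hw⟩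
    · exact ⟨0, fun h => absurd h ha⟩
  choose w hw using ht
  obtain ⟨n, hn⟩ : ∃ n, f.natDegree = n + 1 := ⟨f.natDegree - 1, by omega⟩
  refine ⟨∑ p ∈ antidiagonal k, (LinearMap.mulLeft F (f ^ p.2 * w p.1)).comp (hasseDeriv p.2),
    ?_, ?_⟩
  · intro u
    rw [hasseDeriv_mul, LinearMap.sum_apply, mul_sum]
    refine sum_congr rfl fun p hp => ?_
    have hp' := mem_antidiagonal.1 hp
    rw [LinearMap.comp_apply, LinearMap.mulLeft_apply, (hw p.1 (by omega)).1]
    have e : M - p.1 = (M - k) + p.2 := by omega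
    rw [e, pow_add]
    ring
  · intro u
    rw [LinearMap.sum_apply]
    refine natDegree_sum_le_of_forall_le _ _ fun p hp => ?_
    have hp' := mem_antidiagonal.1 hp
    rw [LinearMap.comp_apply, LinearMap.mulLeft_apply]
    by_cases hdeg : u.natDegree < p.2
    · rw [hasseDeriv_eq_zero_of_lt_natDegree _ _ hdeg, mul_zero, natDegree_zero]
      exact Nat.zero_le _
    · have h1 := natDegree_hasseDeriv_le u p.2
      have h2 : (f ^ p.2).natDegree = p.2 * (n + 1) := by rw [natDegree_pow, hn]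
      have h3 := natDegree_mul_le (p := f ^ p.2 * w p.1) (q := hasseDeriv p.2 u)
      have h4 := natDegree_mul_le (p := f ^ p.2) (q := w p.1)
      have h5 := (hw p.1 (by omega)).2
      rw [h2] at h4
      rw [hn, Nat.add_sub_cancel] at h5 ⊢
      rw [← hp']
      have e1 : (p.1 + p.2) * n = p.1 * n + p.2 * n := by ring
      have e2 : p.2 * (n + 1) = p.2 * n + p.2 := by ring
      rw [e1]
      rw [e2] at h4
      omega

end Pool.Agent.H99.RM
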