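import Pool.Agent.H99.RM.Val
import Pool.Agent.H99.RM.Div
import Pool.Agent.H99.RM.Nfr
import Pool.Agent.H99.RM.Trc
import Pool.Agent.H99.RM.Nim

/-!
# Project MP_17d720_RM, module Ptw: the pointwise theorem

Auxiliary lemmas: prefix ptw_. Proof. Let `d = finrank ℚ F`, `g = 2 d`, `2 g + 1 = 4 d + 1`. By
`val_main`: `LS r univ ∅ (2g+1) = N(P(1))`, `LT r univ ∅ (2g+1) = N(P(-1))`. `h2g` gives
`2^(4 d + 1) ∣ N(P(1))`, so `nfa_inert` (`q = 2`, `k = 4`) gives `2^5 ∣ P(1)`. By `div_neg` (`S = univ`,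
`#S = 2g+1`), `2^(2g) ∣ N(P(-1))`, `2 g = 4 d ≥ 3 d + 1` (`d ≥ 1`, `Module.finrank_pos`), so
`nfa_inert` (`k = 3`) gives `2^4 ∣ P(-1)`. By `nfr_main`, `p ∤ b` in `𝓞 F`, so `p ∤ N(b)` (`nfa_inert` with
`q = p`, `k = 0`), so `p ∤ AS r univ ∅ g`. With `A k = (AS r univ ∅ k : ZMod p)`, `newton` reduced
modulo `p` and `trc_main` give `k A_k = -∑ tr(H^m) A_{k-m}`, `H = cm g r`; `nid_matrix` (`g < p`: the
`2g+1` values `r i` are distinct, so `2g+1 ≤ p`) gives `A_g = (-1)^g det H`, so `det H ≠ 0`.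
-/

namespace Pool.Agent.H99.RM

open NumberField Polynomial Finset

theorem ptw_main {F : Type} [Field F] [NumberField F] [IsTotallyReal F] (h2 : Prime (2 : 𝓞 F))
    (p : ℕ) [Fact p.Prime] (h8 : p % 8 = 5) (hin : Prime ((p : ℕ) : 𝓞 F))
    (g : ℕ) (hg : g = 2 * Module.finrank ℚ F) (r : Fin (2 * g + 1) → ZMod p)
    (hr : Function.Injective r) (a b : 𝓞 F)
    (hab : ∀ m : ℕ, 0 < m → ((NG p m r : ℤ) : ℂ) = -powSum p (a : F) (b : F) m)
    (h2g : (2 : ℤ) ^ (2 * g + 1) ∣ LS r univ ∅ (2 * g + 1)) :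
    (cm g r).det ≠ 0 := by
  have hp4 : p % 4 = 1 := by omega
  have hp2 : p ≠ 2 := by omega
  have hd : 0 < Module.finrank ℚ F := Module.finrank_pos
  obtain ⟨h1, hm1, h3, h4⟩ := val_main p hp4 g hg r hr a b hab
  have hp2' : Prime ((2 : ℕ) : 𝓞 F) := by exact_mod_cast h2
  have h32 : (2 : 𝓞 F) ^ 5 ∣ 1 - a + b - (p : 𝓞 F) * a + (p : 𝓞 F) ^ 2 := by
    have h := nfa_inert 2 hp2' 4 (1 - a + b - (p : 𝓞 F) * a + (p : 𝓞 F) ^ 2) (by
      rw [← h1]
      have he : 4 * Module.finrank ℚ F + 1 = 2 * g + 1 := by omega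
      rw [he]
      exact_mod_cast h2g)
    exact_mod_cast h
  have hcard : (univ : Finset (Fin (2 * g + 1))).card = 2 * g + 1 := by simp
  have hq : 4 ∣ Fintype.card (ZMod p) - 1 := by
    rw [ZMod.card]
    omega
  have h16 : (2 : 𝓞 F) ^ 4 ∣ 1 + a + b + (p : 𝓞 F) * a + (p : 𝓞 F) ^ 2 := by
    have h := nfa_inert 2 hp2' 3 (1 + a + b + (p : 𝓞 F) * a + (p : 𝓞 F) ^ 2) (by
      rw [← hm1]
      have hdn := div_neg (K := ZMod p) hq r hr univ univ_nonempty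
      rw [hcard] at hdn
      refine dvd_trans ?_ hdn
      have : ((2 : ℕ) : ℤ) = 2 := rfl
      rw [this]
      exact pow_dvd_pow _ (by omega))
    exact_mod_cast h
  have hb : ¬ ((p : ℕ) : 𝓞 F) ∣ b := nfr_main p h8 hin h2 a b h4 h32 h16
  have hNb : ¬ (p : ℤ) ∣ Algebra.norm ℤ b := by
    intro h
    apply hb
    have h' := nfa_inert p hin 0 b (by simpa using h)
    simpa using h'
  have hAS : ((AS r univ ∅ g : ℤ) : ZMod p) ≠ 0 := by
    intro h
    rw [ZMod.intCast_zmod_eq_zero_iff_dvd] at h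
    exact hNb ((dvd_sub_right h).mp h3)
  have hgp : g < p := by
    have h := Fintype.card_le_of_injective r hr
    rw [Fintype.card_fin, ZMod.card] at h
    omega
  have hA0 : ((AS r univ ∅ 0 : ℤ) : ZMod p) = 1 := by
    have : AS r univ ∅ 0 = 1 := by
      unfold AS
      rw [Fintype.sum_unique]
      simp [mon]
    rw [this]
    simp
  have hA : ∀ k, 1 ≤ k → k ≤ g → (k : ZMod p) * ((AS r univ ∅ k : ℤ) : ZMod p) =
      -∑ m ∈ Icc 1 k, ((cm g r) ^ m).trace * ((AS r univ ∅ (k - m) : ℤ) : ZMod p) := by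
    intro k _ _
    have h := newton p hp4 r k
    have h' := congrArg (fun z : ℤ => (z : ZMod p)) h
    simp only [Int.cast_mul, Int.cast_sum, Int.cast_natCast] at h'
    rw [h', ← Finset.sum_neg_distrib]
    apply Finset.sum_congr rfl
    intro m hm
    rw [Finset.mem_Icc] at hm
    rw [trc_main p hp2 hgp r m hm.1]
    ring
  have hfin := nid_matrix p hgp (cm g r) (fun k => ((AS r univ ∅ k : ℤ) : ZMod p)) hA0 hA
  intro hdet
  apply hAS
  have h5 : ((AS r univ ∅ g : ℤ) : ZMod p) = (-1) ^ g * (cm g r).det := hfin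
  rw [h5, hdet, mul_zero]

end Pool.Agent.H99.RM
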