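import Pool.Agent.H99.RM.Defs

/-!
# Project MP_17d720_RM, module Rbd: real bounds for the coefficients

Auxiliary lemmas: prefix rbd_. Proof. Let `u₁, u₂ ∈ ℂ` be the roots of `u² - A u + (B - 2p)`:
`u₁ + u₂ = A`, `u₁ u₂ = B - 2 p` (`IsAlgClosed.exists_root`/quadratic formula,
`IsAlgClosed.exists_pow_nat_eq` for the square root of the discriminant). For each `i` let `z` be a
root of `z² - u_i z + p`. Since
`(X² - u₁ X + p)(X² - u₂ X + p) = X⁴ - A X³ + B X² - p A X + p²`, `z` and the other root `z'`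
(`z z' = p`, `z + z' = u_i`) are roots of `frobPoly p A B`, so `‖z‖, ‖z'‖ ≤ √p`, and `‖z‖ ‖z'‖ = p` gives
`‖z‖ = √p`, `z' = p / z = conj z` (as `z conj z = ‖z‖² = p`). So `u_i = z + conj z = 2 Re z` is real with
`|u_i| ≤ 2 √p`. Now `B = 2p + u₁ u₂` with `|u₁ u₂| ≤ 4p` gives `-2p ≤ B ≤ 6p`. If `B = 6p` then
`u₁ u₂ = 4p`, `u_i² ≤ 4p` gives `u₁² = u₂² = 4p` and
`A² = u₁² + u₂² + 2 u₁ u₂ = 16 p`. If `B = -2p`: `u₁ u₂ = -4p`, `u₁² = u₂² = 4p`,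
`A² = 8p - 8p = 0`.
-/

namespace Pool.Agent.H99.RM

open Polynomial

private theorem rbd_root (p : ℕ) (A B : ℝ) (u z z' : ℂ)
    (hu : u ^ 2 - (A : ℂ) * u + ((B : ℂ) - 2 * (p : ℂ)) = 0) (hs : z + z' = u)
    (hm : z * z' = (p : ℂ)) : (frobPoly p (A : ℂ) (B : ℂ)).IsRoot z := by
  have e : z * u = z ^ 2 + (p : ℂ) := by rw [← hs, ← hm]; ring
  rw [IsRoot.def]
  simp only [frobPoly, eval_add, eval_sub, eval_mul, eval_pow, eval_X, eval_C]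
  have h2 : (z * u) ^ 2 - (A : ℂ) * z * (z * u) + ((B : ℂ) - 2 * (p : ℂ)) * z ^ 2 = 0 := by
    have : (z * u) ^ 2 - (A : ℂ) * z * (z * u) + ((B : ℂ) - 2 * (p : ℂ)) * z ^ 2
        = z ^ 2 * (u ^ 2 - (A : ℂ) * u + ((B : ℂ) - 2 * (p : ℂ))) := by ring
    rw [this, hu, mul_zero]
  rw [e] at h2
  linear_combination h2

private theorem rbd_real (p : ℕ) (hp : 0 < p) (A B : ℝ)
    (h : ∀ z : ℂ, (frobPoly p (A : ℂ) (B : ℂ)).IsRoot z → ‖z‖ ≤ √(p : ℝ)) (u : ℂ)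
    (hu : u ^ 2 - (A : ℂ) * u + ((B : ℂ) - 2 * (p : ℂ)) = 0) :
    ∃ r : ℝ, u = (r : ℂ) ∧ r ^ 2 ≤ 4 * (p : ℝ) := by
  obtain ⟨s, hs⟩ := IsAlgClosed.exists_pow_nat_eq (u ^ 2 - 4 * (p : ℂ)) (n := 2) (by norm_num)
  set z : ℂ := (u + s) / 2 with hz
  set z' : ℂ := (u - s) / 2 with hz'
  have hsum : z + z' = u := by rw [hz, hz']; ring
  have hmul : z * z' = (p : ℂ) := by
    rw [hz, hz']
    linear_combination (-1 / 4 : ℂ) * hs
  have hpR : (0 : ℝ) < (p : ℝ) := by exact_mod_cast hp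
  have h1 : ‖z‖ ≤ √(p : ℝ) := h z (rbd_root p A B u z z' hu hsum hmul)
  have h2 : ‖z'‖ ≤ √(p : ℝ) :=
    h z' (rbd_root p A B u z' z hu (by rw [add_comm]; exact hsum) (by rw [mul_comm]; exact hmul))
  have hn : ‖z‖ * ‖z'‖ = (p : ℝ) := by
    rw [← norm_mul, hmul, Complex.norm_natCast]
  have hsq : √(p : ℝ) * √(p : ℝ) = (p : ℝ) := Real.mul_self_sqrt hpR.le
  have hsp : 0 < √(p : ℝ) := Real.sqrt_pos.mpr hpR
  have hz1 : ‖z‖ = √(p : ℝ) := by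
    apply le_antisymm h1
    by_contra hlt
    push Not at hlt
    have : ‖z‖ * ‖z'‖ < √(p : ℝ) * √(p : ℝ) := by
      calc ‖z‖ * ‖z'‖ ≤ ‖z‖ * √(p : ℝ) := mul_le_mul_of_nonneg_left h2 (norm_nonneg _)
        _ < √(p : ℝ) * √(p : ℝ) := mul_lt_mul_of_pos_right hlt hsp
    rw [hn, hsq] at this
    exact lt_irrefl _ this
  have hz0 : z ≠ 0 := by
    intro h0
    rw [h0, norm_zero] at hz1
    exact hsp.ne hz1
  have hconj : z * (starRingEnd ℂ) z = (p : ℂ) := by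
    rw [Complex.mul_conj, Complex.normSq_eq_norm_sq, hz1, Real.sq_sqrt hpR.le]
    norm_cast
  have hzz : z' = (starRingEnd ℂ) z := by
    apply mul_left_cancel₀ hz0
    rw [hmul, hconj]
  refine ⟨2 * z.re, ?_, ?_⟩
  · rw [← hsum, hzz, Complex.add_conj]
  · have := Complex.abs_re_le_norm z
    rw [hz1] at this
    have h3 : z.re ^ 2 ≤ (p : ℝ) := by
      rw [← sq_abs, ← Real.sq_sqrt hpR.le]
      exact pow_le_pow_left₀ (abs_nonneg _) this 2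
    nlinarith

theorem rbd_main (p : ℕ) (hp : 0 < p) (A B : ℝ)
    (h : ∀ z : ℂ, (frobPoly p (A : ℂ) (B : ℂ)).IsRoot z → ‖z‖ ≤ √(p : ℝ)) :
    -2 * (p : ℝ) ≤ B ∧ B ≤ 6 * (p : ℝ) ∧ (B = 6 * (p : ℝ) → A ^ 2 = 16 * (p : ℝ)) ∧
      (B = -2 * (p : ℝ) → A = 0) := by
  obtain ⟨s, hs⟩ := IsAlgClosed.exists_pow_nat_eq
    ((A : ℂ) ^ 2 - 4 * ((B : ℂ) - 2 * (p : ℂ))) (n := 2) (by norm_num)
  obtain ⟨r1, hr1, hb1⟩ := rbd_real p hp A B h (((A : ℂ) + s) / 2)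
    (by linear_combination (1 / 4 : ℂ) * hs)
  obtain ⟨r2, hr2, hb2⟩ := rbd_real p hp A B h (((A : ℂ) - s) / 2)
    (by linear_combination (1 / 4 : ℂ) * hs)
  have e1 : r1 + r2 = A := by
    have : ((r1 + r2 : ℝ) : ℂ) = (A : ℂ) := by
      rw [Complex.ofReal_add, ← hr1, ← hr2]
      ring
    exact_mod_cast this
  have e2 : r1 * r2 = B - 2 * (p : ℝ) := by
    have : ((r1 * r2 : ℝ) : ℂ) = ((B - 2 * (p : ℝ) : ℝ) : ℂ) := by
      rw [Complex.ofReal_mul, ← hr1, ← hr2]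
      push_cast
      linear_combination (-1 / 4 : ℂ) * hs
    exact_mod_cast this
  refine ⟨?_, ?_, ?_, ?_⟩
  · nlinarith [sq_nonneg (r1 + r2)]
  · nlinarith [sq_nonneg (r1 - r2)]
  · intro hB
    rw [hB] at e2
    have h1 : (r1 - r2) ^ 2 ≤ 0 := by nlinarith
    have h2 : (r1 - r2) ^ 2 = 0 := le_antisymm h1 (sq_nonneg _)
    have h3 : (r1 + r2) ^ 2 = (r1 - r2) ^ 2 + 4 * (r1 * r2) := by ring
    rw [← e1, h3, h2, e2]
    ring
  · intro hB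
    rw [hB] at e2
    have h1 : (r1 + r2) ^ 2 ≤ 0 := by nlinarith
    have h2 : (r1 + r2) ^ 2 = 0 := le_antisymm h1 (sq_nonneg _)
    rw [← e1]
    exact pow_eq_zero_iff (by norm_num) |>.mp h2

end Pool.Agent.H99.RM
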