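import Pool.Agent.H99.RM.Nwt
import Pool.Agent.H99.RM.Alp
import Pool.Agent.H99.RM.Nid
import Pool.Agent.H99.RM.Stp
import Pool.Agent.H99.RM.Pwr
import Pool.Agent.H99.RM.Van
import Pool.Agent.H99.RM.Rec

/-!
# Project MP_17d720_RM, module Val: the L-polynomial

Auxiliary lemmas: prefix val_. Uses `newton`, `alp_main`, `nid_prod`, `nid_unique`, `stepanov`,
`pwr_main`, `AS_zero`, `AS_at_zero`, `nfc_one`, `nfc_neg`, `nfc_coeff`.

Proof. Let `α : Fin (4 d) → ℂ` be as in `alp_main` (`d = finrank ℚ F`, `4 d = 2 g`), `A_k = AS r univ ∅ k`,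
`Q = ∏ (1 - α_i X) = ∏ revPoly`. By `hab`, `NG p m r = - ∑ α_i^m` for `m ≥ 1`, so `newton` says
`k A_k = - ∑_{m=1}^k (∑_i α_i^m) A_{k-m}`; `A_0 = 1`; by `nid_prod` and `nid_unique`, `A_k = Q.coeff k` for all
`k`. Since `natDegree Q ≤ 2 g`, `LS r univ ∅ (2g+1) = ∑_{k ≤ 2g} A_k = Q.eval 1`
(`Polynomial.eval_eq_sum_range'`), `LT = Q.eval (-1)`, and `nfc_one`, `nfc_neg`, `nfc_coeff` give the
first three claims (compare in `ℂ`, `Int.cast_injective`).

Root bound: apply `stepanov (2g+1)` to `F = GaloisField p m` and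
`f = ∏ (X - C (algebraMap _ _ (r i)))` (natDegree `2g+1`): `|NG p m r| ≤ C √(p^m) = C (√p)^m`, so
`‖∑ α_i^m‖ ≤ C (√p)^m` and `pwr_main` gives `‖α_i‖ ≤ √p`; all roots of the `frobPoly` are among the `α_i`.
-/

namespace Pool.Agent.H99.RM

open NumberField Polynomial Finset

theorem val_sqrt (p m : ℕ) : √((p ^ m : ℕ) : ℝ) = √(p : ℝ) ^ m := by
  rw [Nat.cast_pow, Real.sqrt_eq_iff_eq_sq (by positivity) (by positivity), ← pow_mul,
    mul_comm m 2, pow_mul, Real.sq_sqrt (Nat.cast_nonneg p)]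

theorem val_NG (p : ℕ) [Fact p.Prime] (hp : p % 4 = 1) {n : ℕ} (hn : Odd n)
    (r : Fin n → ZMod p) :
    ∃ C : ℝ, ∀ m : ℕ, 1 ≤ m → |((NG p m r : ℤ) : ℝ)| ≤ C * √(p : ℝ) ^ m := by
  obtain ⟨C, _, hst⟩ := stepanov n hn
  refine ⟨C, fun m hm => ?_⟩
  have hch : ringChar (GaloisField p m) ≠ 2 := by
    have h0 : ringChar (GaloisField p m) = p := ringChar.eq (GaloisField p m) p
    rw [h0]
    omega
  have hdeg : (∏ i, (X - Polynomial.C (algebraMap (ZMod p) (GaloisField p m) (r i)))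
      : (GaloisField p m)[X]).natDegree = n := by
    rw [natDegree_prod_of_monic _ _ fun i _ => monic_X_sub_C _]
    simp
  have h1 := @hst (GaloisField p m) _ (Fintype.ofFinite _)
    (fun a b => Classical.propDecidable (a = b)) hch _ hdeg
  have hcard : @Fintype.card (GaloisField p m) (Fintype.ofFinite _) = p ^ m := by
    rw [← GaloisField.card p m (by omega)]
    exact (@Nat.card_eq_fintype_card (GaloisField p m) (Fintype.ofFinite _)).symm
  rw [hcard, val_sqrt] at h1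
  have h2 : NG p m r = @Finset.sum (GaloisField p m) ℤ _ (@Finset.univ _ (Fintype.ofFinite _))
      (fun x => @quadraticChar (GaloisField p m) _ (Fintype.ofFinite _)
        (fun a b => Classical.propDecidable (a = b))
        ((∏ i, (X - Polynomial.C (algebraMap (ZMod p) (GaloisField p m) (r i)))
          : (GaloisField p m)[X]).eval x)) := by
    unfold NG NS
    refine Finset.sum_congr rfl fun x _ => ?_
    rw [eval_prod]
    simp only [eval_sub, eval_X, eval_C]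
  rw [h2]
  exact h1

theorem val_main {F : Type} [Field F] [NumberField F] (p : ℕ) [Fact p.Prime] (hp : p % 4 = 1)
    (g : ℕ) (hg : g = 2 * Module.finrank ℚ F) (r : Fin (2 * g + 1) → ZMod p)
    (hr : Function.Injective r) (a b : 𝓞 F)
    (hab : ∀ m : ℕ, 0 < m → ((NG p m r : ℤ) : ℂ) = -powSum p (a : F) (b : F) m) :
    LS r univ ∅ (2 * g + 1) = Algebra.norm ℤ (1 - a + b - (p : 𝓞 F) * a + (p : 𝓞 F) ^ 2) ∧
    LT r univ ∅ (2 * g + 1) = Algebra.norm ℤ (1 + a + b + (p : 𝓞 F) * a + (p : 𝓞 F) ^ 2) ∧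
    (p : ℤ) ∣ AS r univ ∅ g - Algebra.norm ℤ b ∧
    ∀ σ : F →+* ℂ, ∀ z : ℂ, (frobPoly p (σ (a : F)) (σ (b : F))).IsRoot z → ‖z‖ ≤ √(p : ℝ) := by
  have hp0 : p ≠ 0 := by omega
  obtain ⟨α, hα1, hα2, hα3⟩ := alp_main p (a : F) (b : F)
  set Q : ℂ[X] := ∏ i, (1 - C (α i) * X) with hQ
  have hQ0 : Q.coeff 0 = 1 := by
    rw [coeff_zero_eq_eval_zero, hQ, eval_prod]
    simp
  have hA : ∀ k, ((AS r univ ∅ k : ℤ) : ℂ) = Q.coeff k := by
    intro k
    refine nid_unique (fun m => ∑ i, α i ^ m) (fun k => ((AS r univ ∅ k : ℤ) : ℂ))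
      (fun k => Q.coeff k) k (fun k h1 _ => Nat.cast_ne_zero.2 (by omega)) ?_ hQ0 ?_
      (fun k _ _ => nid_prod α k) k le_rfl
    · show ((AS r univ ∅ 0 : ℤ) : ℂ) = 1
      rw [AS_at_zero]
      simp
    · intro k h1 h2
      show (k : ℂ) * ((AS r univ ∅ k : ℤ) : ℂ) =
        -∑ m ∈ Icc 1 k, (∑ i, α i ^ m) * ((AS r univ ∅ (k - m) : ℤ) : ℂ)
      have h3 := congrArg (fun z : ℤ => (z : ℂ)) (newton p hp r k)
      simp only [Int.cast_mul, Int.cast_natCast, Int.cast_sum] at h3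
      rw [h3, ← Finset.sum_neg_distrib]
      refine Finset.sum_congr rfl fun m hm => ?_
      rw [Finset.mem_Icc] at hm
      rw [hab m (by omega), hα1]
      ring
  have hdeg : Q.natDegree < 2 * g + 1 := by
    have h1 : Q.natDegree ≤ ∑ i : Fin (4 * Module.finrank ℚ F),
        (1 - C (α i) * X : ℂ[X]).natDegree := natDegree_prod_le _ _
    have h2 : ∀ i, (1 - C (α i) * X : ℂ[X]).natDegree ≤ 1 := fun i => by
      refine (natDegree_sub_le _ _).trans ?_
      rw [natDegree_one]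
      exact max_le (by omega) ((natDegree_C_mul_le _ _).trans natDegree_X_le)
    have h3 : ∑ i : Fin (4 * Module.finrank ℚ F), (1 - C (α i) * X : ℂ[X]).natDegree ≤
        ∑ _i : Fin (4 * Module.finrank ℚ F), 1 := Finset.sum_le_sum fun i _ => h2 i
    simp only [Finset.sum_const, Finset.card_univ, Fintype.card_fin, smul_eq_mul, mul_one] at h3
    omega
  refine ⟨?_, ?_, ?_, ?_⟩
  · apply Int.cast_injective (α := ℂ)
    rw [← nfc_one, ← hα2, eval_eq_sum_range' hdeg]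
    unfold LS
    rw [Int.cast_sum]
    refine Finset.sum_congr rfl fun k _ => ?_
    rw [hA k, one_pow, mul_one]
  · apply Int.cast_injective (α := ℂ)
    rw [← nfc_neg, ← hα2, eval_eq_sum_range' hdeg]
    unfold LT
    rw [Int.cast_sum]
    refine Finset.sum_congr rfl fun k _ => ?_
    rw [Int.cast_mul, hA k]
    push_cast
    ring
  · refine nfc_coeff p hp0 a b _ ?_
    rw [← hα2, hA g, hg]
  · intro σ z hz
    obtain ⟨i, hi⟩ := hα3 σ z hz
    obtain ⟨C', hC'⟩ := val_NG p hp ⟨g, rfl⟩ r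
    rw [← hi]
    refine pwr_main α C' (√(p : ℝ)) (Real.sqrt_pos.2 (Nat.cast_pos.2 (by omega))) (fun m hm => ?_) i
    have h1 := hC' m hm
    have h2 : ∑ i, α i ^ m = -((NG p m r : ℤ) : ℂ) := by
      rw [hab m hm, hα1, neg_neg]
    rw [h2, norm_neg]
    have h3 : ‖((NG p m r : ℤ) : ℂ)‖ = |((NG p m r : ℤ) : ℝ)| := by
      rw [Complex.norm_intCast]
    rw [h3]
    exact h1

end Pool.Agent.H99.RM
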